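import Pool.Agent.Lib.MP_4b1228_nt.GR.St

/-! The comparison of the sums over all sets of primes, and the bad sets in the model. -/

namespace Pool.Agent.Lib.MP_4b1228_nt.GS.R

open Finset Filter Topology Pool.Agent.Lib.MP_9d27bc_nt.C Pool.Agent.Lib.MP_9d27bc_nt.C.Two
open scoped Classical

namespace Co

theorem tend {j : ℕ} (h : 1 ≤ j) : Tendsto (fun y : ℝ => y ^ j) atTop atTop :=
  tendsto_pow_atTop (by omega)

theorem small {j : ℕ} (h : 1 ≤ j) :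
    Tendsto (fun y : ℝ => (y ^ j) ^ (-(1 / 4) : ℝ)) atTop (𝓝 0) :=
  (tendsto_rpow_neg_atTop (by norm_num : (0 : ℝ) < 1 / 4)).comp (tend h)

theorem one_le {J R j : ℕ} (h : J + 2 * R + 1 ≤ R * j) : 1 ≤ R := by
  rcases R with _ | R
  · simp at h
  · omega

theorem pw {y Z : ℝ} {j c g a : ℕ} (hy : 1 ≤ y) (h0 : 0 ≤ Z) (hZ : Z ≤ y ^ g)
    (h : c * j + 2 * g ≤ a) : (y ^ j) ^ c * Z ^ 2 ≤ y ^ a :=
  calc _ ≤ (y ^ j) ^ c * (y ^ g) ^ 2 := by gcongr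
    _ = y ^ (c * j + 2 * g) := by ring
    _ ≤ _ := pow_le_pow_right₀ hy h

theorem box (hX : Box) (h : MertSt) {j : ℕ} (hj : 1 ≤ j) :
    Tendsto (fun y : ℝ => D0 (Bx y j) id) atTop (𝓝 (Real.log (((j : ℝ) + 1) / j))) := by
  have := h.1 j ((j + 1 : ℕ) : ℝ) (by exact_mod_cast hj) (by simp)
  simp only [Real.rpow_natCast] at this
  simpa only [hX.D0_Bx, Nat.cast_succ] using this

theorem cell_lim (hB : Bas) (hX : Box) (h : MertSt) {r : ℕ} {jv : Fin r → ℕ} (hj : ∀ i, 1 ≤ jv i) :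
    Tendsto (fun y : ℝ => cell y 1 jv) atTop (𝓝 (∏ i, Real.log (((jv i : ℝ) + 1) / jv i))) := by
  refine (tendsto_finsetProd _ fun i _ => box hX h (hj i)).congr fun y => ?_
  rw [← hB.D0_pi]
  simp only [cell, D0, wwO, id]

theorem log_bd {j : ℕ} (hj : 1 ≤ j) : 1 / ((j : ℝ) + 1) ≤ Real.log (((j : ℝ) + 1) / j) ∧
    Real.log (((j : ℝ) + 1) / j) ≤ 1 / (j : ℝ) := by
  have j0 : (0 : ℝ) < j := by exact_mod_cast hj
  refine ⟨le_trans (le_of_eq ?_) (Real.one_sub_inv_le_log_of_pos (by positivity)),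
    (Real.log_le_sub_one_of_pos (by positivity)).trans (le_of_eq ?_)⟩ <;> field_simp <;> ring

end Co

end Pool.Agent.Lib.MP_4b1228_nt.GS.R
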