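import Pool.Agent.Lib.MP_4b1228_nt.GR.St

/-! The sum of the first type as a sum over sets of primes, for general weights. -/

namespace Pool.Agent.Lib.MP_4b1228_nt.GS.R

open Finset Filter Topology Pool.Agent.Lib.MP_9d27bc_nt.C Pool.Agent.Lib.MP_9d27bc_nt.C.Two
open scoped Classical

noncomputable section

namespace IDG

theorem pw {α : Type} (g : α → ℕ) (S : Finset α) (f : Multiset ℕ → ℝ) :
    ((S.val.map g).powerset.map f).sum = ∑ T ∈ S.powerset, f (T.val.map g) := by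
  induction S using Finset.induction_on generalizing f with
  | empty => simp
  | insert a S h ih =>
    rw [insert_val_of_notMem h, Multiset.map_cons, Multiset.powerset_cons, Multiset.map_add,
      Multiset.sum_add, Multiset.map_map, ih, ih, sum_powerset_insert h]
    refine congrArg _ (sum_congr rfl fun T hT => ?_)
    rw [insert_val_of_notMem fun e => h (mem_powerset.1 hT e), Multiset.map_cons]
    rfl

/-- parameters with the same range of totals -/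
def pr (s : Sv) : Par := ⟨0, 0, 0, 0, 0, 0, 0, 0, s.J₁, s.J₂⟩

/-- the sum of the weights of the divisors -/
def GG (s : Sv) (y : ℝ) (j₀ R : ℕ) (z : GI) : ℝ :=
  ∑ S ∈ (PP y j₀ (s.J₂ + 1)).powerset, if z ∈ ID.II (pr s) y j₀ R S then s.yy (im y S) else 0

variable (hB : Bas) (hX : Box) (hD : Dv) {s : Sv} {y : ℝ} {j₀ R : ℕ} (hy : 3 ≤ y) (hj : 1 ≤ j₀)

include hB hX hD hy hj in
theorem val (hR : s.J₂ ≤ R * j₀) {S₀ : Finset GI} (h : S₀ ∈ (pr s).co y j₀) {u : GI}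
    (hu : IsUnit u) : GG s y j₀ R (u * ∏ π ∈ S₀, π) = s.T (im y S₀) := by
  have y0 : 0 < y := by linarith
  have y1 : 1 < y := by linarith
  obtain ⟨h0, a1, a2⟩ := mem_filter.1 h
  have h0 := mem_powerset.1 (mem_filter.1 h0).1
  have c0 : #S₀ ≤ R := Nat.le_of_mul_le_mul_left
    ((hX.nm_set y j₀ _ S₀ y1 h0).2.2.1.trans (a2.trans (hR.trans (mul_comm _ _).le))) hj
  rw [Sv.T, im, pw, GG, ← sum_filter]
  refine sum_congr (Finset.ext fun S => ?_) fun _ _ => rfl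
  rw [mem_filter, mem_powerset, mem_powerset]
  refine ⟨fun ⟨a, b⟩ π hπ => ?_, fun a => ⟨a.trans h0, mem_image.2 ⟨u * ∏ π ∈ S₀ \ S, π, ?_, ?_⟩⟩⟩
  · obtain ⟨m, -, e⟩ := mem_image.1 b
    exact (hD.dvd_prod y j₀ _ S₀ π y1 h0 (a hπ)).1
      (hu.dvd_mul_left.1 (e ▸ (dvd_prod_of_mem _ hπ).mul_right m))
  · obtain ⟨n1, n2, -, n4⟩ := hX.nm_set y j₀ _ (S₀ \ S) y1 (sdiff_subset.trans h0)
    have e : (im y (S₀ \ S)).sum + (im y S).sum = (im y S₀).sum := sum_sdiff (f := ix y) a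
    have c := card_le_card (sdiff_subset (s := S₀) (t := S))
    rw [mem_filter, hB.mem_Sq, hB.mx_unit _ _ hu, ID.nm_unit hu]
    generalize ∏ π ∈ S₀ \ S, π = m at *
    have c1 : (mx m : ℝ) ^ 2 ≤ nm m := by exact_mod_cast (hB.mx_nm m).1
    have c2 : (nm m : ℝ) ≤ 2 * (mx m : ℝ) ^ 2 := by exact_mod_cast (hB.mx_nm m).2
    have q : 0 < y ^ (im y S).sum := pow_pos y0 _
    refine ⟨⟨lt_of_pow_lt_pow_left₀ 2 (by positivity) (lt_of_mul_lt_mul_right ?_ (mul_pos q y0).le),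
      le_of_pow_le_pow_left₀ two_ne_zero (Real.rpow_nonneg y0.le _)
        (le_of_mul_le_mul_right ?_ q)⟩, n4⟩
    · rw [← mul_assoc, ID.p1 (pr s) y0]
      have := pow_pos y0 (im y (S₀ \ S)).sum
      calc _ ≤ y ^ (im y (S₀ \ S)).sum * y ^ (im y S).sum := by
            rw [← pow_add]; exact pow_le_pow_right₀ y1.le (by omega)
        _ ≤ 2 * (mx m : ℝ) ^ 2 * y ^ (im y S).sum := by gcongr; exact n1.trans c2
        _ < _ := by nlinarith [mul_pos (show 0 < (mx m : ℝ) ^ 2 by linarith) q]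
    · refine le_of_le_of_eq ?_ (ID.p2 (pr s) y0 R _).symm
      calc _ ≤ y ^ ((im y (S₀ \ S)).sum + #(S₀ \ S)) * y ^ (im y S).sum := by
            gcongr; exact c1.trans n2
        _ ≤ _ := by rw [← pow_add]; exact pow_le_pow_right₀ y1.le (by omega)
  · rw [mul_left_comm, mul_comm (∏ π ∈ S, π), prod_sdiff a]

end IDG

open IDG ID in
theorem idG (hB : Bas) (hX : Box) (hD : Dv) : IDG := fun p y j₀ R Z ok hy hj hR => by
  obtain ⟨o1, o3, o4, -, s1, s2, -⟩ := ok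
  have y0 : 0 < y := by linarith
  have y1 : 1 < y := by linarith
  have bd := fun {S : Finset GI} (h : S ⊆ PP y j₀ (p.J₂ + 1)) (e : p.yy (im y S) ≠ 0) {z : GI} =>
    bounds hB hX hy hj (p := pr p) (R := R) h (show 1 ≤ p.J₁ by omega)
      (by have := mt (s2 _) e; omega) (z := z)
  let U : Finset GI := {1, -1, ⟨0, 1⟩, ⟨0, -1⟩}
  let D := disc (y ^ (p.J₂ + 2 * R + 1))
  let E := (U ×ˢ (pr p).co y j₀).image fun w => w.1 * ∏ π ∈ w.2, π
  have co : ∀ S ∈ (pr p).co y j₀, S ⊆ PP y j₀ (p.J₂ + 1) := fun S h =>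
    mem_powerset.1 (mem_filter.1 (mem_filter.1 h).1).1
  have e1 : p.TIr y j₀ R Z = ∑ z ∈ D, IDG.GG p y j₀ R z * ww Z z := by
    simp only [IDG.GG, sum_mul]
    rw [sum_comm]
    refine sum_congr rfl fun S hS => ?_
    by_cases e : p.yy (im y S) = 0
    · simp [e]
    have hS := mem_powerset.1 hS
    rw [← sum_image (g := fun m => (∏ π ∈ S, π) * m) (f := ww Z)
      fun a _ b _ e => mul_left_cancel₀ (ne0 hX hy hS) e, mul_sum]
    simp only [ite_mul, zero_mul]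
    rw [← sum_filter, filter_mem_eq_inter, inter_eq_right.2 fun z hz =>
      show z ∈ D from (hA.mem_disc _ _).2 (bd hS e hz).2.1]
    rfl
  have e2 : 4 * p.scr y j₀ Z p.T = ∑ z ∈ E, IDG.GG p y j₀ R z * ww Z z := by
    rw [sum_image, sum_product, sum_congr rfl (g := fun _ => (pr p).scr y j₀ Z p.T)
      fun u hu => sum_congr rfl fun S hS => by
        rw [IDG.val hB hX hD hy hj (by omega) hS ((hD.units u).2 hu),
          wwU _ _ _ ((hD.units u).2 hu)]]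
    · rw [sum_const, show #U = 4 by decide, nsmul_eq_mul]
      rfl
    · rintro ⟨u, S⟩ a ⟨u', S'⟩ b e
      obtain ⟨a1, a2⟩ := mem_product.1 (mem_coe.1 a)
      obtain ⟨b1, b2⟩ := mem_product.1 (mem_coe.1 b)
      have k : ∀ π ∈ PP y j₀ (p.J₂ + 1), π ∈ S ↔ π ∈ S' := fun π hπ => by
        rw [← hD.dvd_prod y j₀ _ S π y1 (co _ a2) hπ, ← hD.dvd_prod y j₀ _ S' π y1 (co _ b2) hπ,
          ← ((hD.units u).2 a1).dvd_mul_left, ← ((hD.units u').2 b1).dvd_mul_left (b := ∏ π ∈ S', π)]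
        exact iff_of_eq (congrArg _ e)
      obtain rfl : S = S' := Finset.ext fun π =>
        ⟨fun c => (k π (co _ a2 c)).1 c, fun c => (k π (co _ b2 c)).2 c⟩
      exact Prod.ext (mul_right_cancel₀ (ne0 hX hy (co _ a2)) e) rfl
  have e3 : E ⊆ D := fun z hz => by
    obtain ⟨⟨u, S⟩, a, rfl⟩ := mem_image.1 hz
    obtain ⟨a1, a2⟩ := mem_product.1 a
    obtain ⟨-, n2, n3, -⟩ := hX.nm_set y j₀ _ S y1 (co _ a2)
    have : (im y S).sum ≤ p.J₂ := (mem_filter.1 a2).2.2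
    have : #S ≤ R := Nat.le_of_mul_le_mul_left (n3.trans (by rw [mul_comm]; omega)) hj
    rw [hA.mem_disc, nm_unit ((hD.units u).2 a1)]
    exact n2.trans (pow_le_pow_right₀ y1.le (by omega))
  have nz : ∀ z, IDG.GG p y j₀ R z ≠ 0 → y ^ (p.J₁ - 1) ≤ nm z ∧
      (nm z : ℝ) ≤ y ^ (p.J₂ + 2 * R + 1) ∧ Rough (y ^ j₀) (nm z) := fun z hz => by
    obtain ⟨S, hS, e⟩ := exists_ne_zero_of_sum_ne_zero hz
    rw [ne_eq, ite_eq_right_iff, Classical.not_imp] at e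
    exact bd (mem_powerset.1 hS) e.2 e.1
  have gb : ∀ z, IDG.GG p y j₀ R z ≠ 0 → |IDG.GG p y j₀ R z| ≤ 100 * 2 ^ R := fun z hz => by
    obtain ⟨a, b, -⟩ := nz z hz
    have z0 : z ≠ 0 := by
      rintro rfl
      exact absurd a (by simp [nm]; positivity)
    have c := hD.card_dvd y j₀ (p.J₂ + 1) R z y1 hj z0 (b.trans (pow_le_pow_right₀ y1.le hR))
    rw [IDG.GG, ← sum_filter]
    refine (abs_sum_le_sum_abs _ _).trans ((sum_le_card_nsmul _ _ 100 fun S _ => s1 _).trans ?_)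
    rw [nsmul_eq_mul, mul_comm]
    gcongr
    have := (card_le_card (t := {π ∈ PP y j₀ (p.J₂ + 1) | π ∣ z}.powerset) (s :=
      {S ∈ (PP y j₀ (p.J₂ + 1)).powerset | z ∈ II (pr p) y j₀ R S}) fun S hS => by
        obtain ⟨a, b⟩ := mem_filter.1 hS
        obtain ⟨m, -, e⟩ := mem_image.1 b
        exact mem_powerset.2 fun π hπ => mem_filter.2
          ⟨mem_powerset.1 a hπ, e ▸ (dvd_prod_of_mem _ hπ).mul_right m⟩).trans
      ((card_powerset _).trans_le (Nat.pow_le_pow_right two_pos c))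
    exact_mod_cast this
  rw [e1, e2, ← sum_sdiff_eq_sub e3, ← sum_filter_of_ne (p := fun z => IDG.GG p y j₀ R z ≠ 0)
    fun z _ e => left_ne_zero_of_mul e]
  refine (abs_sum_le_sum_abs _ _).trans ((sum_le_sum (g := fun z => 100 * 2 ^ R * ww Z z)
    fun z hz => ?_).trans ?_)
  · rw [abs_mul, abs_of_nonneg (wwN Z z)]
    exact mul_le_mul_of_nonneg_right (gb z (mem_filter.1 hz).2) (wwN Z z)
  rw [← mul_sum]
  gcongr
  refine (sum_le_sum_of_subset_of_nonneg (fun z hz => ?_) fun z _ _ => wwN Z z).trans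
    ((un (wwN Z) _ _).trans (add_le_add_left (un (wwN Z) _ _) _))
  obtain ⟨hz, g⟩ := mem_filter.1 hz
  obtain ⟨a, b, r⟩ := nz z g
  simp only [mem_union, mem_filter, hA.mem_disc]
  by_cases q : Squarefree (nm z)
  swap
  · obtain ⟨l, hl, d⟩ : ∃ l : ℕ, l.Prime ∧ l * l ∣ nm z := by
      simpa [Nat.squarefree_iff_prime_squarefree] using q
    exact Or.inl (Or.inl ⟨b, a, l, hl, r l hl ((dvd_mul_right l l).trans d), sq l ▸ d⟩)
  obtain ⟨S, hS, u, hu, rfl⟩ := hD.nice y j₀ (p.J₂ + 2 * R + 1) z (by linarith) hj q r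
    fun l _ d => (Nat.cast_le.2 (Nat.le_of_dvd (Nat.pos_of_ne_zero q.ne_zero) d)).trans b
  obtain ⟨hS, inj⟩ := mem_filter.1 hS
  have hS := mem_powerset.1 hS
  obtain ⟨n1, n2, n3, -⟩ := hX.nm_set y j₀ _ S y1 hS
  rw [← nm_unit hu] at n1 n2
  have c : (im y S).sum ≤ p.J₂ + 2 * R + 1 := (pow_le_pow_iff_right₀ y1).1 (n1.trans b)
  have c' : #S ≤ R := Nat.le_of_mul_le_mul_left (n3.trans (by rw [mul_comm]; omega)) hj
  by_cases t1 : (im y S).sum < p.J₁
  · exact Or.inl (Or.inr ⟨n2.trans (pow_le_pow_right₀ y1.le (by omega)), a, r⟩)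
  by_cases t2 : p.J₂ < (im y S).sum
  · exact Or.inr ⟨b, (pow_le_pow_right₀ y1.le t2.le).trans n1, r⟩
  refine absurd (mem_image.2 ⟨(u, S), mem_product.2 ⟨(hD.units u).1 hu, mem_filter.2
    ⟨mem_filter.2 ⟨mem_powerset.2 fun π hπ => ?_, inj⟩, not_lt.1 t1, not_lt.1 t2⟩⟩, rfl⟩)
    (mem_sdiff.1 hz).2
  obtain ⟨i1, -, i3⟩ := hX.ix_PP y j₀ _ π y1 (hS hπ)
  have : ix y π ≤ (im y S).sum := single_le_sum (f := ix y) (fun _ _ => Nat.zero_le _) hπ
  exact mem_biUnion.2 ⟨_, mem_Ico.2 ⟨i1, show _ < p.J₂ + 1 by omega⟩, i3⟩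

open Co in
theorem coG (h1 : TIG) (h2 : IDG) (h3 : NNSt) (h4 : UBSt) : CoG := by
  obtain ⟨C1, p1, k1⟩ := h1
  obtain ⟨c, C4, p4, k4⟩ := h4
  refine ⟨c + 1, C1 + 50 * (1 + 8 * C4), by positivity,
    fun p η ε j₀ R g₀ hp hη hε hj hR hg hv => ?_⟩
  have R1 := one_le hR
  obtain ⟨q1, q3, q4, -⟩ := id hp
  rw [add_mul] at hg
  have j0 : (0 : ℝ) < j₀ := by exact_mod_cast hj
  have R0 : (1 : ℝ) ≤ R := by exact_mod_cast R1
  filter_upwards [k1 p η ε j₀ R g₀ hp hη hε hj hR hv, (tend hj).eventually (h3 R),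
    (tend hj).eventually (k4 R), (small hj).eventually_le_const (div_pos (one_pos.trans_le R0) j0),
    eventually_ge_atTop (3 : ℝ)] with y e1 e2 e3 e4 e5
  have y1 : 1 ≤ y := by linarith
  have l1 : 1 ≤ Real.log y := (Real.le_log_iff_exp_le (by linarith)).2
    (Real.exp_one_lt_d9.le.trans (by linarith))
  have up : ∀ b : ℕ, b ≤ R * j₀ → y ^ b ≤ (y ^ j₀) ^ R := fun b hb => by
    rw [← pow_mul, mul_comm]
    exact pow_le_pow_right₀ y1 hb
  have key : ∀ Z : ℕ, 1 ≤ Z → (Z : ℝ) ≤ y ^ g₀ → |p.TIr y j₀ R Z - 4 * p.scr y j₀ Z p.T| ≤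
      100 * 2 ^ R * ((1 + 8 * C4) * R / j₀) := fun Z hZ hZ' => by
    have lb : ∀ a b : ℕ, c * j₀ + 2 * g₀ ≤ a → a ≤ b → b ≤ a + (2 * R + 1) → b ≤ R * j₀ →
        lay (y ^ j₀) Z (y ^ a) (y ^ b) ≤ 4 * C4 * R / j₀ := fun a b f1 f2 f3 f4 => by
      refine (e3 Z _ _ hZ (Co.pw y1 (Nat.cast_nonneg _) hZ' f1) (pow_le_pow_right₀ y1 f2)
        (up b f4)).trans ?_
      have f5 : (b : ℝ) ≤ a + (2 * R + 1) := by exact_mod_cast f3
      rw [Real.log_div (by positivity) (by positivity), Real.log_pow, Real.log_pow, Real.log_pow,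
        div_le_div_iff₀ (by positivity) j0]
      have f6 : 1 + (b * Real.log y - a * Real.log y) ≤ 4 * R * Real.log y := by nlinarith
      nlinarith [mul_le_mul_of_nonneg_left f6 (mul_pos p4 j0).le]
    have f0 := Co.pw (j := j₀) (c := 1) (a := p.J₁ - 1) y1 (Nat.cast_nonneg _) hZ' (by omega)
    rw [pow_one] at f0
    have f1 := (e2 Z _ _ hZ f0 (up _ hR)).trans e4
    have f2 := lb (p.J₁ - 1) (p.J₁ + R) (by omega) (by omega) (by omega) (by omega)
    have f3 := lb p.J₂ (p.J₂ + 2 * R + 1) (by omega) (by omega) (by omega) hR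
    refine (h2 p y j₀ R Z hp e5 hj hR).trans (mul_le_mul_of_nonneg_left
      ((add_le_add (add_le_add f1 f2) f3).trans (le_of_eq (by ring))) (by positivity))
  intro Z hZ hZ'
  have a1 := abs_le.1 (e1 Z hZ hZ')
  have a2 := abs_le.1 (key Z hZ hZ')
  have a3 := abs_le.1 (key 1 le_rfl (by simpa using one_le_pow₀ y1))
  have q6 : (p.J₁ : ℝ) ≤ p.J₂ := by exact_mod_cast q4
  have b1 : 0 ≤ η * R * ((p.J₂ : ℝ) - p.J₁ + R + 2) / j₀ :=
    div_nonneg (mul_nonneg (by positivity) (by linarith)) (by positivity)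
  have b2 : 0 ≤ 2 ^ R * (R : ℝ) / j₀ := by positivity
  simp only [mul_assoc, mul_div_assoc] at *
  generalize η * (R * (((p.J₂ : ℝ) - p.J₁ + R + 2) / j₀)) = u at *
  have b3 : (2 : ℝ) ^ R * ((1 + 8 * C4) * (R / j₀)) = (1 + 8 * C4) * (2 ^ R * (R / j₀)) := by ring
  rw [b3] at a2 a3
  generalize 2 ^ R * ((R : ℝ) / j₀) = v at *
  have b4 := mul_nonneg p1.le b1
  have b5 := mul_nonneg p4.le b1
  have b6 := mul_nonneg p1.le b2
  have b7 := mul_nonneg p4.le b2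
  exact abs_le.2 ⟨by nlinarith, by nlinarith⟩

end

end Pool.Agent.Lib.MP_4b1228_nt.GS.R
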