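import Pool.Agent.Lib.MP_4b1228_nt.GR.St

/-!
The choice of the parameters, second version.
-/

namespace Pool.Agent.Lib.MP_4b1228_nt.GS.R

open Finset Filter Topology Pool.Agent.Lib.MP_9d27bc_nt.C
open scoped Classical

/-- The lower bound for the weight of the primes. -/
def MainSt2 (θ : ℝ) : Prop :=
  ∃ (J₁ J₂ g₀ : ℕ) (c : ℝ), 0 < c ∧ (2 * g₀ < J₁ ∧ 12 * g₀ ≤ 5 * J₁ ∧ J₁ ≤ J₂) ∧
    (J₂ : ℝ) / 2 + 3 - g₀ ≤ θ * J₁ ∧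
    ∀ᶠ y : ℝ in atTop, ∀ Z : ℕ, 1 ≤ Z → (Z : ℝ) ≤ y ^ g₀ → c ≤ ∑ π ∈ PP y J₁ (J₂ + 1), ww Z π

/-- The lower bound for a general system of weights. -/
def CoreG : Prop :=
  ∃ (c : ℕ) (C : ℝ), 0 < C ∧ ∀ (s : Sv) (η ε : ℝ) (j₀ R g₀ : ℕ), s.Wt → 0 ≤ η → 0 < ε → 1 ≤ j₀ →
    j₀ ≤ s.J₁ → s.J₂ + 2 * R + 1 ≤ R * j₀ → g₀ + c * j₀ + 2 ≤ s.τ → s.Visr η R j₀ g₀ →
    Asy s.G j₀ g₀ → ∀ᶠ y : ℝ in atTop, ∀ Z : ℕ, 1 ≤ Z → (Z : ℝ) ≤ y ^ g₀ →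
      ∑ J ∈ Icc s.J₁ s.J₂, (1 / ((J : ℝ) + 1) - s.ls j₀ (s.J₂ + 1) R J) -
        (C * η * R * ((s.J₂ : ℝ) - s.J₁ + R + 2) / j₀ + C * 2 ^ R * R / j₀ +
          C * 2 ^ R * (((s.J₂ : ℝ) - 2 * s.τ + R + 2) / j₀) ^ 2 + ε) ≤
        ∑ π ∈ PP y s.J₁ (s.J₂ + 1), ww Z π

namespace Main2

lemma sc_add (s : Sv) (y : ℝ) (j₀ Z : ℕ) :
    s.scr y j₀ Z s.T = (s.scr y j₀ Z fun M => if s.G M then s.T M else 0) +
      (s.scr y j₀ Z fun M => if ¬s.G M ∧ Exc s.τ M then s.T M else 0) +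
      s.scr y j₀ Z fun M => if s.B M then 0 else s.T M := by
  simp only [Sv.scr, ← sum_add_distrib]
  refine sum_congr rfl fun S _ => ?_
  by_cases h1 : s.G (im y S) <;> by_cases h2 : Exc s.τ (im y S) <;> simp [Sv.B, h1, h2]

lemma sc_mid (hB : Bas) (s : Sv) (y : ℝ) (j₀ Z : ℕ) :
    |s.scr y j₀ Z fun M => if ¬s.G M ∧ Exc s.τ M then s.T M else 0| ≤
      s.scr y j₀ Z fun M => if Exc s.τ M then |s.T M| else 0 := by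
  simp only [Sv.scr]
  refine (abs_sum_le_sum_abs _ _).trans (sum_le_sum fun S _ => ?_)
  rw [abs_mul, abs_of_nonneg (wwN _ _)]
  refine mul_le_mul_of_nonneg_right ?_ (wwN _ _)
  by_cases h1 : s.G (im y S) <;> by_cases h2 : Exc s.τ (im y S) <;> simp [h1, h2]

lemma sc_ok (q : Pq) (hq : q.OK) (h J₂ : ℕ) (hh : 0 < h) (h1 : q.J₁ * h ≤ J₂) (h2 : J₂ ≤ q.J₂ * h) :
    (q.sc h J₂).OK := by
  obtain ⟨a1, a2, a3, -, a5, a6⟩ := hq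
  have b1 : 0 < q.g * h := Nat.mul_pos a1 hh
  have b2 := Nat.mul_le_mul_right h a2
  have b3 := Nat.mul_le_mul_right h a3
  have b5 := Nat.mul_lt_mul_of_pos_right a5 hh
  have b6 := Nat.mul_le_mul_right h a6
  simp only [add_mul, mul_assoc] at b2 b3 b5 b6
  simp only [Pq.OK, Pq.sc]
  refine ⟨b1, b2, b3, h1, ?_, b6⟩
  omega

lemma err3 (c C R Δ j U : ℝ) (hc : 0 < c) (h2 : 0 < C) (hR : 1 ≤ R) (hj : 0 < j) (hU : 0 < U)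
    (hΔ : R ≤ Δ) (d : 64 * (C * U) * (Δ + 1) * R / c ≤ j) :
    C * U * ((Δ + R + 2) / j) ^ 2 ≤ (Δ + 1) * (c / (2 * (R * j))) / 8 := by
  have hR0 : 0 < R := by linarith
  have e : (Δ + 1) * (c / (2 * (R * j))) / 8 = (Δ + 1) * c / (16 * R * j) := by
    field_simp
    ring
  rw [e]
  rw [div_le_iff₀ hc] at d
  have hD : 0 < Δ + 1 := by linarith
  rw [div_pow, ← mul_div_assoc, div_le_div_iff₀ (by positivity) (by positivity)]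
  have x1 : (Δ + R + 2) ^ 2 ≤ (2 * (Δ + 1)) ^ 2 := by
    apply pow_le_pow_left₀ <;> linarith
  calc C * U * (Δ + R + 2) ^ 2 * (16 * R * j) ≤ C * U * (2 * (Δ + 1)) ^ 2 * (16 * R * j) := by
        gcongr
    _ = (64 * (C * U) * (Δ + 1) * R) * ((Δ + 1) * j) := by ring
    _ ≤ (j * c) * ((Δ + 1) * j) := by gcongr
    _ = (Δ + 1) * c * j ^ 2 := by ring

end Main2

open Main2 in
theorem coreG (hB : Bas) (h1 : CoG) (h2 : ExG) (h3 : GdG) (h4 : BdG) : CoreG := by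
  obtain ⟨c₁, C₁, hC₁, h1⟩ := h1
  obtain ⟨c₂, C₂, hC₂, h2⟩ := h2
  refine ⟨c₁ + c₂ + 1, C₁ + 2 * C₂, by positivity, ?_⟩
  intro s η ε j₀ R g₀ hs hη hε hj hjJ hR hg hV hA
  rw [add_mul, add_mul, one_mul] at hg
  filter_upwards [h1 s η (ε / 3) j₀ R g₀ hs hη (by positivity) hj hR (by omega) hV,
    h2 s j₀ R g₀ hs hj hR (by omega), h3 s (ε / 3) j₀ R g₀ hs (by positivity) hj hR (by omega) hA,
    h4 s (ε / 3) j₀ R hs (by positivity) hj hjJ hR, eventually_ge_atTop (1 : ℝ)]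
    with y a1 a2 a3 a4 hy Z hZ hZy
  have b1 := (abs_le.1 (a1 Z hZ hZy)).1
  have b2 := a2 Z hZ hZy
  have b2' := a2 1 le_rfl (by simpa using one_le_pow₀ hy)
  obtain ⟨b3, b4⟩ := a3 Z hZ hZy
  have b3' := (abs_le.1 b3).2
  have m1 := (abs_le.1 (sc_mid hB s y j₀ Z)).2
  have m2 := (abs_le.1 (sc_mid hB s y j₀ 1)).1
  have s1 := sc_add s y j₀ Z
  have s2 := sc_add s y j₀ 1
  have hJ : (s.J₁ : ℝ) ≤ s.J₂ := by exact_mod_cast hs.2.2.1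
  have p1 : 0 ≤ η * R * ((s.J₂ : ℝ) - s.J₁ + R + 2) / j₀ := by
    have : (0 : ℝ) ≤ (s.J₂ : ℝ) - s.J₁ := by linarith
    positivity
  have p2 : (0 : ℝ) ≤ 2 ^ R * R / j₀ := by positivity
  have p3 : (0 : ℝ) ≤ 2 ^ R * (((s.J₂ : ℝ) - 2 * s.τ + R + 2) / j₀) ^ 2 := by positivity
  have e1 : ∀ C : ℝ, C * η * R * ((s.J₂ : ℝ) - s.J₁ + R + 2) / j₀ =
      C * (η * R * ((s.J₂ : ℝ) - s.J₁ + R + 2) / j₀) := fun C => by ring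
  have e2 : ∀ C : ℝ, C * 2 ^ R * R / j₀ = C * (2 ^ R * R / j₀) := fun C => by ring
  have e3 : ∀ C : ℝ, C * 2 ^ R * (((s.J₂ : ℝ) - 2 * s.τ + R + 2) / j₀) ^ 2 =
      C * (2 ^ R * (((s.J₂ : ℝ) - 2 * s.τ + R + 2) / j₀) ^ 2) := fun C => by ring
  rw [e1, e2] at b1
  rw [e3] at b2 b2'
  rw [e1, e2, e3]
  nlinarith [mul_nonneg hC₂.le p1, mul_nonneg hC₂.le p2, mul_nonneg hC₁.le p3]

/-- The lower bound from a family of systems of weights. -/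
theorem mainG (h1 : CoreG) (N g : ℕ) (hg : 0 < g) (hgN : g < N) (h12 : 12 * g ≤ 10 * N)
    (c CV : ℝ) (hc : 0 < c)
    (hCV : 0 < CV) (a b h₀ : ℕ) (s : ℕ → ℕ → Sv)
    (hs : ∀ h Δ, h₀ ≤ h → 1 ≤ h → Δ ≤ h → (s h Δ).Wt ∧ (s h Δ).τ = N * h ∧
      (s h Δ).J₁ = 2 * N * h ∧ (s h Δ).J₂ = 2 * N * h + Δ ∧
      (∀ J j₀ J' R, 2 * N * h ≤ J → J ≤ 2 * N * h + Δ → 1 ≤ j₀ →
        (s h Δ).ls j₀ J' R J ≤ (1 - c) / J) ∧
      ∀ k R j₀ g₀ : ℕ, CV ≤ 2 ^ k → 1 ≤ j₀ → g₀ + (a * k + b) * j₀ + Δ + 2 ≤ g * h →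
        (s h Δ).Visr (CV / 2 ^ k) R j₀ g₀ ∧ Asy (s h Δ).G j₀ g₀)
    (θ : ℝ) (hθ : 1 / 2 - (g : ℝ) / (2 * N) < θ) : MainSt2 θ := by
  obtain ⟨c₁, C₁, hC₁, h1⟩ := h1
  have hN : 1 ≤ N := by omega
  have hN' : (1 : ℝ) ≤ N := by exact_mod_cast hN
  set δ := θ - (1 / 2 - (g : ℝ) / (2 * N)) with hδ
  have hδ0 : 0 < δ := by linarith
  obtain ⟨K, hK1, hK⟩ : ∃ K : ℕ, 1 ≤ K ∧ 1 ≤ δ * K := by
    refine ⟨⌈1 / δ⌉₊ + 1, by omega, ?_⟩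
    have := Nat.le_ceil (1 / δ)
    rw [div_le_iff₀ hδ0] at this
    push_cast
    nlinarith
  obtain ⟨k, hk⟩ := Main.ex_k (2 * N * K * a) (2 * N * K * (b + c₁ + 7) + 1)
    (32 * (C₁ * CV) / c + CV) (by positivity)
  obtain ⟨σ, hσ⟩ : ∃ σ : ℕ, σ = a * k + b + c₁ := ⟨_, rfl⟩
  obtain ⟨R', hR'⟩ : ∃ R' : ℕ, R' = K * (σ + 7) := ⟨_, rfl⟩
  obtain ⟨R, hR⟩ : ∃ R : ℕ, R = 2 * N * R' + 1 := ⟨_, rfl⟩
  have hkR : 2 * N * K * a * k + (2 * N * K * (b + c₁ + 7) + 1) = R := by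
    rw [hR, hR', hσ]; ring
  rw [hkR] at hk
  have hR1 : (1 : ℝ) ≤ R := by exact_mod_cast (by omega : 1 ≤ R)
  have hR2 : (1 : ℝ) ≤ (R : ℝ) ^ 2 := one_le_pow₀ hR1
  have hq1 : 0 ≤ 32 * (C₁ * CV) / c := by positivity
  have hka : 32 * (C₁ * CV) / c * (R : ℝ) ^ 2 ≤ 2 ^ k := by nlinarith
  have hkb : CV ≤ 2 ^ k := by nlinarith
  obtain ⟨Δ, hΔ1, hΔ2⟩ : ∃ Δ : ℕ, R ≤ Δ ∧ 16 * C₁ * 2 ^ R * (R : ℝ) ^ 2 / c ≤ Δ := by
    refine ⟨⌈16 * C₁ * 2 ^ R * (R : ℝ) ^ 2 / c⌉₊ + R, by omega, ?_⟩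
    push_cast
    linarith [Nat.le_ceil (16 * C₁ * 2 ^ R * (R : ℝ) ^ 2 / c)]
  obtain ⟨j₀, hj1, hj2, hj3, hj4⟩ : ∃ j₀ : ℕ, Δ + 2 * R + 1 ≤ j₀ ∧ h₀ ≤ j₀ ∧ 2 / c ≤ j₀ ∧
      64 * (C₁ * 2 ^ R) * ((Δ : ℝ) + 1) * R / c ≤ j₀ := by
    refine ⟨Δ + 2 * R + 1 + h₀ + ⌈2 / c⌉₊ + ⌈64 * (C₁ * 2 ^ R) * ((Δ : ℝ) + 1) * R / c⌉₊,
      by omega, by omega, ?_, ?_⟩
    · exact (Nat.le_ceil _).trans (by exact_mod_cast (by omega))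
    · exact (Nat.le_ceil _).trans (by exact_mod_cast (by omega))
  have hj0 : 1 ≤ j₀ := by omega
  have hj0' : (1 : ℝ) ≤ j₀ := by exact_mod_cast hj0
  have hRs : σ + 7 ≤ R' := by rw [hR']; exact Nat.le_mul_of_pos_left _ hK1
  obtain ⟨h, hh⟩ : ∃ h : ℕ, h = R' * j₀ := ⟨_, rfl⟩
  have hsj : σ * j₀ + 7 * j₀ ≤ h := by rw [hh, ← add_mul]; exact Nat.mul_le_mul_right _ hRs
  have hjh : j₀ ≤ h := by omega
  have hgh : h ≤ g * h := Nat.le_mul_of_pos_left _ hg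
  have hNh : g * h + h ≤ N * h := by
    have := Nat.mul_le_mul_right h (show g + 1 ≤ N from hgN)
    rwa [add_mul, one_mul] at this
  have hRj : R * j₀ = 2 * N * h + j₀ := by rw [hR, hh]; ring
  have hN2 : 2 * N * h = 2 * (N * h) := by ring
  obtain ⟨g₀, hg₀⟩ : ∃ g₀ : ℕ, g₀ + (σ * j₀ + Δ + 2) = g * h :=
    ⟨g * h - (σ * j₀ + Δ + 2), by omega⟩
  obtain ⟨hW, eτ, eJ₁, eJ₂, hL, hV⟩ := hs h Δ (by omega) (by omega) (by omega)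
  have hsa : (a * k + b) * j₀ ≤ σ * j₀ := Nat.mul_le_mul_right _ (by omega)
  have hsb : c₁ * j₀ ≤ σ * j₀ := Nat.mul_le_mul_right _ (by omega)
  obtain ⟨hV1, hV2⟩ := hV k R j₀ g₀ hkb hj0 (by omega)
  set p := s h Δ with hp
  set m : ℝ := ((Δ : ℝ) + 1) * (c / (2 * ((R : ℝ) * j₀))) with hm
  have hm0 : 0 < m := by positivity
  have k1 := h1 p (CV / 2 ^ k) (m / 8) j₀ R g₀ hW (by positivity) (by positivity) hj0 (by omega)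
    (by omega) (by omega) hV1 hV2
  have k4 := Main.low c hc (2 * N * h) Δ (R * j₀) (fun J => p.ls j₀ (p.J₂ + 1) R J)
    (hj3.trans (by exact_mod_cast (by omega))) (by omega)
    (fun J ha hb => hL J j₀ (p.J₂ + 1) R ha hb hj0)
  obtain ⟨C', hC'⟩ : ∃ C' : ℝ, C' = (R * j₀ * c) / (64 * ((Δ : ℝ) + 1) * R * R) := ⟨_, rfl⟩
  have hC'0 : 0 < C' := by rw [hC']; positivity
  have hd : 64 * C' * ((Δ : ℝ) + 1) * R / c ≤ j₀ := by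
    rw [hC']
    apply le_of_eq
    field_simp
  have hΔ1' : (R : ℝ) ≤ Δ := by exact_mod_cast hΔ1
  have hU : 0 < (2 : ℝ) ^ R / CV := by positivity
  obtain ⟨e1, e2, -⟩ := Main.errs c (C₁ * CV) C' R Δ j₀ (2 ^ k) (2 ^ R / CV) hc (by positivity)
    hC'0 hR1 (by linarith) (by positivity) hU hΔ1' hka
    (le_trans (le_of_eq (by field_simp)) hΔ2) hd
  have e3 := Main2.err3 c C₁ R Δ j₀ (2 ^ R) hc hC₁ hR1 (by linarith) (by positivity) hΔ1' hj4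
  have h12' := Nat.mul_le_mul_right h h12
  rw [mul_assoc, mul_assoc] at h12'
  refine ⟨p.J₁, p.J₂, g₀, m / 4, by positivity, by omega, ?_, ?_⟩
  · have x1 : (g₀ : ℝ) + (σ * j₀ + Δ + 2) = g * h := by exact_mod_cast hg₀
    have x2 : (Δ : ℝ) ≤ j₀ := by exact_mod_cast (by omega : Δ ≤ j₀)
    have x3 : (h : ℝ) = K * (σ + 7) * j₀ := by rw [hh, hR']; push_cast; ring
    have x4 : θ * (2 * N * h) = δ * (2 * N) * h + N * h - g * h := by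
      rw [hδ]; field_simp; ring
    have x5 : ((σ : ℝ) + 7) * j₀ ≤ δ * (2 * N) * h := by
      have x6 : (0 : ℝ) ≤ ((σ : ℝ) + 7) * j₀ := by positivity
      have x7 : 1 ≤ δ * K * (2 * N) := by nlinarith
      calc ((σ : ℝ) + 7) * j₀ = 1 * (((σ : ℝ) + 7) * j₀) := by ring
        _ ≤ (δ * K * (2 * N)) * (((σ : ℝ) + 7) * j₀) := by gcongr
        _ = δ * (2 * N) * h := by rw [x3]; ring
    rw [eJ₁, eJ₂]
    push_cast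
    rw [x4]
    nlinarith
  · filter_upwards [k1] with y a1 Z hZ hZy
    have b1 := a1 Z hZ hZy
    have y1 : (p.J₂ : ℝ) - p.J₁ = Δ := by rw [eJ₁, eJ₂]; push_cast; ring
    have y2 : (p.J₂ : ℝ) - 2 * p.τ = Δ := by rw [eτ, eJ₂]; push_cast; ring
    rw [y1, y2] at b1
    have k4' : m ≤ ∑ J ∈ Icc p.J₁ p.J₂, (1 / ((J : ℝ) + 1) - p.ls j₀ (p.J₂ + 1) R J) := by
      rw [hm]
      have := k4
      push_cast at this
      rw [← eJ₂, ← eJ₁] at this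
      exact this
    have f1 : C₁ * (CV / 2 ^ k) * R * ((Δ : ℝ) + R + 2) / j₀ =
        C₁ * CV * R * (Δ + R + 2) / (2 ^ k * j₀) := by field_simp
    have f2 : C₁ * CV * (2 ^ R / CV) * R / j₀ = C₁ * 2 ^ R * R / j₀ := by field_simp
    rw [f1] at b1
    rw [f2] at e2
    linarith

theorem main2 (h1 : CoreG) (h2 : VisSt) (h3 : AsySt) (h4 : Sign2St) (h5 : Cert2St) (θ : ℝ)
    (hθ : 1 / 12 < θ) : MainSt2 θ := by
  obtain ⟨q, hq, hlt, hτ, hg, c, hc, h5⟩ := h5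
  obtain ⟨h₀, h5⟩ := eventually_atTop.1 h5
  obtain ⟨CV, hCV, h2⟩ := h2
  obtain ⟨c₁, h3⟩ := h3
  have hg0 : 0 < q.g := hq.1
  refine mainG h1 q.τ q.g hg0 (by omega) (by omega) c CV hc hCV 320 (480 + c₁) h₀
    (fun h Δ => (q.sc h (q.J₁ * h + Δ)).sv) ?_ θ ?_
  · intro h Δ hh h1' hΔ
    have hJ : q.J₁ * h + Δ ≤ q.J₂ * h := by
      have := Nat.mul_le_mul_right h (show q.J₁ + 1 ≤ q.J₂ from hlt)
      rw [add_mul] at this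
      omega
    have hok := Main2.sc_ok q hq h (q.J₁ * h + Δ) h1' (by omega) hJ
    obtain ⟨w1, w2, -⟩ := h4 _ hok
    refine ⟨w1, rfl, by rw [hτ]; rfl, by rw [hτ]; rfl, ?_, ?_⟩
    · intro J j₀ J' R ha hb hj
      rw [hτ] at ha hb
      exact h5 h hh J _ j₀ J' R ha hb hJ hj
    · intro k R j₀ g₀ hk hj hg₀
      have e : (320 * k + (480 + c₁)) * j₀ = 80 * (4 * k + 6) * j₀ + c₁ * j₀ := by ring
      rw [e] at hg₀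
      refine ⟨fun M hM hx => ?_, h3 _ j₀ g₀ hj (show _ ≤ q.g * h by omega)⟩
      have hM' : (q.sc h (q.J₁ * h + Δ)).yy M ≠ 0 := fun h0 => hM (by simp [Pq.sv, h0])
      refine h2 k hk (q.g * h) _ _ R j₀ g₀ M hj hok.2.2.2.1 ?_ ?_ hx (w2 M hM')
      · have a := hok.2.1
        have b := hok.2.2.1
        simp only [Pq.sc, Pq.sv] at a b ⊢
        omega
      · simp only [Pq.sc, Pq.sv]
        omega
  · have x1 : (12 : ℝ) * q.g = 5 * (2 * q.τ) := by exact_mod_cast (by omega : 12 * q.g = 5 * (2 * q.τ))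
    have x2 : (0 : ℝ) < q.τ := by exact_mod_cast (by omega : 0 < q.τ)
    have : (q.g : ℝ) / (2 * q.τ) = 5 / 12 := by
      rw [div_eq_iff (by positivity)]
      linarith
    rw [this]
    linarith

end Pool.Agent.Lib.MP_4b1228_nt.GS.R
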