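import Pool.Agent.Lib.MP_4b1228_nt.GR.St

/-!
Vectors whose norm is divisible by the square of a large prime have a small weight.
-/

namespace Pool.Agent.Lib.MP_4b1228_nt.GS.R

open Finset Filter Topology Pool.Agent.Lib.MP_9d27bc_nt.C Pool.Agent.Lib.MP_9d27bc_nt.C.Two
open scoped Classical

namespace NNa

/-- The three divisors of norm `l ^ 2`. -/
noncomputable def dd (l : ℕ) (o : Option Bool) : GI :=
  if Split l then o.elim l fun ε => cp l ε ^ 2 else l

theorem nm_nat (l : ℕ) : nm (l : GI) = l ^ 2 := by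
  have := hG.2.2.1 (l : GI)
  simp only [Zsqrtd.re_natCast, Zsqrtd.im_natCast] at this
  exact_mod_cast (by simpa using this : (nm (l : GI) : ℤ) = l ^ 2)

theorem nm_dd (l : ℕ) (o : Option Bool) : nm (dd l o) = l ^ 2 := by
  rw [dd]
  split_ifs with h
  · cases o with
    | none => exact nm_nat l
    | some ε => rw [Option.elim_some, sq, hG.1, (hG.2.2.2.2.2.2.2.2.1 l ε h).1, sq]
  · exact nm_nat l

theorem ex_dd {l : ℕ} (hl : l.Prime) (h2 : l ≠ 2) {a : GI} (h : l ^ 2 ∣ nm a) :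
    ∃ o, dd l o ∣ a := by
  by_cases s : Split l
  · obtain ⟨-, -, -, h4, h5, -, -, -, -, -, -, -, -, h14, -⟩ := hG.2.2.2.2.2.2.2.2.1 l true s
    rcases (h14 a).1 h with g | g | g
    · exact ⟨some true, by rwa [dd, if_pos s]⟩
    · exact ⟨some false, by rwa [dd, if_pos s]⟩
    · exact ⟨none, by rw [dd, if_pos s, Option.elim_none, ← h4]; exact h5.mul_dvd g.1 g.2⟩
  · have := Fact.mk hl
    have h3 : l % 4 = 3 := by
      have := hl.eq_two_or_odd.resolve_left h2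
      have : l % 4 ≠ 1 := fun e => s ⟨hl, e⟩
      omega
    have hp := GaussianInt.prime_of_nat_prime_of_mod_four_eq_three l h3
    have h4 : (l : GI) ∣ star a * a := by
      rw [hG.2.2.2.1]
      exact Nat.cast_dvd_cast ((dvd_pow_self l two_ne_zero).trans h)
    refine ⟨none, ?_⟩
    rw [dd, if_neg s]
    refine (hp.dvd_or_dvd h4).elim (fun ⟨c, hc⟩ => ⟨star c, ?_⟩) id
    simpa using congrArg star hc

theorem one (hB : Bas) (h : S2St) : ∃ C : ℝ, 0 < C ∧ ∀ (z X Y : ℝ) (Z l : ℕ) (d : GI)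
    (S : Finset GI), 1 ≤ z → 1 ≤ Z → z * (Z : ℝ) ^ 2 ≤ Y → Y ≤ X → z < l → nm d = l ^ 2 →
    (∀ a ∈ S, Y ≤ nm a ∧ (nm a : ℝ) ≤ X ∧ d ∣ a) →
    ∑ a ∈ S, ww Z a ≤ 1 / (l : ℝ) * (C * (1 + Real.log (2 * X)) / √z) := by
  obtain ⟨C₁, c1, h1⟩ := hB.m0_le
  obtain ⟨C₂, c2, h2⟩ := h
  refine ⟨C₁ + 2 * (1 + 2 * C₂), by positivity, fun z X Y Z l d S hz hZ hY hX hl hd hS => ?_⟩
  have Z1 : (1 : ℝ) ≤ Z := by exact_mod_cast hZ
  have l1 : (1 : ℝ) < l := hz.trans_lt hl
  have Y1 : 1 ≤ Y := by nlinarith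
  have d0 : d ≠ 0 := (hB.nm_pos d).2 (by
    rw [hd]; exact Nat.one_le_pow _ _ (by exact_mod_cast l1.le.trans_lt' one_pos))
  have sY : 1 ≤ √Y := Real.one_le_sqrt.2 Y1
  have sY2 := Real.mul_self_sqrt (zero_le_one.trans Y1)
  have sz : 1 ≤ √z := Real.one_le_sqrt.2 hz
  have sz2 := Real.mul_self_sqrt (zero_le_one.trans hz)
  set P := max (1 / 2) (√Y / (2 * l)) with hP
  have p1 : 1 / 2 ≤ P := le_max_left _ _
  have p2 : √Y ≤ P * (2 * l) := (div_le_iff₀ (by positivity)).1 (le_max_right _ _)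
  have p3 : P ≤ X := max_le (by linarith) (by rw [div_le_iff₀ (by positivity)]; nlinarith)
  set Λ := 1 + Real.log (2 * X) with hΛ
  have Λ1 : 1 ≤ Λ := le_add_of_nonneg_right (Real.log_nonneg (by linarith))
  have ne : ∀ m ∈ Sq P X, m ≠ 0 := fun m hm e => by
    have := ((hB.mem_Sq P X m).1 hm).1
    simp [e, mx] at this
    linarith
  have e1 : ∑ a ∈ S, ww Z a ≤ ∑ m ∈ Sq P X, ww Z (d * m) := by
    rw [← sum_image (f := ww Z) fun _ _ _ _ e => mul_left_cancel₀ d0 e]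
    refine sum_le_sum_of_subset_of_nonneg (fun a ha => ?_) fun a _ _ => wwN Z a
    obtain ⟨a1, a2, m, rfl⟩ := hS a ha
    refine mem_image_of_mem _ ((hB.mem_Sq P X m).2 ?_)
    rw [hG.1, hd] at a1 a2
    push_cast at a1 a2
    obtain ⟨b1, b2⟩ := hB.mx_nm m
    have b3 : (mx m : ℝ) ^ 2 ≤ nm m := by exact_mod_cast b1
    have b4 : (nm m : ℝ) ≤ 2 * (mx m : ℝ) ^ 2 := by exact_mod_cast b2
    have b5 : (1 : ℝ) ≤ mx m := by
      rcases Nat.eq_zero_or_pos (mx m) with e | e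
      · rw [show nm m = 0 by simpa [e] using b2, Nat.cast_zero, mul_zero] at a1
        linarith
      · exact_mod_cast e
    have b6 : (nm m : ℝ) ≤ (l : ℝ) ^ 2 * nm m :=
      le_mul_of_one_le_left (by positivity) (one_le_pow₀ l1.le)
    refine ⟨max_lt (by linarith) ?_, by linarith [le_self_pow₀ b5 two_ne_zero]⟩
    rw [div_lt_iff₀ (by positivity), Real.sqrt_lt' (by positivity)]
    have : 0 < (l : ℝ) ^ 2 * (mx m : ℝ) ^ 2 := by positivity
    have := mul_le_mul_of_nonneg_left b4 (sq_nonneg (l : ℝ))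
    linarith
  have e2 := (abs_le.1 (wwE GI (Sq P X) (fun m => d * m) Z hZ
    fun m hm => mul_ne_zero d0 (ne m hm))).2
  have e3 : D0 (Sq P X) (fun m => d * m) = m0 P X / (l : ℝ) ^ 2 := by
    rw [D0, m0, sum_div]
    refine sum_congr rfl fun m _ => ?_
    rw [hG.1, hd]
    push_cast
    rw [div_div, mul_comm]
  have e4 : ∑ t ∈ fz Z, ‖hat (Sq P X) (fun m => d * m) t‖ ≤
      (∑ t ∈ fz Z, ‖sm (cls 1 0) P X t‖) / (l : ℝ) ^ 2 := by
    rw [sum_div]
    refine sum_le_sum fun t _ => ?_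
    have : hat (Sq P X) (fun m => d * m) t = xi t d * sm (cls 1 0) P X t / (l : ℂ) ^ 2 := by
      rw [hat, sm, filter_true_of_mem fun m _ => by simp [cls], mul_sum, sum_div]
      refine sum_congr rfl fun m _ => ?_
      rw [hG.1, hd, hB.xi_mul]
      push_cast
      ring
    rw [this, norm_div, norm_mul, norm_pow, Complex.norm_natCast]
    exact div_le_div_of_nonneg_right (mul_le_of_le_one_left (norm_nonneg _) (hB.xi_le t d))
      (by positivity)
  have e5 : m0 P X ≤ C₁ * Λ := (h1 P X (by linarith) p3).trans (by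
    have : Real.log (X / P) ≤ Real.log (2 * X) :=
      Real.log_le_log (div_pos (by linarith) (by linarith))
        (by rw [div_le_iff₀ (by linarith)]; nlinarith)
    rw [hΛ]
    gcongr)
  have e6 : ∑ t ∈ fz Z, ‖sm (cls 1 0) P X t‖ ≤ (1 + 2 * C₂) * Λ * (2 * l) / √z := by
    have a1 := sq_sum_le_card_mul_sum_sq (s := fz Z) (f := fun t => ‖sm (cls 1 0) P X t‖)
    have a2 : (#(fz Z) : ℝ) = 2 * Z := by
      rw [fz, card_erase_of_mem (by simp [fr]), fr, Int.card_Icc]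
      exact_mod_cast (by omega)
    have a3 := h2 1 0 P X Z le_rfl p1
    have a4 : C₂ * Z * (1 + Real.log (2 * P)) / P ^ 2 ≤ C₂ * Z * Λ / P ^ 2 := by
      have : Real.log (2 * P) ≤ Real.log (2 * X) := Real.log_le_log (by linarith) (by linarith)
      rw [hΛ]
      gcongr
    refine (pow_le_pow_iff_left₀ (sum_nonneg fun _ _ => norm_nonneg _) (by positivity)
      two_ne_zero).1 (a1.trans ?_)
    rw [a2]
    refine (mul_le_mul_of_nonneg_left (a3.trans a4) (by positivity)).trans ?_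
    rw [div_pow, ← mul_div_assoc, div_le_div_iff₀ (by positivity) (by positivity), Real.sq_sqrt
      (by linarith)]
    have a5 : z * (Z : ℝ) ^ 2 ≤ (P * (2 * l)) ^ 2 := by nlinarith
    have a6 : 2 * C₂ * Λ ≤ ((1 + 2 * C₂) * Λ) ^ 2 := by
      have : 1 ≤ (1 + 2 * C₂) * Λ := by nlinarith
      nlinarith
    calc _ = 2 * C₂ * Λ * (z * (Z : ℝ) ^ 2) := by ring
      _ ≤ ((1 + 2 * C₂) * Λ) ^ 2 * (P * (2 * l)) ^ 2 := by gcongr
      _ = _ := by ring
  have e7 : C₁ * Λ ≤ C₁ * Λ * l / √z := by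
    rw [le_div_iff₀ (by positivity)]
    have : √z ≤ l := by nlinarith
    gcongr
  calc _ ≤ (m0 P X + ∑ t ∈ fz Z, ‖sm (cls 1 0) P X t‖) / (l : ℝ) ^ 2 := by
        rw [add_div]; linarith
    _ ≤ (C₁ * Λ * l / √z + (1 + 2 * C₂) * Λ * (2 * l) / √z) / (l : ℝ) ^ 2 := by
        gcongr; exact e5.trans e7
    _ = _ := by field_simp

end NNa

open NNa in
theorem nn (hB : Bas) (h : S2St) : NNSt := by
  obtain ⟨C, c0, hc⟩ := one hB h
  intro A
  have t := (isLittleO_log_rpow_rpow_atTop 2 (show (0 : ℝ) < 1 / 4 by norm_num)).bound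
    (c := 1 / (3 * C * (A + 2) ^ 2)) (by positivity)
  filter_upwards [t, eventually_ge_atTop 3] with z t1 hz Z Y Y' hZ hY hY'
  have z0 : 0 < z := by linarith
  rcases lt_or_ge Y' Y with l | l
  · rw [NN, sum_eq_zero fun a ha => ?_]
    · positivity
    · have := (hA.mem_disc _ _).1 (mem_filter.1 ha).1
      linarith [(mem_filter.1 ha).2.1]
  have X1 : 1 ≤ z ^ A := one_le_pow₀ (by linarith)
  set K := C * (1 + Real.log (2 * z ^ A)) / √z with hK
  have L0 : 0 ≤ Real.log (2 * z ^ A) := Real.log_nonneg (by linarith)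
  have K0 : 0 ≤ K := by positivity
  have e1 : NN z Z Y Y' ≤ ∑ i ∈ pr z (z ^ A) ×ˢ (univ : Finset (Option Bool)),
      ∑ a ∈ disc Y' with Y ≤ nm a ∧ dd i.1 i.2 ∣ a, ww Z a := by
    simp only [NN, sum_filter]
    rw [sum_comm]
    refine sum_le_sum fun a ha => ?_
    have nn : ∀ i ∈ pr z (z ^ A) ×ˢ (univ : Finset (Option Bool)),
        0 ≤ if Y ≤ nm a ∧ dd i.1 i.2 ∣ a then ww Z a else 0 := fun i _ =>
      ite_nonneg (wwN Z a) le_rfl
    split_ifs with g
    · obtain ⟨g1, p, hp, g2, g3⟩ := g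
      obtain ⟨o, ho⟩ := ex_dd hp (by rintro rfl; norm_num at g2; linarith) g3
      have Z1 : (1 : ℝ) ≤ Z := by exact_mod_cast hZ
      have a0 : 0 < nm a := by exact_mod_cast (by nlinarith : (0 : ℝ) < nm a)
      have g4 : (p : ℝ) ≤ nm a := by
        exact_mod_cast Nat.le_of_dvd a0 ((dvd_pow_self p two_ne_zero).trans g3)
      refine (if_pos ⟨g1, ho⟩).ge.trans (single_le_sum nn (a := (p, o)) (mem_product.2
        ⟨(hG.2.2.2.2.2.2.2.2.2.2.2.2.2.2.2.2.2.2.2.2 _ _ _).1.2 ⟨hp, g2, ?_⟩, mem_univ _⟩))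
      exact g4.trans (((hA.mem_disc _ _).1 ha).trans hY')
    · exact sum_nonneg nn
  have mp := fun p => (hG.2.2.2.2.2.2.2.2.2.2.2.2.2.2.2.2.2.2.2.2 z (z ^ A) p).1.1
  have e2 : NN z Z Y Y' ≤ (∑ p ∈ pr z (z ^ A), 1 / (p : ℝ)) * (3 * K) := by
    refine (e1.trans (sum_le_sum fun i hi => hc z (z ^ A) Y Z i.1 _ _ (by linarith) hZ hY
      (l.trans hY') (mp _ (mem_product.1 hi).1).2.1 (nm_dd i.1 i.2) fun a ha =>
        ⟨(mem_filter.1 ha).2.1, ((hA.mem_disc _ _).1 (mem_filter.1 ha).1).trans hY',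
          (mem_filter.1 ha).2.2⟩)).trans_eq ?_
    rw [sum_product, sum_mul]
    refine sum_congr rfl fun p _ => ?_
    simp only [sum_const, card_univ, Fintype.card_option, Fintype.card_bool, nsmul_eq_mul]
    push_cast
    ring
  have e3 := hC.2.2.2.2.2.2 (z ^ A) 1 0 (pr z (z ^ A)) one_pos X1 fun p hp =>
    ⟨(mp p hp).1.pos, (mp p hp).2.2, by simp⟩
  have lz : 1 ≤ Real.log z := by
    rw [Real.le_log_iff_exp_le z0]
    linarith [Real.exp_one_lt_d9]
  have e4 : 1 + Real.log (2 * z ^ A) ≤ (A + 2) * Real.log z := by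
    rw [Real.log_mul two_ne_zero (by positivity), Real.log_pow]
    linarith [Real.log_two_lt_d9]
  have e5 : Real.log (z ^ A) ≤ Real.log (2 * z ^ A) := Real.log_le_log (by positivity) (by linarith)
  rw [Real.norm_of_nonneg (by positivity), Real.norm_of_nonneg (by positivity), Real.rpow_two,
    one_div_mul_eq_div, le_div_iff₀ (by positivity)] at t1
  rw [Nat.cast_one, div_one] at e3
  calc _ ≤ ((A + 2) * Real.log z) * (3 * (C * ((A + 2) * Real.log z) / √z)) := by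
        refine e2.trans (mul_le_mul (by linarith) ?_ (by positivity) (by positivity))
        rw [hK]
        gcongr
    _ = Real.log z ^ 2 * (3 * C * (A + 2) ^ 2) / √z := by ring
    _ ≤ z ^ (1 / 4 : ℝ) / √z := by gcongr
    _ = _ := by
        rw [Real.sqrt_eq_rpow, ← Real.rpow_sub z0]
        norm_num

end Pool.Agent.Lib.MP_4b1228_nt.GS.R
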