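import Pool.Agent.Lib.MP_4b1228_nt.GR.T1

/-!
Sums of the first type with two arbitrary factors, and the visible divisors.
-/

namespace Pool.Agent.Lib.MP_4b1228_nt.GS.R

open Finset Filter Topology Pool.Agent.Lib.MP_9d27bc_nt.C Pool.Agent.Lib.MP_9d27bc_nt.C.Two
open scoped Classical

open T1 in
theorem t2 (hB : Bas) (h1 : TCSt) (h2 : Eb2St) : T2St := by
  obtain ⟨C, hC, h1⟩ := h1
  refine ⟨C, hC, fun k hk A B => ?_⟩
  filter_upwards [eventually_ge_atTop 2, (tw k).eventually (h2 A B),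
    mass hB (C * B) (by positivity) A B] with z hz ha hm ι κ S v S' v' a Z P₁ P₂ a1 a2 a3 a4 a5
  obtain ⟨b1, b2, b3, b4, b5, b6, b7, b8⟩ := a1
  have hD : C * (D0 S v * D0 S' v') ≤ z ^ 2 := by
    refine le_trans ?_ (hm ι S v b1 fun i hi => (b2 i hi).2)
    have := D0_nonneg S v
    calc C * (D0 S v * D0 S' v') ≤ C * (D0 S v * B) := by gcongr
      _ = C * B * D0 S v := by ring
  have hw : 1 ≤ z ^ (4 * k + 6) := one_le_pow₀ (by linarith)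
  have hZ : (1 : ℝ) ≤ (Z : ℝ) ^ (1 - 2 * a / 3) :=
    Real.one_le_rpow (by exact_mod_cast a2) (by linarith)
  have b9 : (z ^ (4 * k + 6)) ^ 14 ≤ P₁ ^ 2 :=
    ((pow_le_pow_right₀ hw (by norm_num)).trans
      (le_mul_of_one_le_right (by positivity) hZ)).trans b8
  obtain ⟨e1, e2⟩ := err hz (le_w hz k) a3 b9 hD
  have := h1 k hk _ (S ×ˢ S') (fun w => v w.1 * v' w.2) Z z P₁ P₂ (1 / (z ^ (4 * k + 6)) ^ 5) hz
    (fun i hi => mul_ne_zero ((hB.nm_pos _).2 (a2.trans (b2 _ (mem_product.1 hi).1).1))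
      (b4 _ (mem_product.1 hi).2)) a2 e1 (by positivity) fun q c hq hq' => by
      simp only [hB.hat_mul, norm_mul]
      exact ha ι κ S v S' v' a Z q c P₁ P₂ ⟨b1, fun i hi => ⟨(b2 i hi).1,
        (b2 i hi).2.trans (le_wA hz k A)⟩, b3, b4, b5, b6, b7, b8⟩ a2 hq hq' a3 a4
        (a5.trans (le_wA hz k A))
  rw [hB.D0_mul] at this
  exact this.trans (add_le_add le_rfl e2)

namespace T2

open TI hiding H1

/-- the first estimate at one point -/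
def H1 (c : ℝ) (u A B : ℕ) (z : ℝ) : Prop :=
  ∀ (ι : Type) (S : Finset ι) (v : ι → GI) (Z : ℕ) (P₁ P₂ Y : ℝ),
    Mult S v B → 1 ≤ Y → (∀ i ∈ S, Y ≤ nm (v i) ∧ (nm (v i) : ℝ) ≤ z ^ A) → 1 ≤ Z → 1 ≤ P₁ →
    P₁ ≤ z ^ A → (z ^ u) ^ 14 * Z ≤ P₁ ^ 2 → (z ^ u) ^ 14 * (Z : ℝ) ^ 2 ≤ Y * P₁ ^ 2 →
    |AA z Z S v P₁ P₂ - D0 S v * m0 P₁ P₂ * VV z| ≤ c * (D0 S v * m0 P₁ P₂ * VV z) + 1 / z

lemma pA_eq (y : ℝ) {J₁ a n : ℕ} (h : n + a + 1 = J₁) : pA J₁ y a = y ^ ((n : ℝ) / 2) := by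
  have : (J₁ : ℝ) = n + a + 1 := by rw [← h]; push_cast; ring
  rw [pA, this]
  congr 1
  ring

lemma pAB {y : ℝ} {J₁ J₂ : ℕ} (R a : ℕ) (hy : 1 ≤ y) (hJ : J₁ ≤ J₂) :
    pA J₁ y a ≤ pB J₂ y R a := by
  have : (J₁ : ℝ) ≤ J₂ := by exact_mod_cast hJ
  have hR : (0 : ℝ) ≤ R := Nat.cast_nonneg R
  exact Real.rpow_le_rpow_of_exponent_le hy (by linarith)

lemma mT_nonneg (J₁ J₂ R : ℕ) {j₀ : ℕ} (M : Multiset ℕ) {y : ℝ} (hj : 1 ≤ j₀) (hy : 3 ≤ y) :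
    0 ≤ mT J₁ J₂ R j₀ M y := by
  obtain ⟨C', hC', -, -, -, -, h2, -⟩ := hM
  have hz : 2 ≤ y ^ j₀ := by
    have := le_self_pow₀ (by linarith : 1 ≤ y) (by omega : j₀ ≠ 0)
    linarith
  have l0 : 0 < Real.log (y ^ j₀) := Real.log_pos (by linarith)
  have hV : 0 ≤ VV (y ^ j₀) := le_trans (by positivity) (h2 _ hz).1
  exact mul_nonneg (mul_nonneg (D0_nonneg _ _) (m0_nonneg _ _)) hV

lemma asy_mono {η η' : ℝ} {J₁ J₂ R j₀ g₀ : ℕ} {M : Multiset ℕ} (hj : 1 ≤ j₀) (h : η ≤ η')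
    (H : AsyI η J₁ J₂ R j₀ g₀ M) : AsyI η' J₁ J₂ R j₀ g₀ M := by
  intro ε hε
  filter_upwards [H ε hε, eventually_ge_atTop 3] with y h1 hy Z hZ1 hZ
  exact (h1 Z hZ1 hZ).trans
    (add_le_add (mul_le_mul_of_nonneg_right h (mT_nonneg J₁ J₂ R M hj hy)) le_rfl)

lemma small {j₀ : ℕ} (hj : 1 ≤ j₀) {ε : ℝ} (hε : 0 < ε) : ∀ᶠ y : ℝ in atTop, 1 / y ^ j₀ ≤ ε := by
  have ht : Tendsto (fun y : ℝ => y ^ j₀) atTop atTop := tendsto_pow_atTop (by omega)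
  filter_upwards [ht.eventually (eventually_ge_atTop (1 / ε)), eventually_gt_atTop 0]
    with y h1 h2
  exact (one_div_le hε (by positivity)).1 h1

/-- one arbitrary factor -/
lemma one (hX : Box) (hD : Dv) {c : ℝ} {u g J₁ J₂ R j₀ g₀ : ℕ} {M : Multiset ℕ} (hj : 1 ≤ j₀)
    (hJ : J₁ ≤ J₂) (h2 : 2 * g ≤ J₁) (hg : g₀ + 80 * u * j₀ + (J₂ - J₁) + 2 ≤ g)
    (ha : M.sum + g ≤ J₂) (h : ∀ᶠ z : ℝ in atTop, H1 c u (2 * J₂ + 1) 1 z) :
    AsyI c J₁ J₂ R j₀ g₀ M := by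
  intro ε hε
  have ht : Tendsto (fun y : ℝ => y ^ j₀) atTop atTop := tendsto_pow_atTop (by omega)
  filter_upwards [ht.eventually h, eventually_ge_atTop 3, small hj hε] with y h hy hs W hW1 hW
  have hy1 : 1 ≤ y := by linarith
  have hy1' : 1 < y := by linarith
  have hu : 80 * u * j₀ = 80 * (u * j₀) := by ring
  obtain ⟨n, hn⟩ : ∃ n, n + M.sum + 1 = J₁ := ⟨J₁ - M.sum - 1, by omega⟩
  have hP := pA_eq y hn
  have hP2 : pA J₁ y M.sum ^ 2 = y ^ n := by rw [hP, sq_half (by linarith)]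
  have e14 : ((y ^ j₀) ^ u) ^ 14 = y ^ (14 * (u * j₀)) := by
    rw [← pow_mul, ← pow_mul]; congr 1; ring
  refine le_trans (h _ (FM y j₀ (J₂ + 1) M) _ W _ _ (y ^ M.sum) (fun x => ?_) (one_le_pow₀ hy1)
    (fun S hS => ?_) hW1 ?_ ?_ ?_ ?_) (add_le_add le_rfl hs)
  · exact (card_le_card (filter_subset_filter _ (filter_subset _ _))).trans
      (hD.mult_set y j₀ _ hy1' x)
  · obtain ⟨k0, k4⟩ := mem_filter.1 hS
    obtain ⟨k1, k2, k3, -⟩ := hX.nm_set y j₀ _ S hy1' (mem_powerset.1 k0)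
    rw [k4] at k1 k2 k3
    have : #S ≤ j₀ * #S := Nat.le_mul_of_pos_left _ hj
    exact ⟨k1, k2.trans (np_le hy1 hj (by omega))⟩
  · rw [hP]; exact Real.one_le_rpow hy1 (by positivity)
  · rw [hP]
    refine rp_le hy1 hj ?_
    have : (n : ℝ) ≤ (2 * J₂ + 1 : ℕ) := by exact_mod_cast (by omega)
    have h5 : (0 : ℝ) ≤ n := Nat.cast_nonneg _
    linarith
  · rw [hP2, e14]
    calc y ^ (14 * (u * j₀)) * W ≤ y ^ (14 * (u * j₀)) * y ^ g₀ := by gcongr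
      _ = y ^ (14 * (u * j₀) + g₀) := (pow_add _ _ _).symm
      _ ≤ y ^ n := pow_le_pow_right₀ hy1 (by omega)
  · rw [hP2, e14]
    calc y ^ (14 * (u * j₀)) * (W : ℝ) ^ 2 ≤ y ^ (14 * (u * j₀)) * (y ^ g₀) ^ 2 := by gcongr
      _ = y ^ (14 * (u * j₀) + g₀ * 2) := by rw [pow_add, pow_mul y g₀]
      _ ≤ y ^ (M.sum + n) := pow_le_pow_right₀ hy1 (by omega)
      _ = y ^ M.sum * y ^ n := pow_add _ _ _

/-- the sets of two primes in two different boxes -/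
lemma sum_FM (hX : Box) {y : ℝ} (hy : 1 < y) {j₀ J P b : ℕ} (h1 : j₀ ≤ b) (h2 : b < P)
    (h3 : P < J) (G : GI → ℝ) :
    ∑ S ∈ FM y j₀ J {P, b}, G (∏ π ∈ S, π) = ∑ w ∈ Bx y P ×ˢ Bx y b, G (w.1 * w.2) := by
  have hne : ∀ x ∈ Bx y P, ∀ x' ∈ Bx y b, x ≠ x' := by
    intro x hx x' hx' e
    have k1 := hX.ix_eq y P x hy hx
    have k2 := hX.ix_eq y b x' hy hx'
    rw [e] at k1
    omega
  symm
  refine sum_bij (fun w _ => ({w.1, w.2} : Finset GI)) (fun w hw => ?_) (fun w hw w' hw' e => ?_)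
    (fun S hS => ?_) (fun w hw => ?_)
  · obtain ⟨k1, k2⟩ := mem_product.1 hw
    refine mem_filter.2 ⟨mem_powerset.2 (insert_subset ?_ (singleton_subset_iff.2 ?_)), ?_⟩
    · exact mem_biUnion.2 ⟨P, mem_Ico.2 ⟨by omega, h3⟩, k1⟩
    · exact mem_biUnion.2 ⟨b, mem_Ico.2 ⟨h1, by omega⟩, k2⟩
    · rw [im, insert_val_of_notMem (notMem_singleton.2 (hne _ k1 _ k2)), Multiset.map_cons,
        singleton_val, Multiset.map_singleton, hX.ix_eq y P _ hy k1, hX.ix_eq y b _ hy k2]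
      rfl
  · obtain ⟨k1, k2⟩ := mem_product.1 hw
    obtain ⟨k3, k4⟩ := mem_product.1 hw'
    have e' : ({w.1, w.2} : Finset GI) = {w'.1, w'.2} := e
    have m1 : w.1 ∈ ({w'.1, w'.2} : Finset GI) := by rw [← e']; simp
    have m2 : w.2 ∈ ({w'.1, w'.2} : Finset GI) := by rw [← e']; simp
    refine Prod.ext ?_ ?_
    · rcases mem_insert.1 m1 with k | k
      · exact k
      · exact absurd (mem_singleton.1 k) (hne _ k1 _ k4)
    · rcases mem_insert.1 m2 with k | k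
      · exact absurd k.symm (hne _ k3 _ k2)
      · exact mem_singleton.1 k
  · obtain ⟨k0, k4⟩ := mem_filter.1 hS
    have k5 := mem_powerset.1 k0
    have hc : #S = 2 := by
      have : (im y S).card = #S := Multiset.card_map _ _
      rw [← this, k4]
      rfl
    obtain ⟨x, x1, x2⟩ := Multiset.mem_map.1 (show P ∈ im y S by rw [k4]; simp)
    obtain ⟨x', x3, x4⟩ := Multiset.mem_map.1 (show b ∈ im y S by rw [k4]; simp)
    have x5 : x ∈ Bx y P := x2 ▸ (hX.ix_PP y j₀ J x hy (k5 x1)).2.2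
    have x6 : x' ∈ Bx y b := x4 ▸ (hX.ix_PP y j₀ J x' hy (k5 x3)).2.2
    refine ⟨(x, x'), mem_product.2 ⟨x5, x6⟩, ?_⟩
    refine eq_of_subset_of_card_le (insert_subset x1 (singleton_subset_iff.2 x3)) ?_
    rw [hc, card_pair (hne _ x5 _ x6)]
  · obtain ⟨k1, k2⟩ := mem_product.1 hw
    rw [prod_pair (hne _ k1 _ k2)]

/-- the exponent of the moment -/
lemma om {g N : ℕ} (h : 0 < om1 g N) :
    2 ≤ 1 / om1 g N ∧ 1 / om1 g N ≤ 8 ∧ (g : ℝ) ≤ N * ((1 / om1 g N + 10) / 12) := by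
  unfold om1 at h ⊢
  split_ifs at h ⊢ with h1 h2
  · norm_num
    exact h1
  · have k1 : (N : ℝ) < g := by exact_mod_cast not_le.1 h1
    have k2 : 2 * (g : ℝ) ≤ 3 * N := by exact_mod_cast h2
    have k3 : (0 : ℝ) < N := by linarith
    rw [one_div_div, le_div_iff₀ k3, div_le_iff₀ k3]
    refine ⟨by linarith, by linarith, le_of_eq ?_⟩
    field_simp
    ring
  · exact absurd h (lt_irrefl _)

/-- the moment of a box -/
lemma mom_box (hB : Bas) (hX : Box) (hD : Dv) (h : MomSt) {g g₀ j b : ℕ} (hj : 1 ≤ j)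
    (h0 : 0 < om1 g (j * b)) (hg : g₀ ≤ g) : ∀ᶠ y : ℝ in atTop, ∀ Z : ℕ, 1 ≤ Z →
      (Z : ℝ) ≤ y ^ g₀ → ∑ t ∈ fr Z, ‖hat (Bx y b) id t‖ ^ (1 / (om1 g (j * b) / j)) ≤ y := by
  obtain ⟨o1, o2, o3⟩ := om h0
  filter_upwards [h (j * b + j) (j ^ j) 1 one_pos, eventually_gt_atTop 1] with y h hy Z hZ1 hZ
  have hj0 : (0 : ℝ) < j := by exact_mod_cast hj
  have k := h _ (Fintype.piFinset fun _ : Fin j => Bx y b) (fun f => ∏ i, id (f i)) Z
    (y ^ (j * b)) (1 / om1 g (j * b)) (fun x => ?_) (one_le_pow₀ hy.le) (fun f hf => ?_) hZ1 o1 o2 ?_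
  · rw [Real.rpow_one] at k
    refine le_trans (le_of_eq (sum_congr rfl fun t _ => ?_)) k
    rw [hB.hat_pi, prod_const, card_univ, Fintype.card_fin, norm_pow, ← Real.rpow_natCast,
      ← Real.rpow_mul (norm_nonneg _)]
    congr 1
    field_simp
  · have k1 := hD.mult_tup (Fin j) y b (b + 1) hy x
    rw [Fintype.card_fin] at k1
    refine le_trans (card_le_card (filter_subset_filter _ ?_)) k1
    refine Fintype.piFinset_subset _ _ fun _ => ?_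
    exact subset_biUnion_of_mem (Bx y) (mem_Ico.2 ⟨le_rfl, Nat.lt_succ_self b⟩)
  · obtain ⟨k1, k2, -⟩ := hX.nm_tup (Fin j) y b (fun _ => b) f hy
      fun i => ⟨le_rfl, Fintype.mem_piFinset.1 hf i⟩
    rw [sum_const, card_univ, Fintype.card_fin, smul_eq_mul] at k1 k2
    exact ⟨k1, k2⟩
  · rw [← Real.rpow_natCast y (j * b), ← Real.rpow_mul (by linarith)]
    refine hZ.trans ?_
    rw [← Real.rpow_natCast]
    refine Real.rpow_le_rpow_of_exponent_le hy.le (le_trans ?_ o3)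
    exact_mod_cast hg

/-- the second estimate at one point -/
def H3 (c : ℝ) (u A B : ℕ) (z : ℝ) : Prop :=
  ∀ (ι κ : Type) (S : Finset ι) (v : ι → GI) (S' : Finset κ) (v' : κ → GI) (a : ℝ) (Z : ℕ)
    (P₁ P₂ : ℝ), Two2 S v S' v' a B Z (z ^ u) (z ^ A) P₁ → 1 ≤ Z → 1 ≤ P₁ → P₁ ≤ P₂ → P₂ ≤ z ^ A →
    |AA z Z (S ×ˢ S') (fun w => v w.1 * v' w.2) P₁ P₂ - D0 S v * D0 S' v' * m0 P₁ P₂ * VV z| ≤
      c * (D0 S v * D0 S' v' * m0 P₁ P₂ * VV z) + 1 / z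

/-- two arbitrary factors -/
lemma two (hB : Bas) (hX : Box) (hD : Dv) (hm : MomSt) {c : ℝ} {u g J₁ J₂ R j₀ g₀ P b : ℕ}
    (hj : 1 ≤ j₀) (hu1 : 1 ≤ u) (hJ : J₁ ≤ J₂) (hg : g₀ + 80 * u * j₀ + (J₂ - J₁) + 2 ≤ g)
    (hb : j₀ ≤ b) (hbP : b < P) (hP : g ≤ P) (hv : vis2 g (J₁ - (P + b)) b)
    (h : ∀ B, ∀ᶠ z : ℝ in atTop, H3 c u (J₂ + R + 1) B z) :
    AsyI c J₁ J₂ R j₀ g₀ {P, b} := by
  intro ε hε
  obtain ⟨j, j1, o0, o1⟩ := hv
  obtain ⟨j1, -⟩ := mem_Icc.1 j1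
  obtain ⟨B, hB'⟩ := hX.D0_box
  have ht : Tendsto (fun y : ℝ => y ^ j₀) atTop atTop := tendsto_pow_atTop (by omega)
  have hu : 80 * u * j₀ = 80 * (u * j₀) := by ring
  have hj' : (2 : ℝ) ≤ j := by exact_mod_cast j1
  have g0 : (0 : ℝ) < g := by exact_mod_cast (by omega : 0 < g)
  set a : ℝ := om1 g (j * b) / j with ha
  have a0 : 0 < a := by positivity
  have a1 : a ≤ 1 / 4 := by
    have k1 := (om o0).1
    rw [le_div_iff₀ o0] at k1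
    rw [ha, div_le_iff₀ (by linarith)]
    linarith
  have a2 : (g : ℝ) * (1 - 2 * a / 3) ≤ (J₁ - (P + b) : ℕ) := by
    have k1 : 3 / 2 - a ≤ 3 * ((J₁ - (P + b) : ℕ) : ℝ) / (2 * g) := by linarith
    rw [le_div_iff₀ (by positivity)] at k1
    linarith
  obtain ⟨n, hn⟩ : ∃ n, n + (P + b) + 1 = J₁ := by
    refine ⟨J₁ - (P + b) - 1, ?_⟩
    have k1 : (0 : ℝ) < (J₁ - (P + b) : ℕ) := lt_of_lt_of_le (mul_pos g0 (by linarith)) a2
    have k2 : 0 < J₁ - (P + b) := by exact_mod_cast k1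
    omega
  have a3 : (j₀ : ℝ) * u * 60 + g₀ * (1 - 2 * a / 3) ≤ n := by
    have k1 : J₁ - (P + b) = n + 1 := by omega
    rw [k1] at a2
    push_cast at a2
    have k2 : ((g₀ + 80 * (u * j₀) + 2 : ℕ) : ℝ) ≤ g := by exact_mod_cast (by omega)
    push_cast at k2
    have k3 : (0 : ℝ) ≤ u * j₀ := by positivity
    have k4 : (80 * ((u : ℝ) * j₀) + 2) * (5 / 6) ≤ ((g : ℝ) - g₀) * (1 - 2 * a / 3) :=
      mul_le_mul (by linarith) (by linarith) (by norm_num) (by linarith)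
    linarith
  have hs : ({P, b} : Multiset ℕ).sum = P + b := by simp
  filter_upwards [ht.eventually (h (max B 1)), eventually_ge_atTop 3, small hj hε,
    mom_box hB hX hD hm (by omega : 1 ≤ j) o0 (by omega : g₀ ≤ g)] with y h hy hs' hmo W hW1 hW
  have hy0 : 0 < y := by linarith
  have hy1 : 1 ≤ y := by linarith
  have hy1' : 1 < y := by linarith
  have hP1 := pA_eq y hn
  have hP2 : pA J₁ y (P + b) ^ 2 = y ^ n := by rw [hP1, sq_half hy0.le]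
  have e1 : AA (y ^ j₀) W (FM y j₀ (J₂ + 1) {P, b}) (fun S => ∏ π ∈ S, π) (pA J₁ y (P + b))
      (pB J₂ y R (P + b)) = AA (y ^ j₀) W (Bx y P ×ˢ Bx y b) (fun w => id w.1 * id w.2)
        (pA J₁ y (P + b)) (pB J₂ y R (P + b)) :=
    sum_FM hX hy1' hb hbP (by omega) fun x =>
      ∑ m ∈ Sq (pA J₁ y (P + b)) (pB J₂ y R (P + b)) with Rough (y ^ j₀) (nm m), ww W (x * m)
  have e2 : D0 (FM y j₀ (J₂ + 1) {P, b}) (fun S => ∏ π ∈ S, π) =
      D0 (Bx y P) id * D0 (Bx y b) id := by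
    rw [← hB.D0_mul]
    exact sum_FM hX hy1' hb hbP (by omega) fun x => 1 / (nm x : ℝ)
  rw [mT, hs, e1, e2]
  refine le_trans (h _ _ _ _ _ _ a W _ _ ⟨fun x => ?_, fun x hx => ?_, ?_, fun x hx => ?_, a0, a1,
    ?_, ?_⟩ hW1 ?_ (pAB R _ hy1 hJ) ?_) (add_le_add le_rfl hs')
  · refine le_trans (card_le_one.2 fun s hs t ht => ?_) (le_max_right B 1)
    exact (mem_filter.1 hs).2.trans (mem_filter.1 ht).2.symm
  · obtain ⟨k1, k2⟩ := nm_Bx hX hx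
    refine ⟨?_, k2.trans (np_le hy1 hj (by omega))⟩
    exact_mod_cast hW.trans ((pow_le_pow_right₀ hy1 (by omega : g₀ ≤ P)).trans k1)
  · exact (hB' y b (by linarith) (by omega)).trans (by exact_mod_cast le_max_left B 1)
  · refine (hB.nm_pos _).2 ?_
    exact_mod_cast (one_le_pow₀ hy1).trans (nm_Bx hX hx).1
  · refine (hmo W hW1 hW).trans ?_
    rw [← pow_mul]
    exact le_self_pow₀ hy1 (Nat.mul_ne_zero (by omega) (by omega))
  · have h1 : (W : ℝ) ^ (1 - 2 * a / 3) ≤ y ^ ((g₀ : ℝ) * (1 - 2 * a / 3)) := by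
      rw [Real.rpow_mul hy0.le, Real.rpow_natCast]
      exact Real.rpow_le_rpow (Nat.cast_nonneg W) hW (by linarith)
    rw [hP2, ← pow_mul, ← pow_mul, ← Real.rpow_natCast, ← Real.rpow_natCast y n]
    calc _ ≤ y ^ ((j₀ * (u * 60) : ℕ) : ℝ) * y ^ ((g₀ : ℝ) * (1 - 2 * a / 3)) :=
          mul_le_mul_of_nonneg_left h1 (by positivity)
      _ = y ^ (((j₀ * (u * 60) : ℕ) : ℝ) + (g₀ : ℝ) * (1 - 2 * a / 3)) :=
          (Real.rpow_add hy0 _ _).symm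
      _ ≤ _ := Real.rpow_le_rpow_of_exponent_le hy1 (by push_cast; linarith)
  · rw [hP1]; exact Real.one_le_rpow hy1 (by positivity)
  · refine rp_le hy1 hj ?_
    have h5 : (0 : ℝ) ≤ (P + b : ℕ) := Nat.cast_nonneg _
    have h6 : (0 : ℝ) ≤ J₂ := Nat.cast_nonneg _
    have h7 : (0 : ℝ) ≤ R := Nat.cast_nonneg _
    rw [Nat.cast_add _ 1, Nat.cast_add _ R, Nat.cast_one]
    linarith

end T2

open T2 in
theorem visS (hB : Bas) (hX : Box) (hD : Dv) (h1 : T1St) (h2 : T2St) (h3 : MomSt) : VisSt := by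
  obtain ⟨C₁, hC₁, h1⟩ := h1
  obtain ⟨C₂, hC₂, h2⟩ := h2
  refine ⟨C₁ + C₂, by positivity, fun k hk g J₁ J₂ R j₀ g₀ M hj hJ hg hg' hM hc => ?_⟩
  rcases hc with hc | ⟨P, b, rfl, k1, k2, k3⟩
  · refine asy_mono hj (div_le_div_of_nonneg_right (by linarith) (by positivity))
      (one hX hD hj hJ hg hg' hc (h1 k (by linarith) _ 1).1)
  · refine asy_mono hj (div_le_div_of_nonneg_right (by linarith) (by positivity))
      (two hB hX hD h3 hj (by omega) hJ hg' (hM b (by simp)) k1 k2 k3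
        fun B => h2 k (by linarith) _ B)

end Pool.Agent.Lib.MP_4b1228_nt.GS.R
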