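import Pool.Agent.Lib.MP_4b1228_nt.GR.T3

/-!
Cells with large values.
-/

namespace Pool.Agent.Lib.MP_4b1228_nt.GS.R

open Finset Filter Topology Pool.Agent.Lib.MP_9d27bc_nt.C Pool.Agent.Lib.MP_9d27bc_nt.C.Two
open scoped Classical

noncomputable section

namespace T3P

/-- the polynomial of one box -/
def cc (y : ℝ) (t : ℤ) (n : ℕ) : ℝ := ‖hat (Bx y n) id t‖

/-- the product over a multiset of boxes -/
def pd (y : ℝ) (A : Multiset ℕ) (t : ℤ) : ℝ := (A.map (cc y t)).prod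

lemma cc_nonneg (y : ℝ) (t : ℤ) (n : ℕ) : 0 ≤ cc y t n := norm_nonneg _

lemma pr_nonneg (y : ℝ) (A : Multiset ℕ) (t : ℤ) : 0 ≤ pd y A t :=
  Multiset.prod_map_nonneg fun _ _ => cc_nonneg _ _ _

lemma pr_add (y : ℝ) (A B : Multiset ℕ) (t : ℤ) : pd y (A + B) t = pd y A t * pd y B t := by
  simp [pd]

lemma pr_nsmul (y : ℝ) (j : ℕ) (A : Multiset ℕ) (t : ℤ) : pd y (j • A) t = pd y A t ^ j := by
  rw [pd, pd, Multiset.map_nsmul, Multiset.prod_nsmul]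

lemma pr_sum (y : ℝ) {k : ℕ} (A : Fin k → Multiset ℕ) (t : ℤ) :
    pd y (∑ i, A i) t = ∏ i, pd y (A i) t := by
  induction (univ : Finset (Fin k)) using Finset.induction_on with
  | empty => simp [pd]
  | insert a s ha ih => rw [sum_insert ha, prod_insert ha, pr_add, ih]

lemma pr_le (y : ℝ) (A : Multiset ℕ) (t : ℤ) (W : ℝ) (h : ∀ n ∈ A, cc y t n ≤ W) :
    pd y A t ≤ W ^ A.card := by
  have := Multiset.prod_map_le_prod_map₀ (s := A) (cc y t) (fun _ => W)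
    (fun n _ => cc_nonneg y t n) h
  simpa [pd] using this

lemma pr_le' (y : ℝ) (A : Multiset ℕ) (t : ℤ) (W η : ℝ) (n : ℕ) (hn : n ∈ A) (h0 : cc y t n ≤ η)
    (h : ∀ n ∈ A, cc y t n ≤ W) : pd y A t ≤ η * W ^ (A.erase n).card := by
  have h1 := pr_le y (A.erase n) t W fun m hm => h m (Multiset.mem_of_mem_erase hm)
  have h2 := pr_nonneg y (A.erase n) t
  have h3 := cc_nonneg y t n
  have e : pd y A t = cc y t n * pd y (A.erase n) t := by
    conv_lhs => rw [← Multiset.cons_erase hn]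
    simp [pd]
  rw [e]
  exact mul_le_mul h0 h1 h2 (h3.trans h0)

/-- the family of the tuples of primes -/
lemma fam (hB : Bas) (hX : Box) (hD : Dv) (y : ℝ) (hy : 1 < y) (j₀ : ℕ) (A : Multiset ℕ)
    (hA : ∀ n ∈ A, j₀ ≤ n) : ∃ (ι : Type) (S : Finset ι) (v : ι → GI),
      Mult S v (A.card ^ A.card) ∧ (∀ i ∈ S, y ^ A.sum ≤ nm (v i) ∧
        (nm (v i) : ℝ) ≤ y ^ (A.sum + A.card) ∧ Rough (y ^ j₀) (nm (v i))) ∧
      ∀ t, ‖hat S v t‖ = pd y A t := by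
  have hs : ∑ k : A, (k : ℕ) = A.sum := (Multiset.sum_eq_sum_coe A).symm
  have hk : ∀ k : A, (k : ℕ) ∈ A := fun k => Multiset.coe_mem
  refine ⟨_, Fintype.piFinset fun k : A => Bx y k, fun f => ∏ k, f k, fun a => ?_, fun f hf => ?_,
    fun t => ?_⟩
  · have hsub : (Fintype.piFinset fun k : A => Bx y k) ⊆
        Fintype.piFinset fun _ : A => PP y j₀ (A.sum + 1) := by
      refine Fintype.piFinset_subset _ _ fun k p hp => ?_
      refine mem_biUnion.2 ⟨k, mem_Ico.2 ⟨hA _ (hk k), ?_⟩, hp⟩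
      exact Nat.lt_succ_of_le (Multiset.single_le_sum (fun _ _ => Nat.zero_le _) _ (hk k))
    have h2 := hD.mult_tup A y j₀ (A.sum + 1) hy a
    rw [Multiset.card_coe] at h2
    exact (card_le_card (filter_subset_filter _ hsub)).trans h2
  · have h4 := hX.nm_tup A y j₀ (fun k => (k : ℕ)) f hy
      fun k => ⟨hA _ (hk k), Fintype.mem_piFinset.1 hf k⟩
    rwa [hs, Multiset.card_coe] at h4
  · have h5 := hB.hat_pi A GI (fun k : A => Bx y k) id t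
    simp only [id] at h5
    rw [h5, norm_prod, pd, ← Multiset.map_univ]
    rfl

/-- moments of a product -/
lemma mom (hB : Bas) (hX : Box) (hD : Dv) (h1 : MomSt) (A : Multiset ℕ) (g₀ : ℕ) (p ε : ℝ)
    (hε : 0 < ε) (h2 : 2 ≤ p) (h8 : p ≤ 8) (hg : (g₀ : ℝ) ≤ A.sum * ((p + 10) / 12)) :
    ∀ᶠ y : ℝ in atTop, ∀ Z : ℕ, 1 ≤ Z → (Z : ℝ) ≤ y ^ g₀ → ∑ t ∈ fr Z, pd y A t ^ p ≤ y ^ ε := by
  filter_upwards [h1 (A.sum + A.card) (A.card ^ A.card) ε hε, eventually_gt_atTop (1 : ℝ)]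
    with y a hy Z hZ hZy
  obtain ⟨ι, S, v, m, b, e⟩ := fam hB hX hD y hy 0 A fun _ _ => Nat.zero_le _
  have := a ι S v Z (y ^ A.sum) p m (one_le_pow₀ hy.le) (fun i hi => ⟨(b i hi).1, (b i hi).2.1⟩)
    hZ h2 h8 (hZy.trans (by
      rw [← Real.rpow_natCast, ← Real.rpow_natCast, ← Real.rpow_mul (by linarith)]
      exact Real.rpow_le_rpow_of_exponent_le hy.le hg))
  simpa only [e] using this

/-- the number of large values of one box -/
lemma cnt (hB : Bas) (hX : Box) (hD : Dv) (h1 : MomSt) (n g g₀ : ℕ) (hn : 1 ≤ n) (hg : g₀ ≤ g)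
    (g1 : 1 ≤ g) : ∀ᶠ y : ℝ in atTop, ∀ Z : ℕ, 1 ≤ Z → (Z : ℝ) ≤ y ^ g₀ →
      (#{t ∈ fr Z | y ^ (-(1 / (8 * g)) : ℝ) < cc y t n} : ℝ) ≤ y ^ (1 / 2 : ℝ) := by
  have g2 : (0 : ℝ) < g := by exact_mod_cast g1
  filter_upwards [mom hB hX hD h1 (g • {n}) g₀ 2 (1 / 4) (by norm_num) le_rfl (by norm_num) (by
    have : g₀ ≤ g * n := hg.trans (Nat.le_mul_of_pos_right _ hn)
    rw [Multiset.sum_nsmul, Multiset.sum_singleton, smul_eq_mul]
    norm_num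
    exact_mod_cast this), eventually_gt_atTop (1 : ℝ)] with y a hy Z hZ hZy
  have y0 : 0 < y := by linarith
  have h3 : (#{t ∈ fr Z | y ^ (-(1 / (8 * g)) : ℝ) < cc y t n} : ℝ) * y ^ (-(1 / 4) : ℝ) ≤
      y ^ (1 / 4 : ℝ) := by
    refine le_trans ?_ ((sum_le_sum_of_subset_of_nonneg
      (filter_subset (fun t => y ^ (-(1 / (8 * g)) : ℝ) < cc y t n) _)
      fun t _ _ => Real.rpow_nonneg (pr_nonneg _ _ _) _).trans (a Z hZ hZy))
    rw [← nsmul_eq_mul]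
    refine card_nsmul_le_sum _ _ _ fun t ht => ?_
    have e : pd y (g • {n}) t = cc y t n ^ (g : ℝ) := by
      rw [pr_nsmul, Real.rpow_natCast]
      simp [pd]
    rw [e, ← Real.rpow_mul (cc_nonneg _ _ _)]
    refine le_trans (le_of_eq ?_) (Real.rpow_le_rpow (by positivity) (mem_filter.1 ht).2.le
      (by positivity))
    rw [← Real.rpow_mul y0.le]
    congr 1
    field_simp
    norm_num
  have e : y ^ (1 / 2 : ℝ) * y ^ (-(1 / 4) : ℝ) = y ^ (1 / 4 : ℝ) := by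
    rw [← Real.rpow_add y0]
    norm_num
  rw [← e] at h3
  exact le_of_mul_le_mul_right h3 (by positivity)

/-- the content of the mean value statement -/
def HL (c : ℕ) (C : ℝ) : Prop :=
  ∀ A B : ℕ, ∀ᶠ z : ℝ in atTop, ∀ (ι : Type) (S : Finset ι)
    (v : ι → GI) (Z : ℕ) (Y Y' : ℝ) (U : Finset ℤ), Mult S v B → 1 ≤ Z → U ⊆ fr Z → 1 ≤ Y →
    (Z : ℝ) ^ 3 ≤ Y ^ 4 → z ^ c * (#U + 1) ≤ Y ^ (1 / 18 : ℝ) → Y ≤ Y' → Y' ≤ z ^ A →
    (∀ i ∈ S, Y ≤ nm (v i) ∧ (nm (v i) : ℝ) ≤ Y' ∧ Rough z (nm (v i))) →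
    ∑ t ∈ U, ‖hat S v t‖ ^ 2 ≤ C * (B * (1 + Real.log (Y' / Y)) / Real.log z) ^ 2

/-- the mean value over a thin set -/
lemma thin (hB : Bas) (hX : Box) (hD : Dv) (c : ℕ) (C : ℝ) (hC0 : 0 < C) (h : HL c C)
    (A : Multiset ℕ) (j₀ g₀ : ℕ) (hj : 1 ≤ j₀) (hA : ∀ n ∈ A, j₀ ≤ n) (h3 : 3 * g₀ ≤ 4 * A.sum)
    (h18 : 18 * (c * j₀ + 1) ≤ A.sum) : ∃ K : ℝ, 0 ≤ K ∧ ∀ᶠ y : ℝ in atTop, ∀ (Z : ℕ)
      (U : Finset ℤ), 1 ≤ Z → (Z : ℝ) ≤ y ^ g₀ → U ⊆ fr Z → (#U : ℝ) + 1 ≤ y →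
      ∑ t ∈ U, pd y A t ^ 2 ≤ K := by
  refine ⟨C * (((A.card ^ A.card : ℕ) : ℝ) * (((A.card : ℝ) + 1) / j₀)) ^ 2, by positivity, ?_⟩
  have ht : Tendsto (fun y : ℝ => y ^ j₀) atTop atTop := tendsto_pow_atTop (by omega)
  filter_upwards [ht.eventually (h (A.sum + A.card) (A.card ^ A.card)),
    eventually_ge_atTop (Real.exp 1)] with y h1 hy Z U hZ hZy hU hc
  have hy2 := T3.exp_two y hy
  have hy1 : 1 < y := by linarith
  obtain ⟨ι, S, v, m, b, e⟩ := fam hB hX hD y hy1 j₀ A hA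
  have h4 := h1 ι S v Z (y ^ A.sum) (y ^ (A.sum + A.card)) U m hZ hU (one_le_pow₀ hy1.le)
    (by
      calc (Z : ℝ) ^ 3 ≤ (y ^ g₀) ^ 3 := by gcongr
        _ ≤ _ := by
          rw [← pow_mul, ← pow_mul]
          exact pow_le_pow_right₀ hy1.le (by omega))
    (by
      calc (y ^ j₀) ^ c * ((#U : ℝ) + 1) ≤ (y ^ j₀) ^ c * y := by gcongr
        _ = y ^ ((c * j₀ + 1 : ℕ) : ℝ) := by rw [Real.rpow_natCast, ← pow_mul, pow_succ, mul_comm c]
        _ ≤ _ := by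
          rw [← Real.rpow_natCast y A.sum, ← Real.rpow_mul (by linarith)]
          refine Real.rpow_le_rpow_of_exponent_le hy1.le ?_
          have : ((18 * (c * j₀ + 1) : ℕ) : ℝ) ≤ A.sum := by exact_mod_cast h18
          push_cast at this ⊢
          linarith)
    (pow_le_pow_right₀ hy1.le (by omega))
    (by
      rw [← pow_mul]
      exact pow_le_pow_right₀ hy1.le (Nat.le_mul_of_pos_left _ hj)) b
  obtain ⟨r1, r2⟩ := T3.ratio y hy j₀ A.card A.sum hj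
  simp only [e] at h4
  refine h4.trans ?_
  rw [mul_div_assoc]
  gcongr

/-- the inequality of Hoelder with a spare exponent -/
lemma hold {k : ℕ} (G a : Fin k → ℝ) (η σ : ℝ) (hG : ∀ i, 0 ≤ G i ∧ G i ≤ 1) (ha : ∀ i, 0 ≤ a i)
    (hσ : σ = ∑ i, a i) (hs : 1 < σ) (hP : ∏ i, G i ≤ η) :
    ∏ i, G i ≤ η ^ (1 - 1 / σ) * ∑ i, a i / σ * G i ^ (1 / a i) := by
  have s0 : 0 < σ := by linarith
  have s1 : 0 ≤ 1 - 1 / σ := by
    rw [sub_nonneg, div_le_one s0]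
    exact hs.le
  have P0 : 0 ≤ ∏ i, G i := prod_nonneg fun i _ => (hG i).1
  have h1 : (∏ i, G i) ^ (1 / σ) ≤ ∑ i, a i / σ * G i ^ (1 / a i) := by
    refine le_trans ?_ (Real.geom_mean_le_arith_mean_weighted univ (fun i => a i / σ)
      (fun i => G i ^ (1 / a i)) (fun i _ => div_nonneg (ha i) s0.le)
      (by rw [← sum_div, ← hσ, div_self s0.ne']) fun i _ => Real.rpow_nonneg (hG i).1 _)
    rw [← Real.finsetProd_rpow _ _ fun i _ => (hG i).1]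
    refine prod_le_prod (fun i _ => Real.rpow_nonneg (hG i).1 _) fun i _ => ?_
    rcases (ha i).eq_or_lt with h | h
    · rw [← h, zero_div, Real.rpow_zero]
      exact Real.rpow_le_one (hG i).1 (hG i).2 (by positivity)
    · rw [← Real.rpow_mul (hG i).1]
      apply le_of_eq
      congr 1
      field_simp
  calc ∏ i, G i = (∏ i, G i) ^ (1 - 1 / σ) * (∏ i, G i) ^ (1 / σ) := by
        rw [← Real.rpow_add' P0 (by norm_num)]
        norm_num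
    _ ≤ _ := mul_le_mul (Real.rpow_le_rpow P0 hP s1) h1 (Real.rpow_nonneg P0 _)
        (Real.rpow_nonneg (P0.trans hP) _)

lemma om_nonneg (g N : ℕ) : 0 ≤ om1 g N := by
  unfold om1
  split_ifs with h1 h2
  · norm_num
  · have : (N : ℝ) ≤ g := by exact_mod_cast (not_le.1 h1).le
    have : (0 : ℝ) ≤ N := Nat.cast_nonneg N
    exact div_nonneg this (by linarith)
  · exact le_rfl

lemma om_range (g N : ℕ) (h : 0 < om1 g N) : 2 ≤ 1 / om1 g N ∧ 1 / om1 g N ≤ 8 ∧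
    (g : ℝ) ≤ N * ((1 / om1 g N + 10) / 12) := by
  unfold om1 at h ⊢
  split_ifs at h ⊢ with h1 h2
  · norm_num
    exact h1
  · have a1 : (N : ℝ) < g := by exact_mod_cast not_le.1 h1
    have a2 : 2 * (g : ℝ) ≤ 3 * N := by exact_mod_cast h2
    have a0 : (0 : ℝ) ≤ N := Nat.cast_nonneg N
    have a3 : (0 : ℝ) < N := by linarith
    rw [one_div_div, le_div_iff₀ a3, div_le_iff₀ a3]
    refine ⟨by linarith, by linarith, le_of_eq ?_⟩
    field_simp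
    ring
  · exact absurd h (lt_irrefl _)

/-- the moment of one group -/
lemma grp (hB : Bas) (hX : Box) (hD : Dv) (h1 : MomSt) (A : Multiset ℕ) (j g g₀ : ℕ) (σ ε : ℝ)
    (hj : 1 ≤ j) (hg : g₀ ≤ g) (hσ : 0 < σ) (hε : 0 < ε) :
    ∀ᶠ y : ℝ in atTop, ∀ Z : ℕ, 1 ≤ Z → (Z : ℝ) ≤ y ^ g₀ →
      ∑ t ∈ fr Z, om1 g (j * A.sum) / j / σ * pd y A t ^ (1 / (om1 g (j * A.sum) / j)) ≤
        om1 g (j * A.sum) / j / σ * y ^ ε := by
  rcases (om_nonneg g (j * A.sum)).eq_or_lt with h | h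
  · exact Eventually.of_forall fun y Z _ _ => by simp [← h]
  obtain ⟨r1, r2, r3⟩ := om_range g _ h
  have g1 : (g₀ : ℝ) ≤ g := by exact_mod_cast hg
  filter_upwards [mom hB hX hD h1 (j • A) g₀ _ ε hε r1 r2 (by
    rw [Multiset.sum_nsmul, smul_eq_mul]
    exact g1.trans r3)] with y a Z hZ hZy
  rw [← mul_sum]
  refine mul_le_mul_of_nonneg_left (le_trans (le_of_eq ?_) (a Z hZ hZy)) (by positivity)
  refine sum_congr rfl fun t _ => ?_
  rw [pr_nsmul, ← Real.rpow_natCast, ← Real.rpow_mul (pr_nonneg _ _ _), one_div_div, mul_one_div]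

/-- the frequencies without large values -/
lemma off (hB : Bas) (hX : Box) (hD : Dv) (h1 : MomSt) (g g₀ : ℕ) (hg : g₀ ≤ g) {k : ℕ}
    (A : Fin k → Multiset ℕ) (j : Fin k → ℕ) (hj : ∀ i, 1 ≤ j i)
    (hs : 1 < ∑ i, om1 g (j i * (A i).sum) / j i) (hne : ∑ i, A i ≠ 0) (δ ε : ℝ) (hδ : 0 < δ)
    (hε : 0 < ε) : ∀ᶠ y : ℝ in atTop, ∀ (Z : ℕ) (V : Finset ℤ), 1 ≤ Z → (Z : ℝ) ≤ y ^ g₀ →
      V ⊆ fr Z → (∀ t ∈ V, ∀ n ∈ ∑ i, A i, cc y t n ≤ y ^ (-δ)) →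
      ∑ t ∈ V, pd y (∑ i, A i) t ≤ ε := by
  obtain ⟨σ, hσ⟩ : ∃ σ : ℝ, σ = ∑ i, om1 g (j i * (A i).sum) / j i := ⟨_, rfl⟩
  rw [← hσ] at hs
  have s0 : 0 < σ := by linarith
  have s1 : 0 < 1 - 1 / σ := by
    rw [sub_pos, div_lt_one s0]
    exact hs
  have e0 : 0 < δ * (1 - 1 / σ) / 2 := by positivity
  filter_upwards [eventually_all.2 fun i => grp hB hX hD h1 (A i) (j i) g g₀ σ _ (hj i) hg s0 e0,
    (tendsto_rpow_neg_atTop e0).eventually (ge_mem_nhds hε), eventually_ge_atTop (1 : ℝ)]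
    with y a b hy Z V hZ hZy hV hc
  have y0 : 0 < y := by linarith
  have y1 : y ^ (-δ) ≤ 1 := Real.rpow_le_one_of_one_le_of_nonpos hy (by linarith)
  have an : ∀ i, 0 ≤ om1 g (j i * (A i).sum) / j i := fun i =>
    div_nonneg (om_nonneg _ _) (Nat.cast_nonneg _)
  have h2 : ∀ t ∈ V, pd y (∑ i, A i) t ≤ (y ^ (-δ)) ^ (1 - 1 / σ) *
      ∑ i, om1 g (j i * (A i).sum) / j i / σ * pd y (A i) t ^ (1 / (om1 g (j i * (A i).sum) / j i)) := by
    intro t ht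
    obtain ⟨n, hn⟩ := Multiset.exists_mem_of_ne_zero hne
    have h3 := pr_le' y _ t 1 _ n hn (hc t ht n hn) fun m hm => (hc t ht m hm).trans y1
    rw [one_pow, mul_one, pr_sum] at h3
    rw [pr_sum]
    refine hold _ _ _ σ (fun i => ⟨pr_nonneg _ _ _, ?_⟩) an hσ hs h3
    have := pr_le y (A i) t 1 fun m hm =>
      (hc t ht m (Multiset.mem_sum.2 ⟨i, mem_univ i, hm⟩)).trans y1
    rwa [one_pow] at this
  refine (sum_le_sum h2).trans ?_
  rw [← mul_sum, sum_comm]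
  refine le_trans (mul_le_mul_of_nonneg_left (sum_le_sum fun i _ =>
    (sum_le_sum_of_subset_of_nonneg hV fun t _ _ => mul_nonneg (div_nonneg (an i) s0.le)
      (Real.rpow_nonneg (pr_nonneg _ _ _) _)).trans (a i Z hZ hZy)) (by positivity)) ?_
  rw [← sum_mul, ← sum_div, ← hσ, div_self s0.ne', one_mul, ← Real.rpow_mul y0.le,
    ← Real.rpow_add y0]
  refine le_trans (le_of_eq ?_) b
  congr 1
  ring

end T3P

open T3P in
theorem t3p (hB : Bas) (hX : Box) (hD : Dv) (h1 : MomSt) (h2 : HLSt) (h3 : PBSt) : T3PSt := by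
  obtain ⟨c, C, hC0, h⟩ := h2
  refine ⟨24 * (c + 1), fun g j₀ g₀ hj hg r jv ε hjv hgood hε => ?_⟩
  obtain ⟨⟨k, Q, j, hM, hj1, hs⟩, A, B, I, hM', hI, hA0, hB0⟩ := hgood
  have hm : ∀ n ∈ vm jv, j₀ ≤ n := fun n hn => by
    obtain ⟨i, -, rfl⟩ := Multiset.mem_map.1 hn
    exact hjv i
  have hg' : g₀ + 24 * (c * j₀) + 24 * j₀ ≤ g := by
    have : 24 * (c + 1) * j₀ = 24 * (c * j₀) + 24 * j₀ := by ring
    omega
  have g1 : (0 : ℝ) < g := by exact_mod_cast (by omega : 0 < g)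
  obtain ⟨K₁, hK₁, m1⟩ := thin hB hX hD c C hC0 h A j₀ g₀ hj
    (fun n hn => hm n (by rw [hM']; simp [hn])) (by omega) (by omega)
  obtain ⟨K₂, hK₂, m2⟩ := thin hB hX hD c C hC0 h B j₀ g₀ hj
    (fun n hn => hm n (by rw [hM']; simp [hn])) (by omega) (by omega)
  obtain ⟨n₀, hn₀⟩ := Multiset.exists_mem_of_ne_zero hI
  have hI' : ∀ n ∈ I, 1 ≤ n := fun n hn => hj.trans (hm n (by rw [hM']; simp [hn]))
  obtain ⟨C₀, hC₀⟩ := hX.D0_box
  obtain ⟨W, hW⟩ : ∃ W : ℝ, W = (C₀ : ℝ) ^ (I.erase n₀).card := ⟨_, rfl⟩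
  have hW0 : 0 ≤ W := by rw [hW]; positivity
  have hp : 0 < ε / 2 / (W * (K₁ + K₂) + 1) := by positivity
  have hr : Tendsto (fun y : ℝ => y ^ (1 / 2 : ℝ)) atTop atTop := tendsto_rpow_atTop (by norm_num)
  filter_upwards [m1, m2, h3 n₀ g₀ _ (hI' n₀ hn₀) hp, eventually_ge_atTop (2 : ℝ),
    off hB hX hD h1 g g₀ (by omega) Q j hj1 hs (by rw [← hM, hM']; simp [hI]) (1 / (8 * g)) (ε / 2)
      (by positivity) (by positivity),
    eventually_all.2 fun i => cnt hB hX hD h1 (jv i) g g₀ (hj.trans (hjv i)) (by omega) (by omega),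
    hr.eventually_ge_atTop ((r : ℝ) + 1)] with y a1 a2 a3 hy a4 a5 a6 Z hZ hZy
  have hy1 : 1 < y := by linarith
  have hne : ∀ f ∈ (Fintype.piFinset fun i => Bx y (jv i)), (∏ i, f i) ≠ 0 := by
    intro f hf
    have h4 := (hX.nm_tup (Fin r) y j₀ jv f hy1
      fun k => ⟨hjv k, Fintype.mem_piFinset.1 hf k⟩).1
    rw [hB.nm_pos]
    have h5 : (1 : ℝ) ≤ nm (∏ i, f i) := (one_le_pow₀ hy1.le).trans h4
    exact_mod_cast h5
  have h6 := wwE _ (Fintype.piFinset fun i => Bx y (jv i)) (fun f => ∏ i, f i) Z hZ hne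
  have e1 : cell y 1 jv = D0 (Fintype.piFinset fun i => Bx y (jv i)) (fun f => ∏ i, f i) := by
    simp only [cell, D0, wwO]
  rw [e1]
  refine h6.trans ?_
  have e : ∀ t, ‖hat (Fintype.piFinset fun i => Bx y (jv i)) (fun f => ∏ i, f i) t‖ =
      pd y (vm jv) t := by
    intro t
    have h5 := hB.hat_pi (Fin r) GI (fun k => Bx y (jv k)) id t
    simp only [id] at h5
    rw [h5, norm_prod, pd, vm, Multiset.map_map]
    rfl
  simp only [e]
  obtain ⟨P, hP⟩ : ∃ P : ℤ → Prop, P = fun t => ∃ i, y ^ (-(1 / (8 * g)) : ℝ) < cc y t (jv i) :=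
    ⟨_, rfl⟩
  have hU : {t ∈ fz Z | P t} ⊆ fr Z := (filter_subset _ _).trans (T3.fz_sub Z)
  have hc : (#{t ∈ fz Z | P t} : ℝ) + 1 ≤ y := by
    have b1 : {t ∈ fz Z | P t} ⊆ univ.biUnion fun i =>
        {t ∈ fr Z | y ^ (-(1 / (8 * g)) : ℝ) < cc y t (jv i)} := fun t ht => by
      obtain ⟨i, hi⟩ := (hP ▸ (mem_filter.1 ht).2 :)
      exact mem_biUnion.2 ⟨i, mem_univ i, mem_filter.2 ⟨hU ht, hi⟩⟩
    have b2 : (#{t ∈ fz Z | P t} : ℝ) ≤
        ∑ i, (#{t ∈ fr Z | y ^ (-(1 / (8 * g)) : ℝ) < cc y t (jv i)} : ℝ) := by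
      exact_mod_cast (card_le_card b1).trans card_biUnion_le
    have b3 := b2.trans (sum_le_sum fun i _ => a5 i Z hZ hZy)
    have b4 : y ^ (1 / 2 : ℝ) * y ^ (1 / 2 : ℝ) = y := by
      rw [← Real.rpow_add (by linarith)]
      norm_num
    have b5 : (0 : ℝ) ≤ r := Nat.cast_nonneg r
    rw [sum_const, card_univ, Fintype.card_fin, nsmul_eq_mul] at b3
    nlinarith
  rw [← sum_filter_add_sum_filter_not _ P, ← add_halves ε]
  refine add_le_add ?_ ?_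
  · have b : ∀ t ∈ {t ∈ fz Z | P t}, pd y (vm jv) t ≤
        (ε / 2 / (W * (K₁ + K₂) + 1) * W) * (pd y A t ^ 2 + pd y B t ^ 2) := by
      intro t ht
      obtain ⟨t1, t2⟩ := T3.mem_fz Z t (mem_filter.1 ht).1
      have b2 := pr_le' y I t C₀ _ n₀ hn₀ (a3 t t1 (t2.trans hZy)) fun n hn =>
        (hB.hat_le _ _ _ _).trans (hC₀ y _ hy (hI' n hn))
      have b3 := pr_nonneg y A t
      have b4 := pr_nonneg y B t
      have b5 := pr_nonneg y I t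
      have b6 : pd y A t * pd y B t ≤ pd y A t ^ 2 + pd y B t ^ 2 := by
        nlinarith [sq_nonneg (pd y A t - pd y B t), mul_nonneg b3 b4]
      rw [← hW] at b2
      rw [hM', pr_add, pr_add, mul_comm]
      exact mul_le_mul b2 b6 (mul_nonneg b3 b4) (b5.trans b2)
    refine (sum_le_sum b).trans ?_
    rw [← mul_sum, sum_add_distrib]
    have c1 := a1 Z _ hZ hZy hU hc
    have c2 := a2 Z _ hZ hZy hU hc
    calc _ ≤ (ε / 2 / (W * (K₁ + K₂) + 1) * W) * (K₁ + K₂) := by gcongr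
      _ = ε / 2 * (W * (K₁ + K₂) / (W * (K₁ + K₂) + 1)) := by ring
      _ ≤ ε / 2 * 1 := by
        gcongr
        rw [div_le_one (by positivity)]
        linarith
      _ = ε / 2 := mul_one _
  · rw [hM]
    refine a4 Z _ hZ hZy ((filter_subset _ _).trans (T3.fz_sub Z)) fun t ht n hn => ?_
    rw [← hM] at hn
    obtain ⟨i, -, rfl⟩ := Multiset.mem_map.1 hn
    have := (mem_filter.1 ht).2
    rw [hP] at this
    exact not_lt.1 fun a => this ⟨i, a⟩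

end

end Pool.Agent.Lib.MP_4b1228_nt.GS.R
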