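import Pool.Agent.Lib.MP_4b1228_nt.GR.Asy
import Pool.Agent.Lib.MP_4b1228_nt.GR.GdG
import Pool.Agent.Lib.MP_4b1228_nt.GR.IDG
import Pool.Agent.Lib.MP_4b1228_nt.GR.Main2
import Pool.Agent.Lib.MP_4b1228_nt.GR.NN
import Pool.Agent.Lib.MP_4b1228_nt.GR.T2
import Pool.Agent.Lib.MP_4b1228_nt.GR.T3P
import Pool.Agent.Lib.MP_4b1228_nt.GR.TC
import Pool.Agent.Lib.MP_4b1228_nt.GR.TIG
import Pool.Agent.Lib.MP_4b1228_nt.GR.Tup

/-!
All rotated blocks together.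
-/

namespace Pool.Agent.Lib.MP_4b1228_nt.GS.R

theorem rC : TCSt := tc bas flq (den bas)
theorem rT : T1St := t1 bas rC (ea bas bS bL) (eb bas bS bL (pw bas cub))
theorem rU : UBSt := ub bas rT
theorem rN : NNSt := nn bas bS
theorem rT2 : T2St := t2 bas rC (eb2 bas bS bL cW)
theorem rV : VisSt := visS bas bX bD rT rT2 cM
theorem rA : AsySt := asy (t3 bas bX bD bM bP) (t3p bas bX bD cM cH bP)
theorem rG : CoreG :=
  coreG bas (coG (tiG bas bX) (idG bas bX bD) rN rU) (exG bas bX bD bM)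
    (gdG bas bX (tup bas bX bD) rN) (bdG bas bX (tup bas bX bD) rN mert)

theorem rM (h : Cert2St) (θ : ℝ) (hθ : 1 / 12 < θ) : MainSt2 θ := main2 rG rV rA sign2 h θ hθ

end Pool.Agent.Lib.MP_4b1228_nt.GS.R
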