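import Pool.Agent.Lib.MP_4b1228_nt.GR.St

/-!
All good cells agree with the model.
-/

namespace Pool.Agent.Lib.MP_4b1228_nt.GS.R

open Finset Filter Topology
open scoped Classical

noncomputable section

namespace Asy

theorem om1_nonneg (g N : ℕ) : 0 ≤ om1 g N := by
  unfold om1
  split_ifs with h1 h2
  · norm_num
  · have h : (N : ℝ) < g := by exact_mod_cast not_le.mp h1
    have h0 : (0 : ℝ) ≤ N := Nat.cast_nonneg _
    exact div_nonneg h0 (by linarith)
  · exact le_rfl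

theorem om1_le (g N : ℕ) : om1 g N ≤ 1 / 2 := by
  unfold om1
  split_ifs with h1 h2
  · exact le_rfl
  · have h : (N : ℝ) < g := by exact_mod_cast not_le.mp h1
    have h0 : (0 : ℝ) ≤ N := Nat.cast_nonneg _
    rw [div_le_iff₀ (by linarith)]
    linarith
  · norm_num

theorem om1_of_le {g N : ℕ} (h : g ≤ N) : om1 g N = 1 / 2 := by
  unfold om1
  rw [if_pos h]

theorem om1_mono (g : ℕ) {N N' : ℕ} (h : N ≤ N') : om1 g N ≤ om1 g N' := by
  by_cases h1 : g ≤ N'
  · rw [om1_of_le h1]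
    exact om1_le g N
  have h2 : ¬g ≤ N := fun h' => h1 (h'.trans h)
  by_cases h3 : 2 * g ≤ 3 * N
  · have h4 : 2 * g ≤ 3 * N' := by omega
    unfold om1
    rw [if_neg h2, if_pos h3, if_neg h1, if_pos h4]
    have a1 : (N' : ℝ) < g := by exact_mod_cast not_le.mp h1
    have a2 : (N : ℝ) ≤ N' := by exact_mod_cast h
    have a3 : (0 : ℝ) ≤ N := Nat.cast_nonneg _
    exact div_le_div₀ (by linarith) a2 (by linarith) (by linarith)
  · have : om1 g N = 0 := by
      unfold om1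
      rw [if_neg h2, if_neg h3]
    rw [this]
    exact om1_nonneg g N'

theorem om1_scale (g N : ℕ) {h : ℕ} (hh : 0 < h) : om1 (g * h) (N * h) = om1 g N := by
  have e1 : g * h ≤ N * h ↔ g ≤ N := Nat.mul_le_mul_right_iff hh
  have e2 : 2 * (g * h) ≤ 3 * (N * h) ↔ 2 * g ≤ 3 * N := by
    rw [← Nat.mul_assoc, ← Nat.mul_assoc]
    exact Nat.mul_le_mul_right_iff hh
  have h0 : (h : ℝ) ≠ 0 := by exact_mod_cast hh.ne'
  unfold om1
  simp only [e1, e2]
  split_ifs with h1 h2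
  · rfl
  · push_cast
    have : (12 : ℝ) * (g * h) - 10 * (N * h) = (12 * g - 10 * N) * h := by ring
    rw [this, mul_div_mul_right _ _ h0]
  · rfl

/-- the tangent line -/
theorem om1_ge {g N : ℕ} (hg : 0 < g) (h : 125 * N ≤ 126 * g) :
    25 * (N : ℝ) / (12 * g) - 8 / 5 ≤ om1 g N := by
  have g0 : (0 : ℝ) < g := by exact_mod_cast hg
  have a1 : (125 : ℝ) * N ≤ 126 * g := by exact_mod_cast h
  have a0 : (0 : ℝ) ≤ N := Nat.cast_nonneg _
  unfold om1
  split_ifs with h1 h2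
  · rw [sub_le_iff_le_add, div_le_iff₀ (by positivity)]
    linarith
  · have a2 : (N : ℝ) < g := by exact_mod_cast not_le.mp h1
    have a3 : (0 : ℝ) < 12 * g - 10 * N := by linarith
    rw [sub_le_iff_le_add, div_add' _ _ _ a3.ne', div_le_div_iff₀ (by positivity) a3]
    nlinarith [sq_nonneg (25 * (N : ℝ) - 24 * g)]
  · have a2 : (3 : ℝ) * N < 2 * g := by exact_mod_cast not_le.mp h2
    rw [sub_le_iff_le_add, div_le_iff₀ (by positivity)]
    linarith

/-- three short groups carry exponents of sum more than one -/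
theorem goodP_of_good3 {g : ℕ} {M : Multiset ℕ} (hg : 125 ≤ g) (h : Good3 (g + 1) M) :
    GoodP g M := by
  obtain ⟨hJ, A, B, C, hM, hA, hB, hC⟩ := h
  have hs : M.sum = A.sum + B.sum + C.sum := by rw [hM, Multiset.sum_add, Multiset.sum_add]
  refine ⟨⟨3, ![A, B, C], ![1, 1, 2], ?_, ?_, ?_⟩, A, B, C, hM, ?_, by omega, by omega⟩
  · rw [Fin.sum_univ_three]
    exact hM
  · intro i
    fin_cases i <;> simp
  · rw [Fin.sum_univ_three]
    have g0 : 0 < g := by omega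
    have g1 : (0 : ℝ) < g := by exact_mod_cast g0
    have b1 := om1_ge (N := A.sum) g0 (by omega)
    have b2 := om1_ge (N := B.sum) g0 (by omega)
    have b3 := om1_ge (N := 2 * C.sum) g0 (by omega)
    have c1 : (12 : ℝ) * (g + 1) ≤ 5 * ((A.sum : ℕ) + (B.sum : ℕ) + (C.sum : ℕ)) := by
      rw [hs] at hJ
      exact_mod_cast hJ
    have c2 : (5 : ℝ) < 25 * ((A.sum : ℕ) : ℝ) / (12 * g) + 25 * ((B.sum : ℕ) : ℝ) / (12 * g) +
        25 * ((2 * C.sum : ℕ) : ℝ) / (12 * g) / 2 := by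
      have : 25 * ((A.sum : ℕ) : ℝ) / (12 * g) + 25 * ((B.sum : ℕ) : ℝ) / (12 * g) +
          25 * ((2 * C.sum : ℕ) : ℝ) / (12 * g) / 2 =
          25 * (((A.sum : ℕ) : ℝ) + (B.sum : ℕ) + (C.sum : ℕ)) / (12 * g) := by
        rw [Nat.cast_mul, Nat.cast_ofNat]
        field_simp
      rw [this, lt_div_iff₀ (by positivity)]
      linarith
    change 1 < om1 g (1 * A.sum) / ((1 : ℕ) : ℝ) + om1 g (1 * B.sum) / ((1 : ℕ) : ℝ) +
      om1 g (2 * C.sum) / ((2 : ℕ) : ℝ)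
    rw [one_mul, one_mul, Nat.cast_one, div_one, div_one, Nat.cast_ofNat]
    linarith
  · rintro rfl
    rw [Multiset.sum_zero] at hs
    omega

end Asy

/-- All good cells. -/
theorem asy (h1 : T3St) (h2 : T3PSt) : AsySt := by
  obtain ⟨c₁, C, -, h1, -⟩ := h1
  obtain ⟨c₂, h2⟩ := h2
  refine ⟨c₁ + c₂ + 126, fun g j₀ g₀ hj hg r jv ε hjv hG hε => ?_⟩
  have e : (c₁ + c₂ + 126) * j₀ = c₁ * j₀ + c₂ * j₀ + 126 * j₀ := by ring
  rw [e] at hg
  rcases hG with hG | hG | hG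
  · exact h1 r jv j₀ g g₀ ε hj hjv (by omega) hG hε
  · obtain ⟨g', rfl⟩ : ∃ g', g = g' + 1 := ⟨g - 1, by omega⟩
    exact h2 g' j₀ g₀ hj (by omega) r jv ε hjv (Asy.goodP_of_good3 (by omega) hG) hε
  · exact h2 g j₀ g₀ hj (by omega) r jv ε hjv hG hε

end

end Pool.Agent.Lib.MP_4b1228_nt.GS.R
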