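import Pool.Agent.Lib.MP_4b1228_nt.GR.Geo

/-! The primes whose real part is a prime or twice a prime have a small weight. -/

namespace Pool.Agent.Lib.MP_4b1228_nt.GS.R

open Finset Filter Pool.Agent.Lib.MP_9d27bc_nt.C Pool.Agent.Lib.MP_9d27bc_nt.C.Two
open scoped Classical

noncomputable section

/-- The primes whose real part is a prime or twice a prime have a small weight. -/
def FamSt : Prop :=
  ∀ (J₁ J g₀ : ℕ) (ε : ℝ), 2 * g₀ < J₁ → 0 < ε →
    ∀ᶠ y : ℝ in atTop, ∀ (s : ℝ) (j Z : ℕ), 0 ≤ s → s ≤ 1 → Ad s j Z → (Z : ℝ) ≤ y ^ g₀ →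
      ∑ π ∈ PP y J₁ J with Thin π.re, ww Z π ≤ ε

theorem ww_env {s : ℝ} (h0 : 0 ≤ s) (h1 : s ≤ 1) {j Z : ℕ} (h : Ad s j Z) {π : GI} {a n m : ℕ}
    (ha : π.re = a) (hn : |π.im| = n) (hna : n < a) (hm : (m : ℝ) ≤ |(n : ℝ) - s * a|) :
    ww Z π ≤ 8 * Fam.env (2 ^ j) a m := by
  have hπ : π ≠ 0 := by
    rintro rfl
    simp at ha
    omega
  have k1 := ker_le h hπ
  have k0 := hK.nonneg (len Z) (dir π ^ 4 * rot Z)
  have k2 := hm.trans (ds_ge h0 h1 ha hn hna)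
  have a0 : (0 : ℝ) < a := by exact_mod_cast (Nat.zero_le n).trans_lt hna
  have e1 : (π.re : ℝ) = a := by exact_mod_cast ha
  have e3 : (a : ℝ) ^ 2 ≤ nm π := by
    rw [End.nm_real, e1]
    nlinarith [sq_nonneg (π.im : ℝ)]
  have p0 : (0 : ℝ) < 2 ^ j := by positivity
  have m0 : (0 : ℝ) ≤ m := m.cast_nonneg
  refine (div_le_div_of_nonneg_left k0 (by positivity) e3).trans ?_
  rw [Fam.env, ← mul_div_assoc, div_le_div_iff₀ (by positivity) (by positivity)]
  push_cast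
  rcases le_total ((2 : ℝ) ^ j * m) a with h2 | h2
  · have : ((2 : ℝ) ^ j * m + a) ^ 2 ≤ 4 * a ^ 2 := by nlinarith [mul_nonneg p0.le m0]
    calc _ ≤ (2 : ℝ) ^ j * (4 * a ^ 2) := by gcongr
      _ ≤ _ := by nlinarith [mul_pos p0 (pow_pos a0 2)]
  · have k3 := ker_far h hπ (d := m / a) (by
      rw [← mul_div_assoc, le_div_iff₀ a0]; linarith) (by rw [div_le_iff₀ a0]; linarith)
    generalize ker (len Z) (dir π ^ 4 * rot Z) = k at *
    have b1 : ((2 : ℝ) ^ j * m + a) ^ 2 ≤ 4 * (2 ^ j * m) ^ 2 := by nlinarith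
    have b2 : k * (2 ^ j * (m : ℝ) ^ 2) ≤ 8 * a ^ 2 := by
      rw [div_pow, ← mul_div_assoc, ← mul_div_assoc, div_le_iff₀ (by positivity)] at k3
      exact k3
    calc _ ≤ k * (4 * (2 ^ j * m) ^ 2) := by gcongr
      _ = 4 * 2 ^ j * (k * (2 ^ j * (m : ℝ) ^ 2)) := by ring
      _ ≤ 4 * 2 ^ j * (8 * a ^ 2) := by gcongr
      _ = _ := by ring

theorem cop2 {Q x y k : ℕ} (h : Q.Coprime x) (e : y + x = Q * k) : Q.Coprime y :=
  Nat.coprime_of_dvd fun _ hp h1 h2 => hp.one_lt.ne' (Nat.eq_one_of_dvd_coprimes h h1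
    ((Nat.dvd_add_right h2).1 (e ▸ h1.mul_right k)))

open Fam in
theorem fam (hX : Box) : FamSt := by
  intro J₁ J g₀ ε hJ hε
  obtain ⟨C, hC, -, hm, -⟩ := hM
  obtain ⟨D, hD, hD0⟩ : ∃ D, D = C + Real.log (4 * (J + 1 : ℕ)) ∧ 0 < D :=
    ⟨_, rfl, by have := Real.log_nonneg (x := 4 * (J + 1 : ℕ)) (by norm_cast; omega); linarith⟩
  obtain ⟨Q, I, hQ, hI, hφ⟩ := modulus (ε / (512 * D)) (by positivity)
  filter_upwards [eventually_ge_atTop (64 : ℝ), eventually_ge_atTop (2 * (Q : ℝ) ^ 2)]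
    with y y1 y2 σ j Z' σ0 σ1 hAd hZy'
  obtain ⟨Z, hZe⟩ : ∃ Z : ℕ, Z = 2 ^ j := ⟨_, rfl⟩
  have hZ : 1 ≤ Z := hZe ▸ Nat.one_le_two_pow
  have hZy : (Z : ℝ) ≤ y ^ g₀ :=
    le_trans (by exact_mod_cast hZe ▸ hAd.1 ▸ len_le hAd.2.1) hZy'
  have q1 : (1 : ℝ) ≤ Q := by exact_mod_cast hQ
  have y0 : (1 : ℝ) ≤ y := by linarith
  have s1 : 8 ≤ √y := Real.le_sqrt_of_sq_le (by linarith)
  have s2 : 2 ≤ √(√y) := Real.le_sqrt_of_sq_le (by linarith)
  have s3 : √(√y) ≤ y ^ (J + 1) :=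
    ((Real.sqrt_le_iff.2 ⟨by linarith, by nlinarith⟩ : √(√y) ≤ √y).trans
      (Real.sqrt_le_iff.2 ⟨by linarith, by nlinarith⟩ : √y ≤ y)).trans
      (le_self_pow₀ y0 J.succ_ne_zero)
  have hP : ∑ l ∈ pr (√(√y)) (y ^ (J + 1)), 1 / (l : ℝ) ≤ D := by
    have h1 := (abs_le.1 (hm _ _ s2 s3)).2
    have l0 := Real.log_pos (show 1 < y by linarith)
    rw [Real.log_sqrt (by linarith), Real.log_sqrt (by linarith), Real.log_pow,
      show ((J + 1 : ℕ) : ℝ) * Real.log y / (Real.log y / 2 / 2) = 4 * (J + 1 : ℕ) by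
        field_simp; norm_num] at h1
    linarith
  generalize hPP : pr (√(√y)) (y ^ (J + 1)) = P at hP
  let A : Finset ℕ := {a ∈ P ∪ P.image (fun q : ℕ => 2 * q) | Z * Q ≤ a}
  have hAs : ∑ a ∈ A, 1 / (a : ℝ) ≤ 2 * D := by
    refine (sum_le_sum_of_subset_of_nonneg (filter_subset _ _) fun _ _ _ => by positivity).trans ?_
    have h1 := sum_union_inter (s₁ := P) (s₂ := P.image (fun q : ℕ => 2 * q)) (f := fun a : ℕ => 1 / (a : ℝ))
    have h2 : 0 ≤ ∑ a ∈ P ∩ P.image (fun q : ℕ => 2 * q), 1 / (a : ℝ) := sum_nonneg fun _ _ => by positivity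
    have h3 : ∑ a ∈ P.image (fun q : ℕ => 2 * q), 1 / (a : ℝ) ≤ ∑ a ∈ P, 1 / (a : ℝ) := by
      rw [sum_image fun _ _ _ _ h => by simpa using h]
      refine sum_le_sum fun a _ => ?_
      push_cast
      rw [mul_comm, ← div_div]
      exact half_le_self (by positivity)
    linarith
  let fl : ℕ → ℕ := fun a => ⌊σ * a⌋₊
  let e : GI → ℕ × (Bool × Bool) × ℕ := fun π => (π.re.natAbs,
    (decide (0 < π.im), decide (π.im.natAbs ≤ fl π.re.natAbs)),
    if π.im.natAbs ≤ fl π.re.natAbs then fl π.re.natAbs - π.im.natAbs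
      else π.im.natAbs - (fl π.re.natAbs + 1))
  let cc : ℕ → Bool → ℕ := fun a b => if b then (Q - 1) * (fl a + I * a) else fl a + 1 + I * a
  let F : ℕ × (Bool × Bool) × ℕ → ℝ := fun w =>
    8 * if Q.Coprime (w.2.2 + cc w.1 w.2.1.2) then env Z w.1 w.2.2 else 0
  have key : ∀ π ∈ ({π ∈ PP y J₁ J | Thin π.re} : Finset GI), 0 < π.re ∧ ww Z' π ≤ F (e π) ∧
      e π ∈ A ×ˢ (univ : Finset (Bool × Bool)) ×ˢ range ((⌊y ^ J⌋₊ + 1) * Q) := fun π hπ => by
    obtain ⟨h1, q, hq, h2⟩ := mem_filter.1 hπ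
    obtain ⟨l, s, hl, rfl, l1, l2⟩ := (hX.mem_PP y J₁ J π (by linarith)).1 h1
    obtain ⟨g1, -, -, -, -, -, -, g2, g3, -⟩ := hG.2.2.2.2.2.2.2.2.1 l s hl
    have g4 := hG.2.2.1 (cp l s)
    have g5 : 0 < |(cp l s).im| ∧ |(cp l s).im| < (cp l s).re := by
      cases s <;> simp [cp, abs_of_pos g2, g2, g3]
    rw [g1] at g4
    generalize cp l s = π at *
    obtain ⟨a, ha⟩ := Int.eq_ofNat_of_zero_le (g5.1.trans g5.2).le
    obtain ⟨n, hn⟩ := Int.eq_ofNat_of_zero_le g5.1.le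
    have e1 : π.re.natAbs = a := by omega
    have e2 : π.im.natAbs = n := by rw [Int.abs_eq_natAbs] at hn; omega
    have n0 : 0 < n := by omega
    have n1 : n < a := by omega
    have e3 : l = a ^ 2 + n ^ 2 := by
      rw [← sq_abs π.im, ha, hn] at g4
      exact_mod_cast g4
    have r1 : (n : ℝ) < a := by exact_mod_cast n1
    have r0 : (0 : ℝ) ≤ n := n.cast_nonneg
    have r3 : (l : ℝ) = a ^ 2 + n ^ 2 := by exact_mod_cast e3
    have r4 : y * (y ^ g₀) ^ 2 ≤ y ^ J₁ := by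
      rw [← pow_mul, ← pow_succ']
      exact pow_le_pow_right₀ y0 (by omega)
    have r5 : 1 ≤ (y ^ g₀) ^ 2 := one_le_pow₀ (one_le_pow₀ y0)
    have r6 : y < 2 * a ^ 2 := by nlinarith
    have r7 : (a : ℝ) ≤ y ^ (J + 1) := by
      have : (1 : ℝ) ≤ a := by exact_mod_cast n0.trans n1
      have : y ^ J ≤ y ^ (J + 1) := pow_le_pow_right₀ y0 J.le_succ
      nlinarith
    have hqP : q ∈ P := by
      have b : (q : ℝ) ≤ a ∧ (a : ℝ) ≤ 2 * q := by norm_cast; omega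
      refine hPP ▸ (hG.2.2.2.2.2.2.2.2.2.2.2.2.2.2.2.2.2.2.2.2 _ _ q).1.2 ⟨hq, ?_, b.1.trans r7⟩
      refine (Real.sqrt_lt' (by exact_mod_cast hq.pos)).2 ?_
      have b1 : (a : ℝ) ^ 2 ≤ (2 * q) ^ 2 := pow_le_pow_left₀ (r0.trans r1.le) b.2 2
      have b2 : 8 * √y ≤ y := by nlinarith [Real.mul_self_sqrt (show 0 ≤ y by linarith)]
      nlinarith
    refine ⟨by omega, ?_, mem_product.2 ⟨mem_filter.2 ⟨?_, ?_⟩, mem_product.2 ⟨mem_univ _, ?_⟩⟩⟩
    · have c0 := cop hQ hI hl.1 (by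
        have : (Q : ℝ) < l := by nlinarith
        exact_mod_cast this) e3
      have f1 : ((fl a : ℕ) : ℝ) ≤ σ * a := Nat.floor_le (by positivity)
      have f2 : σ * a < (fl a : ℕ) + 1 := Nat.lt_floor_add_one _
      simp only [F, e, e1, e2, cc]
      by_cases hs : n ≤ fl a
      · simp only [hs, if_true, decide_true]
        rw [if_pos (cop2 c0 (k := fl a + I * a) (by
          obtain ⟨Q', rfl⟩ := Nat.exists_eq_add_of_le' hQ
          rw [Nat.add_sub_cancel, add_mul Q' 1]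
          omega)), hZe]
        refine ww_env σ0 σ1 hAd ha hn n1 (le_abs.2 (Or.inr ?_))
        rw [Nat.cast_sub hs]
        linarith
      · simp only [hs, if_false, decide_false, Bool.false_eq_true]
        rw [if_pos (by rwa [show n - (fl a + 1) + (fl a + 1 + I * a) = n + I * a by omega]), hZe]
        refine ww_env σ0 σ1 hAd ha hn n1 (le_abs.2 (Or.inl ?_))
        rw [Nat.cast_sub (by omega)]
        push_cast
        linarith
    · rcases h2 with h2 | h2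
      · exact mem_union_left _ (by rwa [show (e π).1 = q by simp only [e]; omega])
      · exact mem_union_right _ (mem_image.2 ⟨q, hqP, by simp only [e]; omega⟩)
    · have : ((Z : ℝ) * Q) ^ 2 ≤ (a : ℝ) ^ 2 := by
        have b1 : (Z : ℝ) ^ 2 ≤ (y ^ g₀) ^ 2 := by gcongr
        have b2 := mul_le_mul b1 y2 (by positivity) (by positivity)
        nlinarith
      have := (pow_le_pow_iff_left₀ (by positivity) (by positivity) two_ne_zero).1 this
      simp only [e, e1]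
      exact_mod_cast this
    · have : a ≤ ⌊y ^ J⌋₊ := Nat.le_floor (by
        have : (1 : ℝ) ≤ a := by exact_mod_cast n0.trans n1
        nlinarith)
      have f1 : fl a ≤ a := Nat.floor_le_of_le (mul_le_of_le_one_left (Nat.cast_nonneg _) σ1)
      simp only [e, e1, e2, mem_range]
      refine lt_of_lt_of_le ?_ (Nat.le_mul_of_pos_right _ hQ)
      split_ifs <;> omega
  have F0 : ∀ w, 0 ≤ F w := fun w => by
    simp only [F, env]
    positivity
  refine (sum_le_sum fun π hπ => (key π hπ).2.1).trans ?_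
  rw [← sum_image (f := F) (g := e) fun π hπ π' hπ' h => by
    have h1 := (key π hπ).1
    have h2 := (key π' hπ').1
    simp only [e, Prod.mk.injEq, decide_eq_decide] at h
    obtain ⟨h3, ⟨h4, h5⟩, h6⟩ := h
    rw [h3] at h5 h6
    refine Zsqrtd.ext (by omega) ?_
    split_ifs at h6 <;> omega]
  refine (sum_le_sum_of_subset_of_nonneg (image_subset_iff.2 fun π hπ => (key π hπ).2.2)
    fun w _ _ => F0 w).trans ?_
  rw [sum_product]
  refine (sum_le_sum (g := fun a : ℕ => 256 * (Q.totient / Q) * (1 / (a : ℝ))) fun a ha => ?_).trans ?_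
  · rw [sum_product]
    refine (sum_le_sum (g := fun _ => 8 * (8 * (Q.totient / Q) * (1 / (a : ℝ)))) fun b _ => ?_).trans
      (le_of_eq ?_)
    · simp only [F, ← mul_sum]
      exact mul_le_mul_of_nonneg_left (row hZ hQ (mem_filter.1 ha).2 (cc a b.2) ⌊y ^ J⌋₊)
        (by norm_num)
    · simp only [sum_const, card_univ, Fintype.card_prod, Fintype.card_bool, nsmul_eq_mul]
      push_cast
      ring
  · rw [← mul_sum]
    calc _ ≤ 256 * (ε / (512 * D)) * (2 * D) := by gcongr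
      _ = ε := by field_simp; norm_num

end

end Pool.Agent.Lib.MP_4b1228_nt.GS.R
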