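import Pool.Agent.Lib.MP_4b1228_nt.GR.Fam
import Pool.Agent.Lib.MP_4b1228_nt.GR.Main2

/-!
The expected order of the mass of the primes in a narrow sector around any direction.
-/

namespace Pool.Agent.Lib.MP_4b1228_nt.GS.R

open Finset Topology Pool.Agent.Lib.MP_9d27bc_nt.C
open Filter hiding ker
open Pool.Agent.Lib.MP_9d27bc_nt.C.Two hiding ww
open scoped Classical

theorem ub_PP (hX : Box) (hU : UBSt) : ∃ (c : ℕ) (C : ℝ), 0 < C ∧ ∀ J₁ J g₀ : ℕ,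
    c + 2 * g₀ ≤ J₁ → 1 ≤ J₁ → J₁ ≤ J → ∀ᶠ y : ℝ in atTop, ∀ Z : ℕ, 1 ≤ Z → (Z : ℝ) ≤ y ^ g₀ →
      ∑ π ∈ PP y J₁ J, ww Z π ≤ C * (1 + J) := by
  obtain ⟨c, C, hC, h⟩ := hU
  refine ⟨c, C, hC, fun J₁ J g₀ h1 h2 h3 => ?_⟩
  filter_upwards [h J, eventually_ge_atTop (3 : ℝ)] with y hy hy3 Z hZ hZy
  have hy1 : (1 : ℝ) < y := by linarith
  have hl : 1 ≤ Real.log y := by
    rw [Real.le_log_iff_exp_le (by linarith)]
    linarith [Real.exp_one_lt_d9]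
  have a1 : y ^ c * (Z : ℝ) ^ 2 ≤ y ^ J₁ := by
    calc y ^ c * (Z : ℝ) ^ 2 ≤ y ^ c * (y ^ g₀) ^ 2 := by gcongr
      _ = y ^ (c + 2 * g₀) := by ring
      _ ≤ y ^ J₁ := pow_le_pow_right₀ hy1.le h1
  have a2 := hy Z (y ^ J₁) (y ^ J) hZ a1 (pow_le_pow_right₀ hy1.le h3) le_rfl
  have a3 : ∑ π ∈ PP y J₁ J, ww Z π ≤ lay y Z (y ^ J₁) (y ^ J) := by
    refine sum_le_sum_of_subset_of_nonneg (fun π hπ => ?_) fun _ _ _ => wwN _ _
    obtain ⟨l, ε, hl, rfl, l1, l2⟩ := (hX.mem_PP y J₁ J π hy1).1 hπ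
    rw [mem_filter, hA.mem_disc, (End.cp_facts l ε hl).1]
    refine ⟨l2, l1.le, fun p hp hpl => ?_⟩
    rw [(Nat.prime_dvd_prime_iff_eq hp hl.1).1 hpl]
    exact lt_of_le_of_lt (le_self_pow₀ hy1.le (by omega)) l1
  refine a3.trans (a2.trans ?_)
  rw [div_le_iff₀ (by linarith), Real.log_div (by positivity) (by positivity), Real.log_pow,
    Real.log_pow]
  have a4 : (0 : ℝ) ≤ J₁ * Real.log y := by positivity
  have a5 : 1 + (J * Real.log y - J₁ * Real.log y) ≤ (1 + J) * Real.log y := by nlinarith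
  nlinarith

theorem far_pt {s : ℝ} {r k Z : ℕ} (hr : 2 ≤ r) (h : Ad s (r + k) Z) (z : ℕ → ℕ)
    (hz : ∀ i, Ad s i (z i)) {a : GI} (ha : a ≠ 0) (hd : 1 / 2 ^ k ≤ ds s a) :
    ww Z a ≤ ∑ i ∈ range (k + 1), 512 * 2 ^ i / 2 ^ (r + k) * ww (z i) a := by
  have hk : 1 / (4 * 2 ^ k) ≤ ds s a :=
    le_trans (one_div_le_one_div_of_le (by positivity) (by
      linarith [show (0 : ℝ) < 2 ^ k by positivity])) hd
  have hex : ∃ i : ℕ, 1 / (4 * 2 ^ i) ≤ ds s a := ⟨k, hk⟩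
  have i1 := Nat.find_spec hex
  have i2 : Nat.find hex ≤ k := Nat.find_min' hex hk
  have i3 : Nat.find hex = 0 ∨ ds s a ≤ 1 / (2 * 2 ^ Nat.find hex) := by
    rcases Nat.eq_zero_or_pos (Nat.find hex) with e | e
    · exact Or.inl e
    · obtain ⟨i, hi⟩ := Nat.exists_eq_add_of_le' e
      have := not_le.1 (Nat.find_min hex (show i < Nat.find hex by omega))
      refine Or.inr (this.le.trans (le_of_eq ?_))
      rw [hi, pow_succ]
      ring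
  generalize Nat.find hex = i at *
  have p1 : (0 : ℝ) < 2 ^ i := by positivity
  have p2 : (0 : ℝ) < 2 ^ (r + k) := by positivity
  have p3 : (4 : ℝ) * 2 ^ i ≤ 2 ^ (r + k) := by
    rw [show (4 : ℝ) * 2 ^ i = 2 ^ (2 + i) by ring]
    exact pow_le_pow_right₀ one_le_two (by omega)
  have k1 := ker_far h ha (d := 1 / (4 * 2 ^ i))
    (by rw [mul_one_div, le_div_iff₀ (by positivity)]; linarith) i1
  have k2 := ker_near (hz i) ha i3
  refine le_trans ?_ (single_le_sum (f := fun i => 512 * 2 ^ i / 2 ^ (r + k) * ww (z i) a)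
    (fun i _ => mul_nonneg (div_nonneg (mul_nonneg (by norm_num) (pow_nonneg zero_le_two _))
      (pow_nonneg zero_le_two _)) (wwN _ _)) (mem_range.2 (Nat.lt_succ_of_le i2)))
  rw [ww, ww, ← mul_div_assoc]
  refine div_le_div_of_nonneg_right ?_ (Nat.cast_nonneg _)
  generalize ker (len Z) (dir a ^ 4 * rot Z) = x at *
  generalize ker (len (z i)) (dir a ^ 4 * rot (z i)) = x' at *
  generalize (2 : ℝ) ^ i = u at *
  generalize (2 : ℝ) ^ (r + k) = L at *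
  have k3 : x * L ≤ 128 * u ^ 2 := by
    rw [show x * (L * (1 / (4 * u)) ^ 2) = x * L / (16 * u ^ 2) by field_simp; ring,
      div_le_iff₀ (by positivity)] at k1
    linarith
  rw [div_mul_eq_mul_div, le_div_iff₀ p2]
  nlinarith

theorem tail (T : Finset GI) (hT : ∀ a ∈ T, a ≠ 0) {s B : ℝ} (hB : 0 ≤ B) {r k Z : ℕ} (hr : 2 ≤ r)
    (h : Ad s (r + k) Z) (hU : ∀ i z, i ≤ k → Ad s i z → ∑ a ∈ T, ww z a ≤ B) :
    ∑ a ∈ T with 1 / 2 ^ k ≤ ds s a, ww Z a ≤ 1024 * B / 2 ^ r := by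
  choose z hz using cover s
  refine (sum_le_sum fun a ha => far_pt hr h z hz (hT a (mem_filter.1 ha).1)
    (mem_filter.1 ha).2).trans ?_
  rw [sum_comm]
  refine (sum_le_sum (g := fun i => 512 * B / 2 ^ (r + k) * 2 ^ i) fun i hi => ?_).trans ?_
  · rw [← mul_sum]
    have h1 := (sum_le_sum_of_subset_of_nonneg (filter_subset (fun a => 1 / 2 ^ k ≤ ds s a) T)
      fun a _ _ => wwN (z i) a).trans (hU i (z i) (Nat.le_of_lt_succ (mem_range.1 hi)) (hz i))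
    refine (mul_le_mul_of_nonneg_left h1 (by positivity)).trans (le_of_eq ?_)
    ring
  · rw [← mul_sum, geom_sum_eq (by norm_num)]
    calc _ ≤ 512 * B / 2 ^ (r + k) * (2 : ℝ) ^ (k + 1) := by
          gcongr
          norm_num
      _ = _ := by field_simp; ring

/-- The theorem. -/
def FinSt3 (ε : ℝ) : Prop :=
  ∃ c : ℝ, 0 < c ∧ ∀ᶠ X : ℝ in atTop, ∀ s α : ℝ, 0 ≤ s → s ≤ 1 → X ^ (ε - 5 / 12) ≤ α → α ≤ 1 →
    c * α ≤ ∑ p ∈ (Ioc ⌊X⌋₊ ⌊X ^ (1 + ε)⌋₊).filter (fun p : ℕ => p.Prime ∧ ∃ a b q n : ℕ,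
      p = a ^ 2 + b ^ 2 ∧ 0 < b ∧ |(b : ℝ) / a - s| ≤ α ∧ q.Prime ∧
        ((1 < n ∧ a = 2 * q * n) ∨ (1 ≤ n ∧ Even b ∧ a = (2 * n + 1) * q))), 1 / (p : ℝ)

open End in
theorem fin3 (hX : Box) (hU : UBSt) (h2 : FamSt)
    (hm : ∀ θ : ℝ, 1 / 12 < θ → MainSt2 θ) (ε : ℝ) (hε : 0 < ε) : FinSt3 ε := by
  obtain ⟨c₀, C, hC, hub⟩ := ub_PP hX hU
  set δ : ℝ := min (ε / 2) (1 / (2 * c₀ + 1)) with hδ
  have hδ0 : 0 < δ := by positivity
  have hδ1 : δ ≤ ε / 2 := min_le_left _ _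
  have hδ2 : δ * (2 * c₀ + 1) ≤ 1 := by
    have := min_le_right (ε / 2) (1 / (2 * (c₀ : ℝ) + 1))
    rwa [le_div_iff₀ (by positivity)] at this
  obtain ⟨J₁, J₂, g₀, c, hc, ⟨hJ, hg', hJJ⟩, hth, hM⟩ := hm (1 / 12 + δ) (by linarith)
  have hg : (g₀ : ℝ) ≤ 5 / 12 * J₁ := by
    have : (12 : ℝ) * g₀ ≤ 5 * J₁ := by exact_mod_cast hg'
    linarith
  have hJ1 : 1 ≤ J₁ := by omega
  have hJ1' : (1 : ℝ) ≤ J₁ := by exact_mod_cast hJ1
  have hJJ' : (J₁ : ℝ) ≤ J₂ := by exact_mod_cast hJJ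
  have e1 : (J₂ : ℝ) + 6 ≤ (1 + 2 * δ) * J₁ := by nlinarith
  have e2 : 3 ≤ δ * J₁ := by nlinarith
  have e3 : c₀ + 2 * g₀ ≤ J₁ := by
    have h0 : (0 : ℝ) ≤ c₀ := Nat.cast_nonneg _
    have : (c₀ : ℝ) + 2 * g₀ ≤ J₁ := by
      have a1 : (c₀ : ℝ) * 3 ≤ c₀ * (δ * J₁) := by gcongr
      have a2 : (δ * (2 * c₀ + 1)) * J₁ ≤ 1 * J₁ := by gcongr
      nlinarith
    exact_mod_cast this
  set B : ℝ := C * (1 + ((J₂ + 1 : ℕ) : ℝ)) with hB
  have hB0 : 0 < B := by positivity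
  obtain ⟨r, hr2, hw⟩ : ∃ r : ℕ, 2 ≤ r ∧ 1024 * B / 2 ^ r ≤ c / 3 := by
    refine ⟨⌈3072 * B / c⌉₊ + 2, by omega, ?_⟩
    have h1 := Nat.le_ceil (3072 * B / c)
    have h2 : ((⌈3072 * B / c⌉₊ + 2 : ℕ) : ℝ) ≤ 2 ^ (⌈3072 * B / c⌉₊ + 2) := by
      exact_mod_cast Nat.lt_two_pow_self.le
    rw [div_le_iff₀ hc] at h1
    rw [div_le_iff₀ (by positivity)]
    push_cast at h2
    nlinarith
  obtain ⟨w, hwd⟩ : ∃ w : ℝ, w = 2 * 2 ^ r := ⟨_, rfl⟩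
  have hw1' : (1 : ℝ) ≤ w := by
    have : (1 : ℝ) ≤ 2 ^ r := one_le_pow₀ one_le_two
    linarith
  have hF := h2 J₁ (J₂ + 1) g₀ (c / 3) hJ (by positivity)
  have hU' := hub J₁ (J₂ + 1) g₀ e3 hJ1 (by omega)
  refine ⟨c / (6 * w), by positivity, ?_⟩
  have ht : Tendsto (fun X : ℝ => X ^ ((J₁ : ℝ)⁻¹)) atTop atTop :=
    tendsto_rpow_atTop (by positivity)
  filter_upwards [ht.eventually (((hM.and hF).and hU').and (eventually_ge_atTop (64 * w))),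
    eventually_ge_atTop (1 : ℝ)] with X hy hX1 s α s0 s1 hα hα1
  obtain ⟨⟨⟨hM, hF⟩, hU'⟩, hyw⟩ := hy
  set y : ℝ := X ^ ((J₁ : ℝ)⁻¹) with hyd
  have hyX : y ^ J₁ = X := Real.rpow_inv_natCast_pow (by linarith) (by omega)
  have hy1 : 1 < y := by linarith
  have hy0 : 0 ≤ y := by linarith
  have hXr : ∀ t : ℝ, X ^ t = y ^ (J₁ * t) := by
    intro t
    rw [Real.rpow_mul hy0, Real.rpow_natCast, hyX]
  have hα0 : 0 < α := lt_of_lt_of_le (Real.rpow_pos_of_pos (by linarith) _) hα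
  obtain ⟨k, hk1, hk2⟩ : ∃ k : ℕ, 1 / 2 ^ k ≤ α ∧ (2 : ℝ) ^ k ≤ 2 / α := by
    obtain ⟨n, h1, h2⟩ := exists_nat_pow_near (x := 1 / α) (y := 2)
      (by rw [le_div_iff₀ hα0]; linarith) one_lt_two
    refine ⟨n + 1, ?_, ?_⟩
    · rw [div_lt_iff₀ hα0] at h2
      rw [div_le_iff₀ (by positivity)]
      linarith
    · rw [pow_succ, show 2 / α = 1 / α * 2 by ring]
      gcongr
  have hZ2 : (2 : ℝ) ^ (r + k) ≤ w / α := by
    rw [pow_add, hwd, show 2 * 2 ^ r / α = 2 ^ r * (2 / α) by ring]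
    gcongr
  have hall : ∀ i z, i ≤ r + k → Ad s i z → (z : ℝ) ≤ y ^ g₀ := fun i z hi hz => by
    have a1 : (z : ℝ) ≤ 64 * 2 ^ i := by exact_mod_cast hz.2.2.1
    have a2 : (2 : ℝ) ^ i ≤ 2 ^ (r + k) := pow_le_pow_right₀ one_le_two hi
    have a3 : 64 * w / α ≤ y ^ g₀ := by
      rw [div_le_iff₀ hα0]
      rw [hXr] at hα
      calc 64 * w ≤ y := hyw
        _ = y ^ (1 : ℝ) := (Real.rpow_one y).symm
        _ ≤ y ^ ((g₀ : ℝ) + J₁ * (ε - 5 / 12)) :=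
            Real.rpow_le_rpow_of_exponent_le hy1.le (by nlinarith)
        _ = y ^ g₀ * y ^ (J₁ * (ε - 5 / 12)) := by
            rw [Real.rpow_add (by linarith), Real.rpow_natCast]
        _ ≤ y ^ g₀ * α := by gcongr
    rw [mul_div_assoc] at a3
    linarith
  obtain ⟨Z, hAd⟩ := cover s (r + k)
  have hZy := hall _ Z le_rfl hAd
  have hM := hM Z hAd.2.1 hZy
  have hF := hF s _ Z s0 s1 hAd hZy
  have hne : ∀ π ∈ PP y J₁ (J₂ + 1), π ≠ 0 := fun π hπ => by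
    obtain ⟨l, e, hl, rfl, -, -⟩ := (hX.mem_PP y J₁ (J₂ + 1) π hy1).1 hπ
    exact fun h0 => (cp_facts l e hl).2.1 (by rw [h0]; rfl)
  have hE := (tail (PP y J₁ (J₂ + 1)) hne hB0.le hr2 hAd fun i z a1 a2 =>
    hU' z a2.2.1 (hall i z (by omega) a2)).trans hw
  have hle : ∑ π ∈ PP y J₁ (J₂ + 1), ww Z π ≤
      ∑ π ∈ PP y J₁ (J₂ + 1) with 1 / 2 ^ k ≤ ds s π, ww Z π +
      ∑ π ∈ PP y J₁ (J₂ + 1) with Thin π.re, ww Z π +
      ∑ π ∈ PP y J₁ (J₂ + 1) with ¬(1 / 2 ^ k ≤ ds s π) ∧ ¬Thin π.re, ww Z π := by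
    rw [sum_filter, sum_filter, sum_filter, ← sum_add_distrib, ← sum_add_distrib]
    refine sum_le_sum fun π _ => ?_
    have := wwN Z π
    by_cases p1 : 1 / 2 ^ k ≤ ds s π <;> by_cases p2 : Thin π.re <;>
      simp only [p1, p2, if_true, if_false, not_true, not_false_eq_true, and_true, and_false,
        and_self] <;> linarith
  set G := (Ioc ⌊X⌋₊ ⌊X ^ (1 + ε)⌋₊).filter (fun p : ℕ => p.Prime ∧ ∃ a b q n : ℕ,
      p = a ^ 2 + b ^ 2 ∧ 0 < b ∧ |(b : ℝ) / a - s| ≤ α ∧ q.Prime ∧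
        ((1 < n ∧ a = 2 * q * n) ∨ (1 ≤ n ∧ Even b ∧ a = (2 * n + 1) * q))) with hG'
  have key : ∑ π ∈ PP y J₁ (J₂ + 1) with ¬(1 / 2 ^ k ≤ ds s π) ∧ ¬Thin π.re, ww Z π ≤
      ∑ t ∈ G ×ˢ (univ : Finset Bool), (2 : ℝ) ^ (r + k) * (1 / (t.1 : ℝ)) := by
    refine inj_le _ _ (fun π : GI => (nm π, decide (0 < π.im))) _ _ ?_ ?_ ?_ ?_
    · intro a ha b hb hab
      obtain ⟨l, e, hl, rfl, -, -⟩ :=
        (hX.mem_PP y J₁ (J₂ + 1) a hy1).1 (mem_filter.1 (mem_coe.1 ha)).1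
      obtain ⟨l', e', hl', rfl, -, -⟩ :=
        (hX.mem_PP y J₁ (J₂ + 1) b hy1).1 (mem_filter.1 (mem_coe.1 hb)).1
      simp only [Prod.mk.injEq, decide_eq_decide, (cp_facts l e hl).1, (cp_facts l' e' hl').1] at hab
      obtain ⟨rfl, hab⟩ := hab
      have a1 := (cp_facts l true hl).2.1
      cases e <;> cases e' <;>
        simp only [cp, Bool.false_eq_true, if_false, if_true, Zsqrtd.im_star] at hab a1 ⊢ <;> omega
    · intro π hπ
      obtain ⟨hπ, hnf, hnt⟩ := mem_filter.1 hπ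
      obtain ⟨l, e, hl, rfl, l1, l2⟩ := (hX.mem_PP y J₁ (J₂ + 1) π hy1).1 hπ
      obtain ⟨h1, h3, h4⟩ := cp_facts l e hl
      have h5 := hG.2.2.1 (cp l e)
      rw [h1] at h5
      simp only [mem_product, mem_univ, and_true, h1]
      have hds := ds_ge s0 s1 (π := cp l e) (A := (cp l e).re.natAbs) (B := (cp l e).im.natAbs)
        (Int.natAbs_of_nonneg ((abs_nonneg _).trans h4.le)).symm (Int.natCast_natAbs _).symm
        (by have := Int.natCast_natAbs (cp l e).im; omega)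
      set a := (cp l e).re
      set b := (cp l e).im
      have ha0 : 0 ≤ a := (abs_nonneg _).trans h4.le
      have eA : (a.natAbs : ℤ) = a := Int.natAbs_of_nonneg ha0
      have eB : (b.natAbs : ℤ) = |b| := Int.natCast_natAbs _
      have e0 : l = a.natAbs ^ 2 + b.natAbs ^ 2 := by
        have : (l : ℤ) = (a.natAbs : ℤ) ^ 2 + (b.natAbs : ℤ) ^ 2 := by rw [eA, eB, sq_abs, h5]
        exact_mod_cast this
      have hB0 : 0 < b.natAbs := Int.natAbs_pos.2 h3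
      obtain ⟨q, n, hq, hsh⟩ := shape l a.natAbs b.natAbs hl.2 e0 hB0 (by omega) fun q hq =>
        ⟨fun hh => hnt ⟨q, hq, Or.inl (by omega)⟩, fun hh => hnt ⟨q, hq, Or.inr (by omega)⟩⟩
      rw [hG', mem_filter, mem_Ioc]
      refine ⟨⟨?_, ?_⟩, hl.1, a.natAbs, b.natAbs, q, n, e0, hB0, ?_, hq, hsh.imp
        (fun h => ⟨h.1, Nat.pow_left_injective two_ne_zero
          (Nat.add_right_cancel (e0.symm.trans h.2))⟩)
        fun h => ⟨h.1, h.2.1, Nat.pow_left_injective two_ne_zero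
          (Nat.add_right_cancel (e0.symm.trans h.2.2))⟩⟩
      · rw [Nat.floor_lt (by linarith), ← hyX]
        exact l1
      · refine Nat.le_floor (l2.trans ?_)
        rw [hXr, ← Real.rpow_natCast]
        refine Real.rpow_le_rpow_of_exponent_le hy1.le ?_
        push_cast
        nlinarith
      · have a0 : (0 : ℝ) < a.natAbs := by exact_mod_cast (by omega : 0 < a.natAbs)
        rw [show ((b.natAbs : ℕ) : ℝ) / a.natAbs - s = (b.natAbs - s * a.natAbs) / a.natAbs by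
          field_simp, abs_div, abs_of_pos a0, div_le_iff₀' a0]
        exact hds.trans (mul_le_mul_of_nonneg_left ((not_le.1 hnf).le.trans hk1) a0.le)
    · intro t _
      positivity
    · intro π hπ
      unfold ww
      rw [mul_one_div]
      exact div_le_div_of_nonneg_right (ker_le hAd (hne π (mem_filter.1 hπ).1)) (Nat.cast_nonneg _)
  have e5 : ∑ t ∈ G ×ˢ (univ : Finset Bool), (2 : ℝ) ^ (r + k) * (1 / (t.1 : ℝ)) =
      2 * 2 ^ (r + k) * ∑ p ∈ G, 1 / (p : ℝ) := by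
    rw [sum_product, mul_sum]
    refine sum_congr rfl fun a _ => ?_
    simp only [sum_const, card_univ, Fintype.card_bool, nsmul_eq_mul]
    push_cast
    ring
  rw [e5] at key
  have hS0 : 0 ≤ ∑ p ∈ G, 1 / (p : ℝ) := sum_nonneg fun _ _ => by positivity
  have e6 : c / 3 ≤ 2 * (w / α) * ∑ p ∈ G, 1 / (p : ℝ) := by
    have : 2 * 2 ^ (r + k) * ∑ p ∈ G, 1 / (p : ℝ) ≤ 2 * (w / α) * ∑ p ∈ G, 1 / (p : ℝ) := by gcongr
    linarith
  rw [div_mul_eq_mul_div, div_le_iff₀ (by positivity)]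
  have e7 := mul_le_mul_of_nonneg_right e6 hα0.le
  have e8 : 2 * (w / α) * (∑ p ∈ G, 1 / (p : ℝ)) * α =
      2 * w * ∑ p ∈ G, 1 / (p : ℝ) := by field_simp
  rw [e8] at e7
  linarith

end Pool.Agent.Lib.MP_4b1228_nt.GS.R
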