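import Pool.Agent.Lib.MP_4b1228_nt.GR.St

/-! The good sets and the bad sets of primes. -/

namespace Pool.Agent.Lib.MP_4b1228_nt.GS.R

open Finset Filter Topology Pool.Agent.Lib.MP_9d27bc_nt.C Pool.Agent.Lib.MP_9d27bc_nt.C.Two
open scoped Classical

namespace Gd

/-- large `y`, uniformly in `Z`. -/
def fl (g₀ : ℕ) : Filter (ℝ × ℕ) :=
  comap Prod.fst atTop ⊓ 𝓟 {q | 1 ≤ q.2 ∧ (q.2 : ℝ) ≤ q.1 ^ g₀}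

theorem ev {g₀ : ℕ} {P : ℝ × ℕ → Prop} : (∀ᶠ q in fl g₀, P q) ↔
    ∀ᶠ y : ℝ in atTop, ∀ Z : ℕ, 1 ≤ Z → (Z : ℝ) ≤ y ^ g₀ → P (y, Z) := by
  rw [fl, eventually_inf_principal, eventually_comap]
  refine eventually_congr (Eventually.of_forall fun y => ⟨fun h Z a b => h (y, Z) rfl ⟨a, b⟩, ?_⟩)
  rintro h ⟨y', Z⟩ rfl k
  exact h Z k.1 k.2

theorem tz {g₀ : ℕ} {f : ℝ × ℕ → ℝ} : Tendsto f (fl g₀) (𝓝 0) ↔ ∀ ε : ℝ, 0 < ε →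
    ∀ᶠ y : ℝ in atTop, ∀ Z : ℕ, 1 ≤ Z → (Z : ℝ) ≤ y ^ g₀ → |f (y, Z)| ≤ ε := by
  rw [Metric.nhds_basis_closedBall.tendsto_right_iff]
  simp only [mem_closedBall_zero_iff, Real.norm_eq_abs, ev]

theorem nn (h3 : NNSt) {j₀ g₀ a : ℕ} (b : ℕ) (hj : 1 ≤ j₀) (ha : j₀ + 2 * g₀ ≤ a) (ε : ℝ)
    (hε : 0 < ε) : ∀ᶠ y : ℝ in atTop, ∀ Z : ℕ, 1 ≤ Z → (Z : ℝ) ≤ y ^ g₀ →
      NN (y ^ j₀) Z (y ^ a) (y ^ b) ≤ ε := by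
  have t : Tendsto (fun y : ℝ => y ^ j₀) atTop atTop := tendsto_pow_atTop (by omega)
  filter_upwards [t.eventually (h3 b), ((tendsto_rpow_neg_atTop (y := 1 / 4) (by norm_num)).comp
    t).eventually (ge_mem_nhds hε), eventually_ge_atTop (1 : ℝ)] with y k1 k2 k3 Z z1 z2
  refine (k1 Z _ _ z1 ?_ ?_).trans k2
  · calc y ^ j₀ * (Z : ℝ) ^ 2 ≤ y ^ j₀ * (y ^ g₀) ^ 2 := by gcongr
      _ = y ^ (j₀ + 2 * g₀) := by ring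
      _ ≤ y ^ a := pow_le_pow_right₀ k3 ha
  · rw [← pow_mul]
    exact pow_le_pow_right₀ k3 (Nat.le_mul_of_pos_left _ hj)

/-- the error of the passage to cells. -/
noncomputable def er (j₀ J r : ℕ) (F : Multiset ℕ → ℝ) (y : ℝ) (Z : ℕ) : ℝ :=
  ∑ S ∈ NS y j₀ J with #S = r, F (im y S) * ww Z (∏ π ∈ S, π) -
    (∑ jv ∈ Fintype.piFinset fun _ : Fin r => Ico j₀ J, F (vm jv) * cell y Z jv) / r.factorial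

theorem er_small (h1 : TupSt) (h3 : NNSt) {j₀ g₀ a b : ℕ} (J r : ℕ) {F : Multiset ℕ → ℝ} {F₀ : ℝ}
    (hj : 1 ≤ j₀) (ha : j₀ + 2 * g₀ ≤ a) (h0 : 0 < F₀) (hF : ∀ M, M.card = r → |F M| ≤ F₀)
    (hs : ∀ M, F M ≠ 0 → a ≤ M.sum ∧ M.sum ≤ b) (ε : ℝ) (hε : 0 < ε) :
    ∀ᶠ y : ℝ in atTop, ∀ Z : ℕ, 1 ≤ Z → (Z : ℝ) ≤ y ^ g₀ → |er j₀ J r F y Z| ≤ ε := by
  have hr : (0 : ℝ) < F₀ * (r : ℝ) ^ r := mul_pos h0 (by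
    rcases Nat.eq_zero_or_pos r with rfl | k
    · simp
    · positivity)
  filter_upwards [nn h3 (b + r) hj ha (ε / (F₀ * (r : ℝ) ^ r)) (div_pos hε hr),
    eventually_ge_atTop (2 : ℝ)] with y k1 k2 Z z1 z2
  refine (h1 y j₀ J a b r Z F F₀ k2 h0.le hF hs).trans ?_
  exact (le_div_iff₀' hr).1 (k1 Z z1 z2)

end Gd

end Pool.Agent.Lib.MP_4b1228_nt.GS.R
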