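import Pool.Agent.Lib.MP_4b1228_nt.GR.St

/-!
The geometry of the rotated kernel.
-/

namespace Pool.Agent.Lib.MP_4b1228_nt.GS.R

open Finset Filter Topology Pool.Agent.Lib.MP_9d27bc_nt.C Pool.Agent.Lib.MP_9d27bc_nt.C.Two
open scoped Classical

noncomputable section

/-- the unit number that belongs to the slope `s` -/
def om (s : ℝ) : ℂ := (1 - s * Complex.I) ^ 4 / ((1 + s ^ 2 : ℝ) : ℂ) ^ 2

/-- the distance from the direction of slope `s` -/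
def ds (s : ℝ) (a : GI) : ℝ := ‖dir a ^ 4 * om s - 1‖

theorem norm_om (s : ℝ) : ‖om s‖ = 1 := by
  have h : ‖(1 - s * Complex.I : ℂ)‖ ^ 2 = 1 + s ^ 2 := by
    rw [Complex.sq_norm, Complex.normSq_apply]
    simp
    ring
  rw [om, norm_div, norm_pow, norm_pow, Complex.norm_real, Real.norm_of_nonneg (by positivity),
    show (4 : ℕ) = 2 * 2 from rfl, pow_mul, h]
  exact div_self (by positivity)

theorem four (u v : ℝ) (h : 0 < u ^ 2 + v ^ 2) :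
    ‖((u : ℂ) + v * Complex.I) ^ 4 / ((u ^ 2 + v ^ 2 : ℝ) : ℂ) ^ 2 - 1‖ =
      4 * |u * v| / (u ^ 2 + v ^ 2) := by
  have h0 : ((u ^ 2 + v ^ 2 : ℝ) : ℂ) ≠ 0 := by exact_mod_cast h.ne'
  have e : ((u : ℂ) + v * Complex.I) ^ 4 / ((u ^ 2 + v ^ 2 : ℝ) : ℂ) ^ 2 - 1 =
      ((u : ℂ) + v * Complex.I) ^ 2 * (((4 * (u * v) : ℝ) : ℂ) * Complex.I) /
        ((u ^ 2 + v ^ 2 : ℝ) : ℂ) ^ 2 := by
    rw [div_sub_one (pow_ne_zero 2 h0)]
    congr 1
    push_cast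
    linear_combination ((v : ℂ) ^ 4 * (Complex.I ^ 2 - 1) - 2 * (u : ℂ) ^ 2 * v ^ 2) *
      Complex.I_sq
  have h1 : ‖((u : ℂ) + v * Complex.I)‖ ^ 2 = u ^ 2 + v ^ 2 := by
    rw [Complex.sq_norm, Complex.normSq_add_mul_I]
  rw [e, norm_div, norm_mul, norm_mul, norm_pow, norm_pow, h1, Complex.norm_I, Complex.norm_real,
    Complex.norm_real, Real.norm_of_nonneg h.le, Real.norm_eq_abs, abs_mul (4 : ℝ),
    abs_of_pos (show (0 : ℝ) < 4 by norm_num)]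
  field_simp

theorem ds_ge {s : ℝ} (h0 : 0 ≤ s) (h1 : s ≤ 1) {π : GI} {A B : ℕ} (ha : π.re = A)
    (hb : |π.im| = B) (h : B < A) : |(B : ℝ) - s * A| ≤ A * ds s π := by
  have e1 : (π.re : ℝ) = A := by exact_mod_cast ha
  have e2 : |(π.im : ℝ)| = B := by exact_mod_cast hb
  have b0 : (0 : ℝ) ≤ B := B.cast_nonneg
  have b1 : (B : ℝ) < A := by exact_mod_cast h
  have a0 : (0 : ℝ) < A := b0.trans_lt b1
  have hN := End.nm_real π
  have e3 : (π.im : ℝ) ^ 2 = (B : ℝ) ^ 2 := by rw [← sq_abs, e2]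
  obtain ⟨b, hb'⟩ : ∃ b : ℝ, b = π.im := ⟨_, rfl⟩
  have hM : (A + s * b) ^ 2 + (b - s * A) ^ 2 = (nm π : ℝ) * (1 + s ^ 2) := by
    rw [hN, e1, ← hb']; ring
  have hN0 : (0 : ℝ) < nm π := by rw [hN, e1]; positivity
  have hn : ‖(π : ℂ)‖ ≠ 0 := fun e => by
    rw [hA.nm_eq, e] at hN0
    simp at hN0
  have h4 : ((‖(π : ℂ)‖ : ℝ) : ℂ) ^ 4 = ((nm π : ℝ) : ℂ) ^ 2 := by
    rw [hA.nm_eq]; push_cast; ring
  have e4 : dir π ^ 4 * om s = (((A + s * b : ℝ) : ℂ) + ((b - s * A : ℝ) : ℂ) * Complex.I) ^ 4 /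
      (((A + s * b) ^ 2 + (b - s * A) ^ 2 : ℝ) : ℂ) ^ 2 := by
    have e5 : (((A + s * b : ℝ) : ℂ) + ((b - s * A : ℝ) : ℂ) * Complex.I) =
        (π : ℂ) * (1 - s * Complex.I) := by
      rw [GaussianInt.toComplex_def, hb', ← e1]
      push_cast
      linear_combination ((π.im : ℂ) * s) * Complex.I_sq
    rw [hM, e5, dir, om, div_pow, h4, div_mul_div_comm, mul_pow, Complex.ofReal_mul, mul_pow]
  have hM0 : 0 < (A + s * b) ^ 2 + (b - s * A) ^ 2 := by rw [hM]; positivity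
  rw [ds, e4, four _ _ hM0, ← mul_div_assoc, le_div_iff₀ hM0]
  have k1 : (A + s * b) ^ 2 + (b - s * A) ^ 2 ≤ 4 * (A : ℝ) ^ 2 := by
    rw [hM, hN, e1, e3]
    have : s ^ 2 ≤ 1 := by nlinarith
    have : (B : ℝ) ^ 2 ≤ A ^ 2 := by nlinarith
    nlinarith
  have k2 : |(B : ℝ) - s * A| * A ≤ |(A + s * b) * (b - s * A)| := by
    rw [← hb'] at e2
    rcases abs_eq b0 |>.1 e2 with e | e
    · rw [e, abs_mul, mul_comm, abs_of_pos (by positivity : 0 < A + s * B)]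
      exact mul_le_mul_of_nonneg_right (by nlinarith) (abs_nonneg _)
    · have x1 : 0 ≤ A - s * B := by nlinarith
      have x2 : 0 ≤ 1 - s ^ 2 := by nlinarith
      have x3 : 0 ≤ (A : ℝ) ^ 2 - B ^ 2 := by nlinarith
      rw [e, show (A + s * -(B : ℝ)) * (-B - s * A) = -((A - s * B) * (B + s * A)) by ring, abs_neg,
        abs_of_nonneg (by positivity : 0 ≤ (A - s * B) * (B + s * A)), ← abs_of_pos a0, ← abs_mul,
        abs_of_pos a0, abs_le]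
      constructor
      · nlinarith [mul_nonneg b0 x1, mul_nonneg (mul_nonneg a0.le b0) x2]
      · nlinarith [mul_nonneg h0 x3, mul_nonneg (mul_nonneg h0 a0.le) x1]
  calc _ ≤ |(B : ℝ) - s * A| * (4 * (A : ℝ) ^ 2) := by gcongr
    _ = A * (4 * (|(B : ℝ) - s * A| * A)) := by ring
    _ ≤ _ := by gcongr

/-- the index `Z` is adapted to the length `2 ^ j` and to the slope `s` -/
def Ad (s : ℝ) (j Z : ℕ) : Prop :=
  len Z = 2 ^ j ∧ 1 ≤ Z ∧ Z ≤ 64 * 2 ^ j ∧ ‖rot Z - om s‖ ≤ 1 / (4 * 2 ^ j)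

theorem cover (s : ℝ) (j : ℕ) : ∃ Z, Ad s j Z := by
  obtain ⟨x, x1, x2, hx⟩ : ∃ x : ℝ, 1 ≤ x ∧ x < 2 ∧
      om s = Complex.exp (2 * Real.pi * Complex.I * x) := by
    have f0 := Int.fract_nonneg ((om s).arg / (2 * Real.pi))
    have f1 := Int.fract_lt_one ((om s).arg / (2 * Real.pi))
    refine ⟨1 + Int.fract ((om s).arg / (2 * Real.pi)), by linarith, by linarith, ?_⟩
    have h := Complex.norm_mul_exp_arg_mul_I (om s)
    rw [norm_om, Complex.ofReal_one, one_mul] at h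
    have hp : (Real.pi : ℂ) ≠ 0 := by exact_mod_cast Real.pi_ne_zero
    have e : 2 * (Real.pi : ℂ) * Complex.I *
        ((1 + Int.fract ((om s).arg / (2 * Real.pi)) : ℝ) : ℂ) = (om s).arg * Complex.I +
          ((1 - ⌊(om s).arg / (2 * Real.pi)⌋ : ℤ) : ℂ) * (2 * Real.pi * Complex.I) := by
      rw [Int.fract]
      push_cast
      field_simp
      ring
    rw [e, Complex.exp_add, Complex.exp_int_mul_two_pi_mul_I, mul_one, h]
  have p0 : (0 : ℝ) < 2 ^ (j + 5) := by positivity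
  have z1 : 2 ^ (j + 5) ≤ ⌊x * 2 ^ (j + 5)⌋₊ := Nat.le_floor (by push_cast; nlinarith)
  have z2 : ⌊x * 2 ^ (j + 5)⌋₊ < 2 ^ (j + 5 + 1) :=
    (Nat.floor_lt (by positivity)).2 (by push_cast; rw [pow_succ _ (j + 5)]; nlinarith)
  have z3 := Nat.floor_le (show 0 ≤ x * 2 ^ (j + 5) by positivity)
  have z4 := Nat.lt_floor_add_one (x * 2 ^ (j + 5))
  generalize ⌊x * 2 ^ (j + 5)⌋₊ = Z at *
  have hl : Nat.log 2 Z = j + 5 := Nat.log_eq_of_pow_le_of_lt_pow z1 z2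
  refine ⟨Z, by rw [len, hl]; rfl, Nat.one_le_two_pow.trans z1, by
    rw [show 64 * 2 ^ j = 2 ^ (j + 5 + 1) by ring]; exact z2.le, ?_⟩
  have e : rot Z - om s = om s * (Complex.exp (Complex.I *
      ((2 * Real.pi * (Z / 2 ^ (j + 5) - x) : ℝ) : ℂ)) - 1) := by
    rw [rot, hl, grid, hx, mul_sub, mul_one, ← Complex.exp_add]
    congr 2
    push_cast
    ring
  rw [e, norm_mul, norm_om, one_mul]
  refine (Real.norm_exp_I_mul_ofReal_sub_one_le).trans ?_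
  have y1 : |(Z : ℝ) / 2 ^ (j + 5) - x| ≤ 1 / 2 ^ (j + 5) := by
    rw [show (Z : ℝ) / 2 ^ (j + 5) - x = (Z - x * 2 ^ (j + 5)) / 2 ^ (j + 5) by field_simp, abs_div,
      abs_of_pos p0]
    exact div_le_div_of_nonneg_right (abs_le.2 ⟨by linarith, by linarith⟩) p0.le
  rw [Real.norm_eq_abs, abs_mul, abs_of_pos (by positivity : 0 < 2 * Real.pi)]
  calc _ ≤ 8 * (1 / 2 ^ (j + 5) : ℝ) :=
        mul_le_mul (by linarith [Real.pi_le_four]) y1 (abs_nonneg _) (by norm_num)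
    _ = _ := by field_simp; ring

theorem shift {s : ℝ} {j Z : ℕ} (h : Ad s j Z) {a : GI} (ha : a ≠ 0) :
    |‖dir a ^ 4 * rot Z - 1‖ - ds s a| ≤ 1 / (4 * 2 ^ j) := by
  refine (abs_norm_sub_norm_le _ _).trans (le_trans (le_of_eq ?_) h.2.2.2)
  rw [sub_sub_sub_cancel_right, ← mul_sub, norm_mul, norm_pow, hA.norm_dir _ ha, one_pow, one_mul]

theorem ker_le {s : ℝ} {j Z : ℕ} (h : Ad s j Z) {a : GI} (ha : a ≠ 0) :
    ker (len Z) (dir a ^ 4 * rot Z) ≤ 2 ^ j := by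
  have := hK.le (len Z) _ (norm_dr Z ha)
  rwa [h.1, Nat.cast_pow, Nat.cast_ofNat, ← h.1] at this

theorem ker_far {s : ℝ} {j Z : ℕ} (h : Ad s j Z) {a : GI} (ha : a ≠ 0) {d : ℝ}
    (hd : 1 ≤ 2 ^ j * d) (hd' : d ≤ ds s a) :
    ker (len Z) (dir a ^ 4 * rot Z) * (2 ^ j * d ^ 2) ≤ 8 := by
  have k1 := hK.decay (len Z) _ (norm_dr Z ha)
  have k0 := hK.nonneg (len Z) (dir a ^ 4 * rot Z)
  have k2 := (abs_le.1 (shift h ha)).1
  have e : ((len Z : ℕ) : ℝ) = 2 ^ j := by rw [h.1]; push_cast; rfl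
  rw [e] at k1
  have p0 : (0 : ℝ) < 2 ^ j := by positivity
  have d0 : 0 < d := by
    by_contra hn
    nlinarith [mul_nonneg p0.le (neg_nonneg.2 (not_lt.1 hn))]
  have k3 : 1 / (4 * 2 ^ j) ≤ d / 4 := by
    rw [div_le_div_iff₀ (by positivity) (by norm_num)]
    nlinarith
  have k4 : (3 / 4 * d) ^ 2 ≤ ‖dir a ^ 4 * rot Z - 1‖ ^ 2 :=
    pow_le_pow_left₀ (by positivity) (by linarith) 2
  nlinarith [mul_le_mul_of_nonneg_left k4 (mul_nonneg k0 p0.le)]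

theorem ker_near {s : ℝ} {j Z : ℕ} (h : Ad s j Z) {a : GI} (ha : a ≠ 0)
    (hd : j = 0 ∨ ds s a ≤ 1 / (2 * 2 ^ j)) : 2 ^ j / 4 ≤ ker (len Z) (dir a ^ 4 * rot Z) := by
  have e : ((len Z : ℕ) : ℝ) = 2 ^ j := by rw [h.1]; push_cast; rfl
  rcases hd with rfl | hd
  · rw [h.1]
    norm_num [Two.ker]
  · rw [← e]
    refine hK.low _ _ (len_pos Z) (norm_dr Z ha) ?_
    have k2 := (abs_le.1 (shift h ha)).2
    have : 1 / (4 * 2 ^ j) + 1 / (2 * 2 ^ j) ≤ (1 : ℝ) / 2 ^ j := by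
      rw [show 1 / (4 * 2 ^ j) + 1 / (2 * 2 ^ j) = (3 / 4 : ℝ) / 2 ^ j by field_simp; ring]
      gcongr
      norm_num
    rw [e]
    linarith

end

end Pool.Agent.Lib.MP_4b1228_nt.GS.R
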