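import Pool.Agent.Lib.MP_4b1228_nt.GS.All2

/-!
Gaussian primes in narrow sectors around an arbitrary direction: the weights and the statements.
The index `Z` of a weight encodes a length and a direction.
-/

namespace Pool.Agent.Lib.MP_4b1228_nt.GS.R

open Finset Filter Topology Pool.Agent.Lib.MP_9d27bc_nt.C Pool.Agent.Lib.MP_9d27bc_nt.C.Two
open scoped Classical ComplexConjugate

noncomputable section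

/-- the length of the kernel -/
def len (Z : ℕ) : ℕ := 2 ^ (Nat.log 2 Z - 5)

/-- the rotation of the kernel -/
def rot (Z : ℕ) : ℂ := grid (2 ^ Nat.log 2 Z) Z

/-- the weight -/
def ww (Z : ℕ) (a : GI) : ℝ := ker (len Z) (dir a ^ 4 * rot Z) / nm a

/-- the weight of the multiples of a family by rough cofactors -/
def AA {ι : Type} (z : ℝ) (Z : ℕ) (S : Finset ι) (v : ι → GI) (P₁ P₂ : ℝ) : ℝ :=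
  ∑ i ∈ S, ∑ m ∈ Sq P₁ P₂ with Rough z (nm m), ww Z (v i * m)

/-- the weight of the rough vectors of norm in `[Y, Y']` -/
def lay (z : ℝ) (Z : ℕ) (Y Y' : ℝ) : ℝ := ∑ a ∈ disc Y' with Y ≤ nm a ∧ Rough z (nm a), ww Z a

/-- the weight of the vectors of norm in `[Y, Y']` divisible by the square of a large prime -/
def NN (z : ℝ) (Z : ℕ) (Y Y' : ℝ) : ℝ :=
  ∑ a ∈ disc Y' with Y ≤ nm a ∧ ∃ l : ℕ, l.Prime ∧ z < l ∧ l ^ 2 ∣ nm a, ww Z a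

/-- the weight of a cell -/
def cell (y : ℝ) (Z : ℕ) {r : ℕ} (jv : Fin r → ℕ) : ℝ :=
  ∑ f ∈ Fintype.piFinset fun i => Bx y (jv i), ww Z (∏ i, f i)

/-- a sum over these sets -/
def _root_.Pool.Agent.Lib.MP_4b1228_nt.GS.Par.scr (p : Par) (y : ℝ) (j₀ Z : ℕ) (F : Multiset ℕ → ℝ) : ℝ :=
  ∑ S ∈ p.co y j₀, F (im y S) * ww Z (∏ π ∈ S, π)

/-- The sieve on the cofactor. -/
def TCSt : Prop :=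
  ∃ C : ℝ, 0 < C ∧ ∀ k : ℕ, C ≤ 2 ^ k → ∀ (ι : Type) (S : Finset ι) (v : ι → GI) (Z : ℕ)
    (z P₁ P₂ E : ℝ), 2 ≤ z → (∀ i ∈ S, v i ≠ 0) → 1 ≤ Z → 8 * z ^ (4 * k + 6) ≤ P₁ → 0 ≤ E →
    (∀ (q : ℕ) (c : GI), 1 ≤ q → (q : ℝ) ≤ z ^ (4 * k + 6) →
      ∑ t ∈ fz Z, ‖hat S v t‖ * ‖sm (cls q c) P₁ P₂ t‖ ≤ E) →
    |AA z Z S v P₁ P₂ - D0 S v * m0 P₁ P₂ * VV z| ≤ C / 2 ^ k * (D0 S v * m0 P₁ P₂ * VV z) +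
      (z ^ (4 * k + 6)) ^ 4 * (E + C * D0 S v * z ^ (4 * k + 6) / P₁)

/-- Sums of the first type. -/
def T1St : Prop :=
  ∃ C : ℝ, 0 < C ∧ ∀ k : ℕ, C ≤ 2 ^ k → ∀ A B : ℕ,
    (∀ᶠ z : ℝ in atTop, ∀ (ι : Type) (S : Finset ι) (v : ι → GI) (Z : ℕ) (P₁ P₂ Y : ℝ),
      Mult S v B → 1 ≤ Y → (∀ i ∈ S, Y ≤ nm (v i) ∧ (nm (v i) : ℝ) ≤ z ^ A) → 1 ≤ Z → 1 ≤ P₁ →
      P₁ ≤ z ^ A → (z ^ (4 * k + 6)) ^ 14 * Z ≤ P₁ ^ 2 →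
      (z ^ (4 * k + 6)) ^ 14 * (Z : ℝ) ^ 2 ≤ Y * P₁ ^ 2 →
      |AA z Z S v P₁ P₂ - D0 S v * m0 P₁ P₂ * VV z| ≤
        C / 2 ^ k * (D0 S v * m0 P₁ P₂ * VV z) + 1 / z) ∧
    ∀ j : ℕ, 2 ≤ j → j ≤ 4 → ∀ᶠ z : ℝ in atTop, ∀ (ι κ : Type) (S : Finset ι) (v : ι → GI)
      (S' : Finset κ) (v' : κ → GI) (Z : ℕ) (P₁ P₂ : ℝ),
      Two S v S' v' j B Z (z ^ (4 * k + 6)) (z ^ A) P₁ → 1 ≤ Z → 1 ≤ P₁ → P₁ ≤ P₂ → P₂ ≤ z ^ A →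
      |AA z Z (S ×ˢ S') (fun w => v w.1 * v' w.2) P₁ P₂ - D0 S v * D0 S' v' * m0 P₁ P₂ * VV z| ≤
        C / 2 ^ k * (D0 S v * D0 S' v' * m0 P₁ P₂ * VV z) + 1 / z

/-- The upper bound for rough vectors. -/
def UBSt : Prop :=
  ∃ (c : ℕ) (C : ℝ), 0 < C ∧ ∀ A : ℕ, ∀ᶠ z : ℝ in atTop, ∀ (Z : ℕ) (Y Y' : ℝ), 1 ≤ Z →
    z ^ c * (Z : ℝ) ^ 2 ≤ Y → Y ≤ Y' → Y' ≤ z ^ A →
    lay z Z Y Y' ≤ C * (1 + Real.log (Y' / Y)) / Real.log z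

/-- Squares are rare. -/
def NNSt : Prop :=
  ∀ A : ℕ, ∀ᶠ z : ℝ in atTop, ∀ (Z : ℕ) (Y Y' : ℝ), 1 ≤ Z → z * (Z : ℝ) ^ 2 ≤ Y → Y' ≤ z ^ A →
    NN z Z Y Y' ≤ z ^ (-(1 / 4) : ℝ)

/-- Good cells; two large primes. -/
def T3St : Prop :=
  ∃ (c : ℕ) (C : ℝ), 0 < C ∧
    (∀ (r : ℕ) (jv : Fin r → ℕ) (j₀ g g₀ : ℕ) (ε : ℝ), 1 ≤ j₀ → (∀ i, j₀ ≤ jv i) →
      g₀ + c * j₀ ≤ g → Good g (vm jv) → 0 < ε →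
      ∀ᶠ y : ℝ in atTop, ∀ Z : ℕ, 1 ≤ Z → (Z : ℝ) ≤ y ^ g₀ → |cell y Z jv - cell y 1 jv| ≤ ε) ∧
    ∀ j₀ a b g₀ : ℕ, 1 ≤ j₀ → j₀ ≤ a → a ≤ b → g₀ + c * j₀ ≤ a →
      ∀ᶠ y : ℝ in atTop, ∀ Z : ℕ, 1 ≤ Z → (Z : ℝ) ≤ y ^ g₀ →
        ∑ π ∈ PP y a b, ∑ π' ∈ PP y a b, ww Z (π * π') ≤ C * (((b : ℝ) - a + 1) / j₀) ^ 2

/-- From sets of primes to cells. -/
def TupSt : Prop :=
  ∀ (y : ℝ) (j₀ J a b r Z : ℕ) (F : Multiset ℕ → ℝ) (F₀ : ℝ), 2 ≤ y → 0 ≤ F₀ →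
    (∀ M, M.card = r → |F M| ≤ F₀) → (∀ M, F M ≠ 0 → a ≤ M.sum ∧ M.sum ≤ b) →
    |∑ S ∈ NS y j₀ J with #S = r, F (im y S) * ww Z (∏ π ∈ S, π) -
        (∑ jv ∈ Fintype.piFinset fun _ : Fin r => Ico j₀ J, F (vm jv) * cell y Z jv) /
          r.factorial| ≤ F₀ * r ^ r * NN (y ^ j₀) Z (y ^ a) (y ^ (b + r))

/-- Sums of the first type with two arbitrary factors. -/
def T2St : Prop :=
  ∃ C : ℝ, 0 < C ∧ ∀ k : ℕ, C ≤ 2 ^ k → ∀ A B : ℕ,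
    ∀ᶠ z : ℝ in atTop, ∀ (ι κ : Type) (S : Finset ι) (v : ι → GI)
      (S' : Finset κ) (v' : κ → GI) (a : ℝ) (Z : ℕ) (P₁ P₂ : ℝ),
      Two2 S v S' v' a B Z (z ^ (4 * k + 6)) (z ^ A) P₁ → 1 ≤ Z → 1 ≤ P₁ → P₁ ≤ P₂ → P₂ ≤ z ^ A →
      |AA z Z (S ×ˢ S') (fun w => v w.1 * v' w.2) P₁ P₂ - D0 S v * D0 S' v' * m0 P₁ P₂ * VV z| ≤
        C / 2 ^ k * (D0 S v * D0 S' v' * m0 P₁ P₂ * VV z) + 1 / z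

/-- the weights of the cells with the property `G` agree with the model -/
def Asy (G : Multiset ℕ → Prop) (j₀ g₀ : ℕ) : Prop :=
  ∀ (r : ℕ) (jv : Fin r → ℕ) (ε : ℝ), (∀ i, j₀ ≤ jv i) → G (vm jv) → 0 < ε →
    ∀ᶠ y : ℝ in atTop, ∀ Z : ℕ, 1 ≤ Z → (Z : ℝ) ≤ y ^ g₀ → |cell y Z jv - cell y 1 jv| ≤ ε

/-- Cells with large values. -/
def T3PSt : Prop :=
  ∃ c : ℕ, ∀ g j₀ g₀ : ℕ, 1 ≤ j₀ → g₀ + c * j₀ ≤ g → Asy (GoodP g) j₀ g₀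

/-- All good cells. -/
def AsySt : Prop :=
  ∃ c : ℕ, ∀ g j₀ g₀ : ℕ, 1 ≤ j₀ → g₀ + c * j₀ ≤ g → Asy (Good2 g) j₀ g₀

/-- the multiples of these sets have the expected weight -/
def AsyI (η : ℝ) (J₁ J₂ R j₀ g₀ : ℕ) (M : Multiset ℕ) : Prop :=
  ∀ ε : ℝ, 0 < ε → ∀ᶠ y : ℝ in atTop, ∀ Z : ℕ, 1 ≤ Z → (Z : ℝ) ≤ y ^ g₀ →
    |AA (y ^ j₀) Z (FM y j₀ (J₂ + 1) M) (fun S => ∏ π ∈ S, π) (pA J₁ y M.sum) (pB J₂ y R M.sum) -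
      mT J₁ J₂ R j₀ M y| ≤ η * mT J₁ J₂ R j₀ M y + ε

/-- Visible divisors. -/
def VisSt : Prop :=
  ∃ C : ℝ, 0 < C ∧ ∀ k : ℕ, C ≤ 2 ^ k → ∀ (g J₁ J₂ R j₀ g₀ : ℕ) (M : Multiset ℕ), 1 ≤ j₀ →
    J₁ ≤ J₂ → 2 * g ≤ J₁ → g₀ + 80 * (4 * k + 6) * j₀ + (J₂ - J₁) + 2 ≤ g → (∀ x ∈ M, j₀ ≤ x) →
    (M.sum + g ≤ J₂ ∨ ∃ P b : ℕ, M = {P, b} ∧ b < P ∧ g ≤ P ∧ vis2 g (J₁ - (P + b)) b) →
    AsyI (C / 2 ^ k) J₁ J₂ R j₀ g₀ M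

/-- the sum of the first type -/
def _root_.Pool.Agent.Lib.MP_4b1228_nt.GS.Sv.TIr (s : Sv) (y : ℝ) (j₀ R Z : ℕ) : ℝ :=
  ∑ S ∈ (PP y j₀ (s.J₂ + 1)).powerset, s.yy (im y S) *
    ∑ m ∈ Sq (pA s.J₁ y (im y S).sum) (pB s.J₂ y R (im y S).sum) with Rough (y ^ j₀) (nm m),
      ww Z ((∏ π ∈ S, π) * m)

/-- a sum over the sets of primes with total index in the range -/
def _root_.Pool.Agent.Lib.MP_4b1228_nt.GS.Sv.scr (s : Sv) (y : ℝ) (j₀ Z : ℕ) (F : Multiset ℕ → ℝ) : ℝ :=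
  ∑ S ∈ NS y j₀ (s.J₂ + 1) with s.J₁ ≤ (im y S).sum ∧ (im y S).sum ≤ s.J₂,
    F (im y S) * ww Z (∏ π ∈ S, π)

/-- all divisors with a weight are visible -/
def _root_.Pool.Agent.Lib.MP_4b1228_nt.GS.Sv.Visr (s : Sv) (η : ℝ) (R j₀ g₀ : ℕ) : Prop :=
  ∀ M, s.yy M ≠ 0 → (∀ x ∈ M, j₀ ≤ x) → AsyI η s.J₁ s.J₂ R j₀ g₀ M

/-- All sums of the first type. -/
def TIG : Prop :=
  ∃ C : ℝ, 0 < C ∧ ∀ (s : Sv) (η ε : ℝ) (j₀ R g₀ : ℕ), s.Wt → 0 ≤ η → 0 < ε → 1 ≤ j₀ →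
    s.J₂ + 2 * R + 1 ≤ R * j₀ → s.Visr η R j₀ g₀ →
    ∀ᶠ y : ℝ in atTop, ∀ Z : ℕ, 1 ≤ Z → (Z : ℝ) ≤ y ^ g₀ →
      |s.TIr y j₀ R Z - s.TIr y j₀ R 1| ≤ C * η * R * ((s.J₂ : ℝ) - s.J₁ + R + 2) / j₀ + ε

/-- The sum of the first type as a sum over sets of primes. -/
def IDG : Prop :=
  ∀ (s : Sv) (y : ℝ) (j₀ R Z : ℕ), s.Wt → 3 ≤ y → 1 ≤ j₀ → s.J₂ + 2 * R + 1 ≤ R * j₀ →
    |s.TIr y j₀ R Z - 4 * s.scr y j₀ Z s.T| ≤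
      100 * 2 ^ R * (NN (y ^ j₀) Z (y ^ (s.J₁ - 1)) (y ^ (s.J₂ + 2 * R + 1)) +
        lay (y ^ j₀) Z (y ^ (s.J₁ - 1)) (y ^ (s.J₁ + R)) +
        lay (y ^ j₀) Z (y ^ s.J₂) (y ^ (s.J₂ + 2 * R + 1)))

/-- The sums over all sets of primes agree. -/
def CoG : Prop :=
  ∃ (c : ℕ) (C : ℝ), 0 < C ∧ ∀ (s : Sv) (η ε : ℝ) (j₀ R g₀ : ℕ), s.Wt → 0 ≤ η → 0 < ε → 1 ≤ j₀ →
    s.J₂ + 2 * R + 1 ≤ R * j₀ → g₀ + c * j₀ + 2 ≤ s.τ → s.Visr η R j₀ g₀ →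
    ∀ᶠ y : ℝ in atTop, ∀ Z : ℕ, 1 ≤ Z → (Z : ℝ) ≤ y ^ g₀ →
      |s.scr y j₀ Z s.T - s.scr y j₀ 1 s.T| ≤
        C * η * R * ((s.J₂ : ℝ) - s.J₁ + R + 2) / j₀ + C * 2 ^ R * R / j₀ + ε

/-- The exceptional sets. -/
def ExG : Prop :=
  ∃ (c : ℕ) (C : ℝ), 0 < C ∧ ∀ (s : Sv) (j₀ R g₀ : ℕ), s.Wt → 1 ≤ j₀ →
    s.J₂ + 2 * R + 1 ≤ R * j₀ → g₀ + c * j₀ ≤ s.τ →
    ∀ᶠ y : ℝ in atTop, ∀ Z : ℕ, 1 ≤ Z → (Z : ℝ) ≤ y ^ g₀ →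
      (s.scr y j₀ Z fun M => if Exc s.τ M then |s.T M| else 0) ≤
        C * 2 ^ R * (((s.J₂ : ℝ) - 2 * s.τ + R + 2) / j₀) ^ 2

/-- The sums over the good sets agree; the bad sets. -/
def GdG : Prop :=
  ∀ (s : Sv) (ε : ℝ) (j₀ R g₀ : ℕ), s.Wt → 0 < ε → 1 ≤ j₀ →
    s.J₂ + 2 * R + 1 ≤ R * j₀ → g₀ + j₀ + 2 ≤ s.τ → Asy s.G j₀ g₀ →
    ∀ᶠ y : ℝ in atTop, ∀ Z : ℕ, 1 ≤ Z → (Z : ℝ) ≤ y ^ g₀ →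
      |(s.scr y j₀ Z fun M => if s.G M then s.T M else 0) -
        s.scr y j₀ 1 fun M => if s.G M then s.T M else 0| ≤ ε ∧
      (s.scr y j₀ Z fun M => if s.B M then 0 else s.T M) ≤ ∑ π ∈ PP y s.J₁ (s.J₂ + 1), ww Z π

/-- The bad sets in the model. -/
def BdG : Prop :=
  ∀ (s : Sv) (ε : ℝ) (j₀ R : ℕ), s.Wt → 0 < ε → 1 ≤ j₀ → j₀ ≤ s.J₁ → s.J₂ + 2 * R + 1 ≤ R * j₀ →
    ∀ᶠ y : ℝ in atTop, ∑ J ∈ Icc s.J₁ s.J₂, (1 / ((J : ℝ) + 1) - s.ls j₀ (s.J₂ + 1) R J) - ε ≤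
      s.scr y j₀ 1 fun M => if s.B M then 0 else s.T M

theorem len_pos (Z : ℕ) : 1 ≤ len Z := Nat.one_le_two_pow

theorem len_le {Z : ℕ} (hZ : 1 ≤ Z) : len Z ≤ Z :=
  (Nat.pow_le_pow_right two_pos (Nat.sub_le _ _)).trans (Nat.pow_log_le_self 2 (by omega))

theorem norm_rot (Z : ℕ) : ‖rot Z‖ = 1 := hK.norm_grid _ _

theorem norm_dr (Z : ℕ) {a : GI} (h : a ≠ 0) : ‖dir a ^ 4 * rot Z‖ = 1 := by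
  rw [norm_mul, norm_pow, hA.norm_dir _ h, norm_rot, one_pow, one_mul]

theorem wwN (Z : ℕ) (a : GI) : 0 ≤ ww Z a := div_nonneg (hK.nonneg _ _) (Nat.cast_nonneg _)

theorem wwU (Z : ℕ) (u a : GI) (h : IsUnit u) : ww Z (u * a) = ww Z a := by
  rw [ww, ww, hA.dir_mul, mul_pow, BasP.dir_unit h, one_mul, hG.1,
    show nm u = 1 from Zsqrtd.norm_eq_one_iff.2 h, one_mul]

theorem wwO (a : GI) : ww 1 a = 1 / nm a := by simp [ww, Two.ker, len]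

theorem wwE (ι : Type) (S : Finset ι) (v : ι → GI) (Z : ℕ) (hZ : 1 ≤ Z) (h : ∀ i ∈ S, v i ≠ 0) :
    |∑ i ∈ S, ww Z (v i) - D0 S v| ≤ ∑ t ∈ fz Z, ‖hat S v t‖ := by
  have hL := len_pos Z
  have ex : ((∑ i ∈ S, ww Z (v i) : ℝ) : ℂ) =
      ∑ t ∈ fr (len Z), ((1 - |(t : ℝ)| / len Z : ℝ) : ℂ) * rot Z ^ t * hat S v t := by
    simp only [hat, mul_sum]
    rw [sum_comm, Complex.ofReal_sum]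
    refine sum_congr rfl fun i hi => ?_
    rw [ww, Complex.ofReal_div, hK.expand _ _ hL (norm_dr Z (h i hi)), sum_div]
    refine sum_congr rfl fun t _ => ?_
    rw [BasP.xi_eq, mul_zpow, Complex.ofReal_natCast]
    ring
  have h0 : (0 : ℤ) ∈ fr (len Z) := mem_Icc.2 ⟨by omega, by omega⟩
  rw [← Real.norm_eq_abs, ← Complex.norm_real, Complex.ofReal_sub, ex,
    ← add_sum_erase _ _ h0, BasP.hat_zero]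
  simp only [Int.cast_zero, abs_zero, zero_div, sub_zero, Complex.ofReal_one, one_mul, zpow_zero,
    add_sub_cancel_left]
  have hs : (fr (len Z)).erase 0 ⊆ fz Z := erase_subset_erase _
    (Icc_subset_Icc (by have := len_le hZ; omega) (by have := len_le hZ; omega))
  refine (norm_sum_le _ _).trans ((sum_le_sum fun t ht => ?_).trans
    (sum_le_sum_of_subset_of_nonneg hs fun _ _ _ => norm_nonneg _))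
  have := BasP.co hL (mem_of_mem_erase ht)
  rw [norm_mul, norm_mul, norm_zpow, norm_rot, one_zpow, mul_one, Complex.norm_real,
    Real.norm_of_nonneg (by linarith)]
  exact mul_le_of_le_one_left (norm_nonneg _) (by linarith)

end

end Pool.Agent.Lib.MP_4b1228_nt.GS.R
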